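import Pool.Agent.Lib.MP_a717c1_al.Rot

/-!
# `K₂`-structures and rotations of a Cartesian product
-/

set_option linter.unusedSectionVars false
set_option linter.unusedDecidableInType false

namespace QSym

open Finset SimpleGraph

universe u

variable {V₁ V₂ : Type*}
variable {G₁ : SimpleGraph V₁} {G₂ : SimpleGraph V₂}

/-- opposite edges of a 4-cycle of a Cartesian product have the same direction -/
theorem box_opp {a b c d : V₁ × V₂} (h1 : (G₁ □ G₂).Adj a b) (h2 : (G₁ □ G₂).Adj b c)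
    (h3 : (G₁ □ G₂).Adj d c) (h4 : (G₁ □ G₂).Adj a d) (hac : a ≠ c) (hbd : b ≠ d) :
    a.2 = b.2 ↔ d.2 = c.2 := by
  obtain ⟨a1, a2⟩ := a
  obtain ⟨b1, b2⟩ := b
  obtain ⟨c1, c2⟩ := c
  obtain ⟨d1, d2⟩ := d
  simp only [boxProd_adj, ne_eq, Prod.mk.injEq, not_and] at *
  have e1 : G₁.Adj a1 b1 → a1 ≠ b1 := fun h => h.ne
  have e2 : G₂.Adj a2 b2 → a2 ≠ b2 := fun h => h.ne
  have e3 : G₁.Adj b1 c1 → b1 ≠ c1 := fun h => h.ne
  have e4 : G₂.Adj b2 c2 → b2 ≠ c2 := fun h => h.ne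
  have e5 : G₁.Adj d1 c1 → d1 ≠ c1 := fun h => h.ne
  have e6 : G₂.Adj d2 c2 → d2 ≠ c2 := fun h => h.ne
  have e7 : G₁.Adj a1 d1 → a1 ≠ d1 := fun h => h.ne
  have e8 : G₂.Adj a2 d2 → a2 ≠ d2 := fun h => h.ne
  grind

theorem box_adj_fst {x y : V₁ × V₂} (h : (G₁ □ G₂).Adj x y) (h2 : x.2 = y.2) :
    G₁.Adj x.1 y.1 := by
  rw [boxProd_adj] at h
  rcases h with h | h
  · exact h.1
  · exact absurd h2 h.1.ne

theorem box_adj_snd {x y : V₁ × V₂} (h : (G₁ □ G₂).Adj x y) (h2 : x.2 ≠ y.2) :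
    x.1 = y.1 ∧ G₂.Adj x.2 y.2 := by
  rw [boxProd_adj] at h
  rcases h with h | h
  · exact absurd h.2 h2
  · exact ⟨h.2, h.1⟩

/-- a K₂-structure preserving the layers restricts to a layer -/
theorem K2_layer {φ : V₁ × V₂ → V₁ × V₂} {c : V₁ × V₂ → Prop} (h : IsK2 (G₁ □ G₂) φ c)
    (hd : ∀ x, (φ x).2 = x.2) (q₀ : V₂) :
    IsK2 G₁ (fun p => (φ (p, q₀)).1) (fun p => c (p, q₀)) := by
  have e : ∀ p, φ (p, q₀) = ((φ (p, q₀)).1, q₀) := fun p => Prod.ext rfl (hd _)
  refine ⟨?_, ?_, ?_, ?_⟩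
  · intro p
    have := h.inv (p, q₀)
    rw [e p] at this
    exact congrArg Prod.fst this
  · intro p
    exact box_adj_fst (h.move (p, q₀)) (hd _).symm
  · intro p p' hp
    have h1 : (G₁ □ G₂).Adj (p, q₀) (p', q₀) := by rw [boxProd_adj]; left; exact ⟨hp, rfl⟩
    exact box_adj_fst (h.adj _ _ h1) (by rw [hd, hd])
  · intro p p' hp
    have h1 : (G₁ □ G₂).Adj (p, q₀) (p', q₀) := by rw [boxProd_adj]; left; exact ⟨hp, rfl⟩
    rw [h.col _ _ h1]
    constructor
    · intro h2; exact congrArg Prod.fst h2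
    · intro h2; rw [e p]; exact Prod.ext h2 rfl

theorem K2_swap {φ : V₁ × V₂ → V₁ × V₂} {c : V₁ × V₂ → Prop} (h : IsK2 (G₁ □ G₂) φ c) :
    IsK2 (G₂ □ G₁) (fun x => (φ x.swap).swap) (fun x => c x.swap) := by
  have sw : ∀ x y : V₂ × V₁, (G₂ □ G₁).Adj x y ↔ (G₁ □ G₂).Adj x.swap y.swap := by
    intro x y
    simp only [boxProd_adj, Prod.fst_swap, Prod.snd_swap]
    tauto
  refine ⟨?_, ?_, ?_, ?_⟩
  · intro x; simp [h.inv]
  · intro x; rw [sw]; simpa using h.move x.swap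
  · intro x y hxy; rw [sw] at hxy ⊢; simpa using h.adj _ _ hxy
  · intro x y hxy
    rw [sw] at hxy
    rw [h.col _ _ hxy]
    constructor
    · intro h2; rw [← h2]; simp
    · intro h2; rw [h2]; simp

/-- A `K₂`-structure on a product restricts to one of the factors. -/
theorem K2_box (hG : (G₁ □ G₂).Connected) {φ : V₁ × V₂ → V₁ × V₂} {c : V₁ × V₂ → Prop}
    (h : IsK2 (G₁ □ G₂) φ c) : (∃ φ c, IsK2 G₁ φ c) ∨ (∃ φ c, IsK2 G₂ φ c) := by
  obtain ⟨x₀⟩ := hG.nonempty
  have step : ∀ x y, (G₁ □ G₂).Adj x y → (x.2 = (φ x).2 ↔ y.2 = (φ y).2) := by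
    intro x y hxy
    by_cases hy : y = φ x
    · subst hy
      rw [h.inv, eq_comm]
    · exact box_opp (h.move x) (h.adj _ _ hxy) (h.move y) hxy
        (by intro h2; apply hy; rw [h2, h.inv]) (Ne.symm hy)
  have const : ∀ y, (x₀.2 = (φ x₀).2 ↔ y.2 = (φ y).2) := by
    intro y
    have h0 := (SimpleGraph.reachable_iff_reflTransGen x₀ y).1 (hG.preconnected x₀ y)
    induction h0 with
    | refl => exact Iff.rfl
    | tail _ hpq ih => exact ih.trans (step _ _ hpq)
  by_cases h1 : x₀.2 = (φ x₀).2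
  · left
    exact ⟨_, _, K2_layer h (fun x => ((const x).1 h1).symm) x₀.2⟩
  · right
    refine ⟨_, _, K2_layer (K2_swap h) (fun x => ?_) x₀.1⟩
    have h2 : x.swap.2 ≠ (φ x.swap).2 := fun h3 => h1 ((const _).2 h3)
    have := (box_adj_snd (h.move x.swap) h2).1
    exact this.symm

/-- rotation with a colouring -/
structure IsRC (G : SimpleGraph V₁) (ρ : V₁ → V₁) (c : V₁ → Prop) : Prop where
  adj : ∀ x y, G.Adj x y → G.Adj (ρ x) (ρ y)
  move : ∀ x, G.Adj x (ρ x)
  four : ∀ x, ρ (ρ (ρ (ρ x))) = x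
  two : ∀ x, ρ (ρ x) ≠ x
  col : ∀ x y, G.Adj x y → (¬ (c x ↔ c y) ↔ (y = ρ x ∨ x = ρ y))

theorem RC_layer {ρ : V₁ × V₂ → V₁ × V₂} {c : V₁ × V₂ → Prop} (h : IsRC (G₁ □ G₂) ρ c)
    (hd : ∀ x, (ρ x).2 = x.2) (q₀ : V₂) :
    IsRC G₁ (fun p => (ρ (p, q₀)).1) (fun p => c (p, q₀)) := by
  have e : ∀ p, ρ (p, q₀) = ((ρ (p, q₀)).1, q₀) := fun p => Prod.ext rfl (hd _)
  have e2 : ∀ p, ((ρ ((ρ (p, q₀)).1, q₀)).1, q₀) = ρ (ρ (p, q₀)) := by
    intro p
    rw [← e p]
    exact (Prod.ext rfl (by rw [hd, hd]) : ρ (ρ (p, q₀)) = ((ρ (ρ (p, q₀))).1, q₀)).symm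
  refine ⟨?_, ?_, ?_, ?_, ?_⟩
  · intro p p' hp
    have h1 : (G₁ □ G₂).Adj (p, q₀) (p', q₀) := by rw [boxProd_adj]; left; exact ⟨hp, rfl⟩
    exact box_adj_fst (h.adj _ _ h1) (by rw [hd, hd])
  · intro p
    exact box_adj_fst (h.move (p, q₀)) (hd _).symm
  · intro p
    have := h.four (p, q₀)
    rw [← e2 p, e2 ((ρ ((ρ (p, q₀)).1, q₀)).1) |>.symm] at this
    exact congrArg Prod.fst this
  · intro p h1
    apply h.two (p, q₀)
    rw [← e2 p]
    exact Prod.ext h1 rfl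
  · intro p p' hp
    have h1 : (G₁ □ G₂).Adj (p, q₀) (p', q₀) := by rw [boxProd_adj]; left; exact ⟨hp, rfl⟩
    rw [h.col _ _ h1]
    constructor
    · rintro (h2 | h2)
      · left; exact congrArg Prod.fst h2
      · right; exact congrArg Prod.fst h2
    · rintro (h2 | h2)
      · left; rw [e p]; exact Prod.ext h2 rfl
      · right; rw [e p']; exact Prod.ext h2 rfl

theorem RC_swap {ρ : V₁ × V₂ → V₁ × V₂} {c : V₁ × V₂ → Prop} (h : IsRC (G₁ □ G₂) ρ c) :
    IsRC (G₂ □ G₁) (fun x => (ρ x.swap).swap) (fun x => c x.swap) := by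
  have sw : ∀ x y : V₂ × V₁, (G₂ □ G₁).Adj x y ↔ (G₁ □ G₂).Adj x.swap y.swap := by
    intro x y
    simp only [boxProd_adj, Prod.fst_swap, Prod.snd_swap]
    tauto
  have sw2 : ∀ (x : V₂ × V₁) (y : V₁ × V₂), x.swap = y ↔ x = y.swap := by
    intro x y
    constructor
    · intro h2; rw [← h2]; simp
    · intro h2; rw [h2]; simp
  refine ⟨?_, ?_, ?_, ?_, ?_⟩
  · intro x y hxy; rw [sw] at hxy ⊢; simpa using h.adj _ _ hxy
  · intro x; rw [sw]; simpa using h.move x.swap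
  · intro x; simp [h.four]
  · intro x hx
    apply h.two x.swap
    have := congrArg Prod.swap hx
    simpa using this
  · intro x y hxy
    rw [sw] at hxy
    rw [h.col _ _ hxy, sw2, sw2]

/-- A coloured rotation on a product restricts to a coloured rotation or a `K₂`-structure
on one of the factors. -/
theorem RC_box (hG : (G₁ □ G₂).Connected) {ρ : V₁ × V₂ → V₁ × V₂} {c : V₁ × V₂ → Prop}
    (h : IsRC (G₁ □ G₂) ρ c) : (∃ φ c, IsK2 G₁ φ c) ∨ (∃ ρ c, IsRC G₁ ρ c) ∨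
      (∃ ρ c, IsRC G₂ ρ c) := by
  obtain ⟨x₀⟩ := hG.nonempty
  have inj : ∀ {x y}, ρ x = ρ y → x = y := by
    intro x y hxy
    rw [← h.four x, hxy, h.four]
  -- `m x`: the move at `x` is horizontal
  let m : V₁ × V₂ → Prop := fun x => x.2 = (ρ x).2
  have m2 : ∀ x, m (ρ (ρ x)) ↔ m x := by
    intro x
    have := box_opp (h.move x) (h.move (ρ x)) (h.move (ρ (ρ x))).symm
      (by have := h.move (ρ (ρ (ρ x))); rw [h.four] at this; exact this.symm)
      (h.two x).symm (h.two (ρ x)).symm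
    change (ρ (ρ x)).2 = _ ↔ x.2 = _
    rw [this, eq_comm]
  have mNE : ∀ x y, (G₁ □ G₂).Adj x y → y ≠ ρ x → x ≠ ρ y → (m x ↔ m y) := by
    intro x y hxy h1 h2
    exact box_opp (h.move x) (h.adj _ _ hxy) (h.move y) hxy h2 (Ne.symm h1)
  have stepP : ∀ x y, (G₁ □ G₂).Adj x y → ((m (ρ x) ↔ m x) ↔ (m (ρ y) ↔ m y)) := by
    intro x y hxy
    by_cases h1 : y = ρ x
    · subst h1; rw [m2]; tauto
    · by_cases h2 : x = ρ y
      · subst h2; rw [m2]; tauto
      · rw [mNE x y hxy h1 h2, mNE _ _ (h.adj _ _ hxy) (fun h3 => h1 (inj h3))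
          (fun h3 => h2 (inj h3))]
  have constP : ∀ y, ((m (ρ x₀) ↔ m x₀) ↔ (m (ρ y) ↔ m y)) := by
    intro y
    have h0 := (SimpleGraph.reachable_iff_reflTransGen x₀ y).1 (hG.preconnected x₀ y)
    induction h0 with
    | refl => exact Iff.rfl
    | tail _ hpq ih => exact ih.trans (stepP _ _ hpq)
  by_cases hP : (m (ρ x₀) ↔ m x₀)
  · -- the direction is constant
    right
    have stepm : ∀ x y, (G₁ □ G₂).Adj x y → (m x ↔ m y) := by
      intro x y hxy
      by_cases h1 : y = ρ x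
      · subst h1; exact ((constP x).1 hP).symm
      · by_cases h2 : x = ρ y
        · subst h2; exact (constP y).1 hP
        · exact mNE x y hxy h1 h2
    have const : ∀ y, (m x₀ ↔ m y) := by
      intro y
      have h0 := (SimpleGraph.reachable_iff_reflTransGen x₀ y).1 (hG.preconnected x₀ y)
      induction h0 with
      | refl => exact Iff.rfl
      | tail _ hpq ih => exact ih.trans (stepm _ _ hpq)
    by_cases hm : m x₀
    · left
      exact ⟨_, _, RC_layer h (fun x => ((const x).1 hm).symm) x₀.2⟩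
    · right
      refine ⟨_, _, RC_layer (RC_swap h) (fun x => ?_) x₀.1⟩
      have h2 : x.swap.2 ≠ (ρ x.swap).2 := fun h3 => hm ((const _).2 h3)
      exact (box_adj_snd (h.move x.swap) h2).1.symm
  · left
    have hP' : ∀ x, (m (ρ x) ↔ ¬ m x) := by
      intro x
      have := fun h3 => hP ((constP x).2 h3)
      tauto
    have hP3 : ∀ x, (m (ρ (ρ (ρ x))) ↔ ¬ m x) := by
      intro x; rw [hP', m2]
    classical
    let Φ : V₁ × V₂ → V₁ × V₂ := fun x => if m x then ρ x else ρ (ρ (ρ x))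
    have Φ1 : ∀ {x}, m x → Φ x = ρ x := fun h1 => if_pos h1
    have Φ2 : ∀ {x}, ¬ m x → Φ x = ρ (ρ (ρ x)) := fun h1 => if_neg h1
    have Φm : ∀ x, (m (Φ x) ↔ ¬ m x) := by
      intro x
      by_cases h1 : m x
      · rw [Φ1 h1]; exact hP' x
      · rw [Φ2 h1]; exact hP3 x
    have Φl : ∀ x, (Φ x).2 = x.2 := by
      intro x
      by_cases h1 : m x
      · rw [Φ1 h1]; exact h1.symm
      · rw [Φ2 h1]
        have : m (ρ (ρ (ρ x))) := (hP3 x).2 h1
        change (ρ (ρ (ρ x))).2 = (ρ (ρ (ρ (ρ x)))).2 at this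
        rw [h.four] at this
        exact this
    have Φi : ∀ x, Φ (Φ x) = x := by
      intro x
      by_cases h1 : m x
      · rw [Φ2 (fun h2 => ((Φm x).1 h2) h1), Φ1 h1, h.four]
      · rw [Φ1 ((Φm x).2 h1), Φ2 h1, h.four]
    have Φmv : ∀ x, (G₁ □ G₂).Adj x (Φ x) := by
      intro x
      by_cases h1 : m x
      · rw [Φ1 h1]; exact h.move x
      · rw [Φ2 h1]
        have := h.move (ρ (ρ (ρ x)))
        rw [h.four] at this
        exact this.symm
    -- horizontal edges other than `x, Φ x` are non-rotation edges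
    have hor : ∀ x y, (G₁ □ G₂).Adj x y → x.2 = y.2 → y ≠ Φ x → y ≠ ρ x ∧ x ≠ ρ y := by
      intro x y hxy h2 h3
      constructor
      · intro h4
        apply h3
        rw [Φ1, h4]
        change x.2 = (ρ x).2
        rw [← h4]; exact h2
      · intro h4
        apply h3
        have h5 : y = ρ (ρ (ρ x)) := by rw [h4, h.four]
        have h6 : m y := by
          change y.2 = (ρ y).2
          rw [← h4]; exact h2.symm
        have h7 : ¬ m x := by
          rw [h5, hP3] at h6; exact h6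
        rw [Φ2 h7, h5]
    refine ⟨fun p => (Φ (p, x₀.2)).1, fun p => m (p, x₀.2), ?_, ?_, ?_, ?_⟩
    · intro p
      have e : Φ (p, x₀.2) = ((Φ (p, x₀.2)).1, x₀.2) := Prod.ext rfl (Φl _)
      have := Φi (p, x₀.2)
      rw [e] at this
      exact congrArg Prod.fst this
    · intro p
      exact box_adj_fst (Φmv (p, x₀.2)) (Φl _).symm
    · intro p p' hp
      have h1 : (G₁ □ G₂).Adj (p, x₀.2) (p', x₀.2) := by rw [boxProd_adj]; left; exact ⟨hp, rfl⟩
      refine box_adj_fst (G₂ := G₂) (x := Φ (p, x₀.2)) (y := Φ (p', x₀.2)) ?_ (by rw [Φl, Φl])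
      by_cases h2 : (p', x₀.2) = Φ (p, x₀.2)
      · rw [h2, Φi]
        exact (Φmv _).symm
      · obtain ⟨h3, h4⟩ := hor _ _ h1 rfl h2
        have h5 := mNE _ _ h1 h3 h4
        by_cases h6 : m (p, x₀.2)
        · rw [Φ1 h6, Φ1 (h5.1 h6)]; exact h.adj _ _ h1
        · rw [Φ2 h6, Φ2 (fun h7 => h6 (h5.2 h7))]
          exact h.adj _ _ (h.adj _ _ (h.adj _ _ h1))
    · intro p p' hp
      have h1 : (G₁ □ G₂).Adj (p, x₀.2) (p', x₀.2) := by rw [boxProd_adj]; left; exact ⟨hp, rfl⟩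
      constructor
      · intro h2
        by_contra h3
        obtain ⟨h4, h5⟩ := hor _ _ h1 rfl (fun h4 => h3 (congrArg Prod.fst h4))
        exact h2 (mNE _ _ h1 h4 h5)
      · rintro rfl h2
        have e : ((Φ (p, x₀.2)).1, x₀.2) = Φ (p, x₀.2) := Prod.ext rfl (Φl (p, x₀.2)).symm
        rw [e] at h2
        have := Φm (p, x₀.2)
        tauto

/-- two disjoint nontrivial automorphisms -/
def DisjAut (G : SimpleGraph V₁) : Prop :=
  ∃ σ τ : G ≃g G, (∀ x, σ x = x ∨ τ x = x) ∧ (∃ x, σ x ≠ x) ∧ (∃ x, τ x ≠ x)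

theorem IsRC.disjAut [Nonempty V₁] {ρ : V₁ → V₁} {c : V₁ → Prop} (h : IsRC G₁ ρ c) :
    DisjAut G₁ := by
  classical
  have inj : ∀ {x y}, ρ x = ρ y → x = y := by
    intro x y hxy
    rw [← h.four x, hxy, h.four]
  have cρ : ∀ x, (c (ρ x) ↔ ¬ c x) := by
    intro x
    have := (h.col x (ρ x) (h.move x)).2 (Or.inl rfl)
    tauto
  have c2 : ∀ x, (c (ρ (ρ x)) ↔ c x) := by
    intro x; rw [cρ, cρ]; tauto
  -- general construction
  have main : ∀ d : V₁ → Prop, (∀ x, (d (ρ (ρ x)) ↔ d x)) →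
      (∀ x y, G₁.Adj x y → ¬ (d x ↔ d y) → (y = ρ x ∨ x = ρ y)) →
      ∃ σ : G₁ ≃g G₁, ∀ x, σ x = if d x then ρ (ρ x) else x := by
    intro d hd hcol
    let f : V₁ → V₁ := fun x => if d x then ρ (ρ x) else x
    have f1 : ∀ {x}, d x → f x = ρ (ρ x) := fun h => if_pos h
    have f2 : ∀ {x}, ¬ d x → f x = x := fun h => if_neg h
    have ff : ∀ x, f (f x) = x := by
      intro x
      by_cases h1 : d x
      · rw [f1 h1, f1 ((hd x).2 h1), h.four]
      · rw [f2 h1, f2 h1]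
    have fadj : ∀ x y, G₁.Adj x y → G₁.Adj (f x) (f y) := by
      have mixed : ∀ x y, G₁.Adj x y → d x → ¬ d y → G₁.Adj (ρ (ρ x)) y := by
        intro x y hxy h1 h2
        rcases hcol x y hxy (by tauto) with h3 | h3
        · rw [h3]; exact (h.move (ρ x)).symm
        · have : y = ρ (ρ (ρ x)) := by rw [h3, h.four]
          rw [this]; exact h.move _
      intro x y hxy
      by_cases h1 : d x <;> by_cases h2 : d y
      · rw [f1 h1, f1 h2]; exact h.adj _ _ (h.adj _ _ hxy)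
      · rw [f1 h1, f2 h2]; exact mixed x y hxy h1 h2
      · rw [f2 h1, f1 h2]; exact (mixed y x hxy.symm h2 h1).symm
      · rw [f2 h1, f2 h2]; exact hxy
    refine ⟨⟨⟨f, f, ff, ff⟩, ?_⟩, fun x => rfl⟩
    intro x y
    constructor
    · intro h1
      have := fadj _ _ h1
      simp only [Equiv.coe_fn_mk, ff] at this
      exact this
    · exact fadj x y
  obtain ⟨σ, hσ⟩ := main c c2 (fun x y hxy h1 => (h.col x y hxy).1 h1)
  obtain ⟨τ, hτ⟩ := main (fun x => ¬ c x) (fun x => by rw [c2]) (fun x y hxy h1 =>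
    (h.col x y hxy).1 (by tauto))
  obtain ⟨x⟩ := ‹Nonempty V₁›
  have hex : ∃ x, c x := by
    by_cases h1 : c x
    · exact ⟨x, h1⟩
    · exact ⟨ρ x, (cρ x).2 h1⟩
  obtain ⟨y, hy⟩ := hex
  refine ⟨σ, τ, ?_, ⟨y, ?_⟩, ⟨ρ y, ?_⟩⟩
  · intro z
    by_cases h1 : c z
    · right; rw [hτ, if_neg (by simpa using h1)]
    · left; rw [hσ, if_neg h1]
  · rw [hσ, if_pos hy]; exact h.two y
  · rw [hτ, if_pos (by rw [cρ]; simpa using hy)]; exact h.two _

/-- A `K₂`-structure gives a Cartesian factor `K₂`. -/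
theorem IsK2.iso {V : Type u} {G : SimpleGraph V} {φ : V → V} {c : V → Prop} (h : IsK2 G φ c) :
    ∃ (W : Type u) (Y : SimpleGraph W), Nonempty (G ≃g (⊤ : SimpleGraph Bool) □ Y) := by
  classical
  have cφ : ∀ x, (c (φ x) ↔ ¬ c x) := by
    intro x
    have := (h.col x (φ x) (h.move x)).2 rfl
    tauto
  have adj' : ∀ x y, G.Adj (φ x) (φ y) ↔ G.Adj x y := by
    intro x y
    constructor
    · intro h1
      have := h.adj _ _ h1
      rwa [h.inv, h.inv] at this
    · exact h.adj x y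
  refine ⟨{x // c x}, G.induce {x | c x}, ⟨⟨⟨fun x => if hx : c x then (true, ⟨x, hx⟩) else
    (false, ⟨φ x, (cφ x).2 hx⟩), fun y => if y.1 then y.2.1 else φ y.2.1, ?_, ?_⟩, ?_⟩⟩⟩
  · intro x
    by_cases hx : c x
    · simp [hx]
    · simp [hx, h.inv]
  · rintro ⟨b, y, hy⟩
    cases b
    · have : ¬ c (φ y) := by rw [cφ]; simpa using hy
      simp [this, h.inv]
    · simp [hy]
  · intro x y
    simp only [Equiv.coe_fn_mk]
    by_cases hx : c x <;> by_cases hy : c y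
    · simp [hx, hy, boxProd_adj]
    · simp only [hx, hy, dite_true, dite_false, boxProd_adj, top_adj, comap_adj]
      constructor
      · rintro (h1 | h1)
        · have h2 : x = φ y := congrArg Subtype.val h1.2
          rw [h2]; exact (h.move y).symm
        · simp at h1
      · intro h1
        left
        refine ⟨by simp, ?_⟩
        apply Subtype.ext
        have := (h.col y x h1.symm).1 (by tauto)
        exact this
    · simp only [hx, hy, dite_true, dite_false, boxProd_adj, top_adj, comap_adj]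
      constructor
      · rintro (h1 | h1)
        · have h2 : φ x = y := congrArg Subtype.val h1.2
          rw [← h2]; exact h.move x
        · simp at h1
      · intro h1
        left
        refine ⟨by simp, ?_⟩
        apply Subtype.ext
        have := (h.col x y h1).1 (by tauto)
        exact this.symm
    · simp [hx, hy, boxProd_adj, adj']

end QSym
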