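import Mathlib

/-!
# Graphs without quantum symmetry

The quantum automorphism algebra `A(X)` of a finite graph `X` is the universal unital C*-algebra
generated by the entries of a magic unitary commuting with the adjacency matrix of `X`, and `X` has
no quantum symmetry if `A(X)` is commutative.  Since every magic unitary over a unital C*-algebra
commuting with the adjacency matrix is the image of the universal one, this says that the entries of
every such magic unitary commute.  `noQuantumSymmetry_iff` below proves this equivalence.
-/

namespace QSym

open Finset SimpleGraph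

/-- `u` is a magic unitary. -/
structure IsMagicUnitary {V : Type*} [Fintype V] {A : Type*} [Ring A] [StarRing A]
    (u : Matrix V V A) : Prop where
  selfAdj : ∀ i j, star (u i j) = u i j
  idem : ∀ i j, u i j * u i j = u i j
  row : ∀ i, ∑ j, u i j = 1
  col : ∀ j, ∑ i, u i j = 1

open Classical in
/-- The graph `X` has no quantum symmetry: for every magic unitary `u` over a unital C*-algebra which
commutes with the adjacency matrix of `X`, the entries of `u` commute with each other. -/
def NoQuantumSymmetry {V : Type} [Fintype V] (X : SimpleGraph V) : Prop :=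
  ∀ (A : Type) [CStarAlgebra A] (u : Matrix V V A), IsMagicUnitary u →
    u * X.adjMatrix A = X.adjMatrix A * u → ∀ i j k l, u i j * u k l = u k l * u i j

open Classical in
/-- `(A, u)` is the quantum automorphism algebra of `X`: the universal unital C*-algebra generated by
the entries of a magic unitary commuting with the adjacency matrix of `X`. -/
structure IsQuantumAutAlgebra {V : Type} [Fintype V] (X : SimpleGraph V) (A : Type)
    [CStarAlgebra A] (u : Matrix V V A) : Prop where
  magic : IsMagicUnitary u
  comm : u * X.adjMatrix A = X.adjMatrix A * u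
  generates : (StarAlgebra.adjoin ℂ {a | ∃ i j, a = u i j}).topologicalClosure = ⊤
  universal : ∀ (B : Type) [CStarAlgebra B] (v : Matrix V V B), IsMagicUnitary v →
    v * X.adjMatrix B = X.adjMatrix B * v → ∃ φ : A →⋆ₐ[ℂ] B, ∀ i j, φ (u i j) = v i j

/-- `X` has no quantum symmetry if and only if its quantum automorphism algebra is commutative. -/
theorem noQuantumSymmetry_iff {V : Type} [Fintype V] (X : SimpleGraph V) (A : Type)
    [CStarAlgebra A] (u : Matrix V V A) (h : IsQuantumAutAlgebra X A u) :
    NoQuantumSymmetry X ↔ ∀ a b : A, a * b = b * a := by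
  classical
  constructor
  · intro hN
    have hc := hN A u h.magic h.comm
    have key : ∀ s : Set A, (∀ a ∈ s, star a ∈ s) → (∀ i j, ∀ a ∈ s, u i j * a = a * u i j) →
        ∀ a : A, ∀ b ∈ s, a * b = b * a := by
      intro s hs1 hs2 a b hb
      have h1 : (StarAlgebra.adjoin ℂ {a | ∃ i j, a = u i j}).topologicalClosure ≤
          StarSubalgebra.centralizer ℂ s := by
        refine StarSubalgebra.topologicalClosure_minimal ?_ ?_
        · refine StarAlgebra.adjoin_le ?_
          rintro _ ⟨i, j, rfl⟩
          rw [SetLike.mem_coe, StarSubalgebra.mem_centralizer_iff]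
          intro g hg
          exact ⟨(hs2 i j g hg).symm, (hs2 i j (star g) (hs1 g hg)).symm⟩
        · rw [StarSubalgebra.coe_centralizer]
          exact Set.isClosed_centralizer _
      rw [h.generates] at h1
      have h2 : a ∈ StarSubalgebra.centralizer ℂ s := h1 (by trivial)
      rw [StarSubalgebra.mem_centralizer_iff] at h2
      exact ((h2 b hb).1).symm
    have h1 : ∀ a : A, ∀ i j, a * u i j = u i j * a := by
      intro a i j
      refine key {a | ∃ i j, a = u i j} ?_ ?_ a _ ⟨i, j, rfl⟩
      · rintro _ ⟨i, j, rfl⟩
        exact ⟨i, j, h.magic.selfAdj i j⟩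
      · rintro i j _ ⟨k, l, rfl⟩
        exact hc i j k l
    intro a b
    exact key Set.univ (fun _ _ => trivial) (fun i j a _ => (h1 a i j).symm) a b trivial
  · intro hA B _ v hv1 hv2 i j k l
    obtain ⟨φ, hφ⟩ := h.universal B v hv1 hv2
    rw [← hφ, ← hφ, ← map_mul, ← map_mul, hA]

end QSym
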