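import Pool.Agent.Lib.MP_a717c1_al.MainSquare
import Pool.Agent.Lib.MP_a717c1_al.Defs

/-!
# Quantum symmetry of graphs over C*-algebras
-/

set_option linter.unusedSectionVars false
set_option linter.unusedDecidableInType false

namespace QSym

open Finset SimpleGraph

/-- Every C*-algebra is formally real. -/
instance frealCStar (A : Type*) [CStarAlgebra A] : FReal A where
  sum_eq_zero n f h i := by
    let _ := CStarAlgebra.spectralOrder A
    let _ := CStarAlgebra.spectralOrderedRing A
    have h1 : ∀ j ∈ (Finset.univ : Finset (Fin n)), 0 ≤ star (f j) * f j :=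
      fun j _ => star_mul_self_nonneg _
    have h2 := (Finset.sum_eq_zero_iff_of_nonneg h1).1 h i (Finset.mem_univ i)
    exact CStarRing.star_mul_self_eq_zero_iff _ |>.1 h2

section

variable {V : Type*} [Fintype V] [DecidableEq V] {A : Type*} [Ring A] [StarRing A] [FReal A]
variable {X : SimpleGraph V} [DecidableRel X.Adj]

theorem QI_of_magic {u : Matrix V V A} (hu : IsMagicUnitary u)
    (hc : u * X.adjMatrix A = X.adjMatrix A * u) : QI X X (fun i j => u i j) := by
  have row_orth : ∀ {i j j'}, j ≠ j' → u i j * u i j' = 0 := fun {i j j'} h =>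
    proj_orth (fun j => u i j) (hu.selfAdj i) (hu.idem i) (hu.row i) h
  have col_orth : ∀ {i i' j}, i ≠ i' → u i j * u i' j = 0 := fun {i i' j} h =>
    proj_orth (fun i => u i j) (fun i => hu.selfAdj i j) (fun i => hu.idem i j) (hu.col j) h
  have rel : ∀ i j, ∑ k, (if X.Adj k j then u i k else 0) =
      ∑ k, (if X.Adj i k then u k j else 0) := by
    intro i j
    have := congrFun (congrFun hc i) j
    rw [Matrix.mul_apply, Matrix.mul_apply] at this
    simpa [SimpleGraph.adjMatrix_apply] using this
  refine ⟨hu.selfAdj, hu.idem, hu.row, hu.col, ?_⟩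
  intro z z' w w' hne
  -- `u z w * (relation at (z, w')) * u z' w'`
  have e := rel z w'
  have e1 : u z w * (∑ k, (if X.Adj k w' then u z k else 0)) * u z' w' =
      if X.Adj w w' then u z w * u z' w' else 0 := by
    rw [Finset.mul_sum, Finset.sum_mul, Finset.sum_eq_single w]
    · split_ifs
      · rw [hu.idem]
      · simp
    · intro k _ hk
      split_ifs
      · rw [row_orth hk.symm, zero_mul]
      · simp
    · simp
  have e2 : u z w * (∑ k, (if X.Adj z k then u k w' else 0)) * u z' w' =
      if X.Adj z z' then u z w * u z' w' else 0 := by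
    rw [Finset.mul_sum, Finset.sum_mul, Finset.sum_eq_single z']
    · split_ifs
      · rw [mul_assoc, hu.idem]
      · simp
    · intro k _ hk
      split_ifs
      · rw [mul_assoc, col_orth hk, mul_zero]
      · simp
    · simp
  rw [e, e2] at e1
  by_cases h1 : X.Adj z z' <;> by_cases h2 : X.Adj w w'
  · simp [h1, h2]
  · rw [if_pos h1, if_neg h2] at e1
    exact absurd e1 hne
  · rw [if_neg h1, if_pos h2] at e1
    exact absurd e1.symm hne
  · simp [h1, h2]

omit [FReal A] in
theorem magic_of_QI {u : V → V → A} (hu : QI X X u) :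
    IsMagicUnitary (Matrix.of u) ∧
      (Matrix.of u) * X.adjMatrix A = X.adjMatrix A * (Matrix.of u) := by
  refine ⟨⟨hu.star_eq, hu.mul_self, hu.row, hu.col⟩, ?_⟩
  ext i j
  rw [Matrix.mul_apply, Matrix.mul_apply]
  simp only [Matrix.of_apply, SimpleGraph.adjMatrix_apply, mul_ite, mul_one, mul_zero, ite_mul,
    one_mul, zero_mul]
  have e1 : ∑ k, (if X.Adj k j then u i k else 0) =
      ∑ k, ∑ l, if X.Adj k j ∧ X.Adj i l then u i k * u l j else 0 := by
    refine Finset.sum_congr rfl fun k _ => ?_
    split_ifs with h
    · calc u i k = ∑ l, u i k * u l j := by rw [← Finset.mul_sum, hu.col, mul_one]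
        _ = _ := by
          refine Finset.sum_congr rfl fun l _ => ?_
          split_ifs with h2
          · rfl
          · by_contra h3
            exact h2 ⟨h, (hu.adj i l k j h3).2 h⟩
    · symm
      apply Finset.sum_eq_zero
      intro l _
      rw [if_neg (fun h2 => h h2.1)]
  have e2 : ∑ l, (if X.Adj i l then u l j else 0) =
      ∑ k, ∑ l, if X.Adj k j ∧ X.Adj i l then u i k * u l j else 0 := by
    rw [Finset.sum_comm]
    refine Finset.sum_congr rfl fun l _ => ?_
    split_ifs with h
    · calc u l j = ∑ k, u i k * u l j := by rw [← Finset.sum_mul, hu.row, one_mul]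
        _ = _ := by
          refine Finset.sum_congr rfl fun k _ => ?_
          split_ifs with h2
          · rfl
          · by_contra h3
            exact h2 ⟨(hu.adj i l k j h3).1 h, h⟩
    · symm
      apply Finset.sum_eq_zero
      intro k _
      rw [if_neg (fun h2 => h h2.2)]
  rw [e1, e2]

end

theorem noQS_iff {V : Type} [Fintype V] (X : SimpleGraph V) :
    NoQuantumSymmetry X ↔ ∀ (A : Type) [CStarAlgebra A], Rig X A := by
  classical
  constructor
  · intro h A _ u hu i j k l
    obtain ⟨h1, h2⟩ := magic_of_QI hu
    have := h A (Matrix.of u) h1 (by convert h2)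
    exact this i j k l
  · intro h A _ u h1 h2 i j k l
    exact h A (fun i j => u i j) (QI_of_magic h1 (by convert h2)) i j k l

end QSym
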