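import Pool.Agent.Lib.MP_a717c1_al.QI

/-!
# Quantum isomorphisms onto a Cartesian product: coordinates and the elements `h`
-/

set_option linter.unusedSectionVars false
set_option linter.unusedDecidableInType false

namespace QSym

open Finset SimpleGraph

variable {V V₁ V₂ : Type*} [Fintype V] [Fintype V₁] [Fintype V₂]
variable {A : Type*} [Ring A] [StarRing A] [FReal A]
variable {G : SimpleGraph V} {G₁ : SimpleGraph V₁} {G₂ : SimpleGraph V₂}
variable {u : V → V₁ × V₂ → A}

/-- second (row) coordinate of the image of `z` -/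
def Rr (u : V → V₁ × V₂ → A) (z : V) (r : V₂) : A := ∑ s, u z (s, r)

/-- first (column) coordinate of the image of `z` -/
def Cc (u : V → V₁ × V₂ → A) (z : V) (s : V₁) : A := ∑ r, u z (s, r)

/-- probability that the images of `z`, `z'` have the same second coordinate -/
def hh (u : V → V₁ × V₂ → A) (z z' : V) : A := ∑ r, Rr u z r * Rr u z' r

/-- probability that the images of `z`, `z'` have the same first coordinate -/
def kk (u : V → V₁ × V₂ → A) (z z' : V) : A := ∑ s, Cc u z s * Cc u z' s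

/-- swap the two coordinates of the target -/
def sw (u : V → V₁ × V₂ → A) : V → V₂ × V₁ → A := fun z w => u z (w.2, w.1)

theorem Rr_sw (z : V) (s : V₁) : Rr (sw u) z s = Cc u z s := rfl
theorem Cc_sw (z : V) (r : V₂) : Cc (sw u) z r = Rr u z r := rfl
theorem hh_sw (z z' : V) : hh (sw u) z z' = kk u z z' := rfl
theorem kk_sw (z z' : V) : kk (sw u) z z' = hh u z z' := rfl

theorem QI.sw (hu : QI G (G₁ □ G₂) u) : QI G (G₂ □ G₁) (QSym.sw u) where
  star_eq z w := hu.star_eq z _
  mul_self z w := hu.mul_self z _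
  row z := by
    rw [← hu.row z]
    exact Fintype.sum_equiv (Equiv.prodComm _ _) _ _ (fun x => rfl)
  col w := hu.col _
  adj z z' w w' h := by
    rw [hu.adj z z' _ _ h]
    simp only [boxProd_adj]
    tauto

section basic

variable (hu : QI G (G₁ □ G₂) u)
include hu

theorem QI.Rr_mul_u [DecidableEq V₂] (z : V) (r : V₂) (w : V₁ × V₂) :
    Rr u z r * u z w = if w.2 = r then u z w else 0 := by
  unfold Rr
  rw [Finset.sum_mul]
  split_ifs with h
  · subst h
    rw [Finset.sum_eq_single w.1]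
    · exact hu.mul_self z w
    · intro s _ hs
      apply hu.row_orth
      intro h; exact hs (congrArg Prod.fst h)
    · simp
  · apply Finset.sum_eq_zero
    intro s _
    apply hu.row_orth
    intro h'; exact h (congrArg Prod.snd h').symm

theorem QI.u_mul_Rr [DecidableEq V₂] (z : V) (r : V₂) (w : V₁ × V₂) :
    u z w * Rr u z r = if w.2 = r then u z w else 0 := by
  unfold Rr
  rw [Finset.mul_sum]
  split_ifs with h
  · subst h
    rw [Finset.sum_eq_single w.1]
    · exact hu.mul_self z w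
    · intro s _ hs
      apply hu.row_orth
      intro h; exact hs (congrArg Prod.fst h).symm
    · simp
  · apply Finset.sum_eq_zero
    intro s _
    apply hu.row_orth
    intro h'; exact h (congrArg Prod.snd h')

theorem QI.star_Rr (z : V) (r : V₂) : star (Rr u z r) = Rr u z r := by
  unfold Rr
  rw [star_sum]
  exact Finset.sum_congr rfl fun s _ => hu.star_eq _ _

theorem QI.star_Cc (z : V) (s : V₁) : star (Cc u z s) = Cc u z s := hu.sw.star_Rr z s

theorem QI.Rr_mul_Cc (z : V) (r : V₂) (s : V₁) : Rr u z r * Cc u z s = u z (s, r) := by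
  classical
  unfold Cc
  rw [Finset.mul_sum]
  simp only [hu.Rr_mul_u]
  simp

theorem QI.Cc_mul_Rr (z : V) (r : V₂) (s : V₁) : Cc u z s * Rr u z r = u z (s, r) := by
  classical
  unfold Cc
  rw [Finset.sum_mul]
  simp only [hu.u_mul_Rr]
  simp

theorem QI.Rr_mul_Rr [DecidableEq V₂] (z : V) (r r' : V₂) :
    Rr u z r * Rr u z r' = if r = r' then Rr u z r else 0 := by
  conv_lhs => rw [Rr]
  rw [Finset.sum_mul]
  simp only [hu.u_mul_Rr]
  split_ifs with h
  · rfl
  · simp

theorem QI.Rr_self (z : V) (r : V₂) : Rr u z r * Rr u z r = Rr u z r := by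
  classical
  rw [hu.Rr_mul_Rr]; simp

theorem QI.Cc_self (z : V) (s : V₁) : Cc u z s * Cc u z s = Cc u z s := hu.sw.Rr_self z s

theorem QI.Rr_orth (z : V) {r r' : V₂} (h : r ≠ r') : Rr u z r * Rr u z r' = 0 := by
  classical
  rw [hu.Rr_mul_Rr]; simp [h]

theorem QI.sum_Rr (z : V) : ∑ r, Rr u z r = 1 := by
  unfold Rr
  rw [Finset.sum_comm, ← hu.row z, Fintype.sum_prod_type]

theorem QI.sum_Cc (z : V) : ∑ s, Cc u z s = 1 := hu.sw.sum_Rr z

theorem QI.Rr_mul_hh (z z' : V) (r : V₂) : Rr u z r * hh u z z' = Rr u z r * Rr u z' r := by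
  classical
  unfold hh
  rw [Finset.mul_sum, Finset.sum_eq_single r]
  · rw [← mul_assoc, hu.Rr_self]
  · intro r' _ h
    rw [← mul_assoc, hu.Rr_orth z h.symm, zero_mul]
  · simp

theorem QI.hh_mul_Rr (z z' : V) (r : V₂) : hh u z z' * Rr u z' r = Rr u z r * Rr u z' r := by
  classical
  unfold hh
  rw [Finset.sum_mul, Finset.sum_eq_single r]
  · rw [mul_assoc, hu.Rr_self]
  · intro r' _ h
    rw [mul_assoc, hu.Rr_orth z' h, mul_zero]
  · simp

theorem QI.Cc_mul_kk (z z' : V) (s : V₁) : Cc u z s * kk u z z' = Cc u z s * Cc u z' s :=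
  hu.sw.Rr_mul_hh z z' s

theorem QI.kk_mul_Cc (z z' : V) (s : V₁) : kk u z z' * Cc u z' s = Cc u z s * Cc u z' s :=
  hu.sw.hh_mul_Rr z z' s

theorem QI.star_hh (z z' : V) : star (hh u z z') = hh u z' z := by
  unfold hh
  rw [star_sum]
  refine Finset.sum_congr rfl fun r _ => ?_
  rw [star_mul, hu.star_Rr, hu.star_Rr]

theorem QI.star_kk (z z' : V) : star (kk u z z') = kk u z' z := hu.sw.star_hh z z'

/-- expansion of `h` -/
theorem QI.hh_eq [DecidableEq V₂] (z z' : V) :
    hh u z z' = ∑ w, ∑ w', if w.2 = w'.2 then u z w * u z' w' else 0 := by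
  unfold hh Rr
  simp only [Finset.sum_mul_sum]
  rw [Fintype.sum_prod_type_right]
  refine Finset.sum_congr rfl fun r _ => ?_
  refine Finset.sum_congr rfl fun s _ => ?_
  rw [Fintype.sum_prod_type]
  refine Finset.sum_congr rfl fun s' _ => ?_
  simp

theorem QI.kk_eq [DecidableEq V₁] (z z' : V) :
    kk u z z' = ∑ w, ∑ w', if w.1 = w'.1 then u z w * u z' w' else 0 := by
  have := hu.sw.hh_eq z z'
  rw [hh_sw] at this
  rw [this]
  refine Fintype.sum_equiv (Equiv.prodComm _ _) _ _ (fun x => ?_)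
  exact Fintype.sum_equiv (Equiv.prodComm _ _) _ _ (fun y => rfl)

theorem QI.hh_add_kk {z z' : V} (h : G.Adj z z') : hh u z z' + kk u z z' = 1 := by
  classical
  rw [hu.hh_eq, hu.kk_eq, ← Finset.sum_add_distrib]
  have h1 : (1 : A) = ∑ w, ∑ w', u z w * u z' w' := by
    rw [← Finset.sum_mul_sum, hu.row, hu.row, mul_one]
  rw [h1]
  refine Finset.sum_congr rfl fun w _ => ?_
  rw [← Finset.sum_add_distrib]
  refine Finset.sum_congr rfl fun w' _ => ?_
  by_cases h2 : w.2 = w'.2 <;> by_cases h3 : w.1 = w'.1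
  · have : w = w' := Prod.ext h3 h2
    subst this
    rw [hu.col_orth h.ne]; simp
  · simp [h2, h3]
  · simp [h2, h3]
  · rw [hu.zero_of_adj h (by rw [boxProd_adj]; tauto)]; simp

end basic

/-- the element of mixed pairs -/
noncomputable def MM (G₁ : SimpleGraph V₁) (G₂ : SimpleGraph V₂) (u : V → V₁ × V₂ → A) (z z' : V) : A :=
  open Classical in
  ∑ w, ∑ y, if G₁.Adj w.1 y.1 ∧ G₂.Adj w.2 y.2 then u z w * u z' y else 0

section paths

variable (hu : QI G (G₁ □ G₂) u)
include hu

theorem QI.triple_zero {a b c : V} {w x y : V₁ × V₂} (h : u a w * u b x = 0 ∨ u b x * u c y = 0) :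
    u a w * u b x * u c y = 0 := by
  rcases h with h | h
  · rw [h, zero_mul]
  · rw [mul_assoc, h, mul_zero]

theorem QI.sum_mid (a b c : V) (w y : V₁ × V₂) :
    ∑ x, u a w * u b x * u c y = u a w * u c y := by
  rw [← Finset.sum_mul, ← Finset.mul_sum, hu.row, mul_one]

theorem QI.sum_mid' (a c : V) (w x y : V₁ × V₂) :
    ∑ b, u a w * u b x * u c y = u a w * u c y := by
  rw [← Finset.sum_mul, ← Finset.mul_sum, hu.col, mul_one]

theorem QI.hh_mul_kk [DecidableEq V₁] [DecidableEq V₂] (a b c : V) :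
    hh u a b * kk u b c =
      ∑ w, ∑ y, u a w * u b (y.1, w.2) * u c y := by
  have h1 : ∀ (r : V₂) (s : V₁), Rr u a r * Rr u b r * (Cc u b s * Cc u c s) =
      ∑ s', ∑ r', u a (s', r) * u b (s, r) * u c (s, r') := by
    intro r s
    rw [show Rr u a r * Rr u b r * (Cc u b s * Cc u c s) =
      Rr u a r * (Rr u b r * Cc u b s) * Cc u c s by noncomm_ring, hu.Rr_mul_Cc]
    unfold Rr Cc
    rw [Finset.sum_mul, Finset.sum_mul_sum]
  unfold hh kk
  rw [Finset.sum_mul_sum]
  simp only [h1]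
  simp only [Fintype.sum_prod_type]
  rw [Finset.sum_comm]
  have : ∀ s : V₁, ∑ r : V₂, ∑ s' : V₁, ∑ r' : V₂, u a (s', r) * u b (s, r) * u c (s, r') =
      ∑ s' : V₁, ∑ r : V₂, ∑ r' : V₂, u a (s', r) * u b (s, r) * u c (s, r') := by
    intro s; rw [Finset.sum_comm]
  simp only [this]
  rw [Finset.sum_comm]
  refine Finset.sum_congr rfl fun s' _ => ?_
  rw [Finset.sum_comm]

theorem QI.kk_mul_hh [DecidableEq V₁] [DecidableEq V₂] (a b c : V) :
    kk u a b * hh u b c =
      ∑ w, ∑ y, u a w * u b (w.1, y.2) * u c y := by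
  have := hu.sw.hh_mul_kk a b c
  rw [hh_sw, kk_sw] at this
  rw [this]
  refine Fintype.sum_equiv (Equiv.prodComm _ _) _ _ (fun x => ?_)
  exact Fintype.sum_equiv (Equiv.prodComm _ _) _ _ (fun y => rfl)

/-- The basic path identity. -/
theorem QI.path {a b c : V} (hab : G.Adj a b) (hbc : G.Adj b c) :
    hh u a b * kk u b c + kk u a b * hh u b c = MM G₁ G₂ u a c := by
  classical
  rw [hu.hh_mul_kk, hu.kk_mul_hh, ← Finset.sum_add_distrib]
  unfold MM
  refine Finset.sum_congr rfl fun w _ => ?_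
  rw [← Finset.sum_add_distrib]
  refine Finset.sum_congr rfl fun y _ => ?_
  have hz : ∀ x, ¬ ((G₁ □ G₂).Adj w x ∧ (G₁ □ G₂).Adj x y) → u a w * u b x * u c y = 0 := by
    intro x hx
    apply hu.triple_zero
    by_cases h1 : (G₁ □ G₂).Adj w x
    · right
      exact hu.zero_of_adj hbc (fun h2 => hx ⟨h1, h2⟩)
    · left
      exact hu.zero_of_adj hab h1
  split_ifs with hM
  · rw [← hu.sum_mid a b c w y]
    have hne : (y.1, w.2) ≠ (w.1, y.2) := by
      intro h
      exact hM.1.ne (congrArg Prod.fst h).symm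
    rw [← Finset.sum_pair (f := fun x => u a w * u b x * u c y) hne]
    apply Finset.sum_subset (Finset.subset_univ _)
    intro x _ hx
    apply hz
    rintro ⟨h1, h2⟩
    apply hx
    rw [boxProd_adj] at h1 h2
    simp only [Finset.mem_insert, Finset.mem_singleton]
    rcases h1 with ⟨h1, h1'⟩ | ⟨h1, h1'⟩ <;> rcases h2 with ⟨h2, h2'⟩ | ⟨h2, h2'⟩
    · exact absurd (h1'.trans h2') hM.2.ne
    · left; exact Prod.ext h2' h1'.symm
    · right; exact Prod.ext h1'.symm h2'
    · exact absurd (h1'.trans h2') hM.1.ne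
  · rw [hz, hz, add_zero]
    · rintro ⟨h1, h2⟩
      rw [boxProd_adj] at h1 h2
      simp only [SimpleGraph.irrefl, false_and, and_true, false_or, or_false] at h1 h2
      tauto
    · rintro ⟨h1, h2⟩
      rw [boxProd_adj] at h1 h2
      simp only [SimpleGraph.irrefl, false_and, and_true, false_or, or_false] at h1 h2
      tauto

theorem QI.MM_self (a : V) : MM G₁ G₂ u a a = 0 := by
  classical
  unfold MM
  refine Finset.sum_eq_zero fun w _ => Finset.sum_eq_zero fun y _ => ?_
  split_ifs with h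
  · apply hu.row_orth
    rintro rfl
    exact h.1.ne rfl
  · rfl

theorem QI.path' {a b c : V} (hab : G.Adj a b) (hbc : G.Adj b c) :
    hh u a b + hh u b c = MM G₁ G₂ u a c + (hh u a b * hh u b c + hh u a b * hh u b c) := by
  have h1 : kk u a b = 1 - hh u a b := eq_sub_of_add_eq' (hu.hh_add_kk hab)
  have h2 : kk u b c = 1 - hh u b c := eq_sub_of_add_eq' (hu.hh_add_kk hbc)
  rw [← hu.path hab hbc, h1, h2]
  noncomm_ring

/-- `h + h* = 2 h h*` -/
theorem QI.hh_star {a b : V} (hab : G.Adj a b) :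
    hh u a b + hh u b a = hh u a b * hh u b a + hh u a b * hh u b a := by
  have := hu.path' hab hab.symm
  rw [hu.MM_self, zero_add] at this
  exact this

theorem QI.hh_normal {a b : V} (hab : G.Adj a b) :
    hh u a b * hh u b a = hh u b a * hh u a b := by
  apply freal_two'
  rw [← hu.hh_star hab, ← hu.hh_star hab.symm, add_comm]

end paths

/-- `t = h h*` -/
def tt (u : V → V₁ × V₂ → A) (a b : V) : A := hh u a b * hh u b a

section tt

variable (hu : QI G (G₁ □ G₂) u)
include hu

theorem QI.tt_symm {a b : V} (hab : G.Adj a b) : tt u a b = tt u b a := hu.hh_normal hab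

theorem QI.two_tt {a b : V} (hab : G.Adj a b) : tt u a b + tt u a b = hh u a b + hh u b a :=
  (hu.hh_star hab).symm

theorem QI.one_sub_tt {a b : V} (hab : G.Adj a b) : kk u a b * kk u b a = 1 - tt u a b := by
  have h1 := eq_sub_of_add_eq' (hu.hh_add_kk hab)
  have h2 := eq_sub_of_add_eq' (hu.hh_add_kk hab.symm)
  have h3 := hu.hh_star hab
  rw [h1, h2]
  unfold tt
  have : (1 - hh u a b) * (1 - hh u b a) = 1 - (hh u a b + hh u b a) + hh u a b * hh u b a := by
    noncomm_ring
  rw [this, h3]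
  noncomm_ring

theorem QI.star_tt (a b : V) : star (tt u a b) = tt u a b := by
  unfold tt
  rw [star_mul, hu.star_hh, hu.star_hh]

theorem QI.Rr_mul_tt (a b : V) (r : V₂) :
    Rr u a r * tt u a b = Rr u a r * Rr u b r * Rr u a r := by
  unfold tt
  rw [← mul_assoc, hu.Rr_mul_hh, mul_assoc, hu.Rr_mul_hh, ← mul_assoc]

theorem QI.tt_mul_Rr (a b : V) (r : V₂) :
    tt u a b * Rr u a r = Rr u a r * Rr u b r * Rr u a r := by
  unfold tt
  rw [mul_assoc, hu.hh_mul_Rr, ← mul_assoc, hu.hh_mul_Rr]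

theorem QI.tt_Rr_comm (a b : V) (r : V₂) : tt u a b * Rr u a r = Rr u a r * tt u a b := by
  rw [hu.Rr_mul_tt, hu.tt_mul_Rr]

theorem QI.tt_Cc_comm {a b : V} (hab : G.Adj a b) (s : V₁) :
    tt u a b * Cc u a s = Cc u a s * tt u a b := by
  have := hu.sw.tt_Rr_comm a b s
  unfold tt at this
  rw [hh_sw, hh_sw, hu.one_sub_tt hab, Rr_sw, sub_mul, mul_sub, one_mul, mul_one] at this
  exact (sub_right_injective this)

theorem QI.tt_u_comm {a b : V} (hab : G.Adj a b) (w : V₁ × V₂) :
    tt u a b * u a w = u a w * tt u a b := by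
  obtain ⟨s, r⟩ := w
  rw [← hu.Cc_mul_Rr, ← mul_assoc, hu.tt_Cc_comm hab, mul_assoc, hu.tt_Rr_comm, ← mul_assoc]

end tt

end QSym
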