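import Pool.Agent.Lib.MP_a717c1_al.Half

/-!
# Corners, and the vanishing of all twists
-/

set_option linter.unusedSectionVars false
set_option linter.unusedDecidableInType false

namespace QSym

open Finset SimpleGraph

variable {A : Type*} [Ring A] [StarRing A] [FReal A]

/-- projections -/
structure IsPr (P : A) : Prop where
  star_eq : star P = P
  idem : IsIdempotentElem P

/-- corner ring -/
def Cor {P : A} (hP : IsPr P) : Type _ := hP.idem.Corner

namespace Cor

variable {P : A} (hP : IsPr P)

instance : Ring (Cor hP) := inferInstanceAs (Ring hP.idem.Corner)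

include hP in
theorem mem_iff {x : A} : x ∈ Subsemigroup.corner P ↔ P * x = x ∧ x * P = x :=
  Subsemigroup.mem_corner_iff hP.idem

def mk (x : A) (h : P * x = x ∧ x * P = x) : Cor hP := ⟨x, (mem_iff hP).2 h⟩

variable {hP}

def val (x : Cor hP) : A := Subtype.val (p := fun x => x ∈ Subsemigroup.corner P) x

theorem ext {x y : Cor hP} (h : x.val = y.val) : x = y := Subtype.ext h

theorem left (x : Cor hP) : P * x.val = x.val := ((mem_iff hP).1 (Subtype.property x)).1
theorem right (x : Cor hP) : x.val * P = x.val := ((mem_iff hP).1 (Subtype.property x)).2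

@[simp] theorem val_mk (x : A) (h : P * x = x ∧ x * P = x) : (mk hP x h).val = x := rfl
@[simp] theorem val_mul (x y : Cor hP) : (x * y).val = x.val * y.val := rfl
@[simp] theorem val_add (x y : Cor hP) : (x + y).val = x.val + y.val := rfl
@[simp] theorem val_zero : (0 : Cor hP).val = 0 := rfl
@[simp] theorem val_one : (1 : Cor hP).val = P := rfl

def valHom : Cor hP →+ A where
  toFun := val
  map_zero' := rfl
  map_add' _ _ := rfl

@[simp] theorem valHom_apply (x : Cor hP) : valHom x = x.val := rfl

@[simp] theorem val_sum {ι : Type*} (s : Finset ι) (f : ι → Cor hP) :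
    (∑ i ∈ s, f i).val = ∑ i ∈ s, (f i).val := map_sum (valHom (hP := hP)) f s

instance : Star (Cor hP) where
  star x := mk hP (star x.val) ⟨by
    have := congrArg star x.right
    rwa [star_mul, hP.star_eq] at this, by
    have := congrArg star x.left
    rwa [star_mul, hP.star_eq] at this⟩

@[simp] theorem val_star (x : Cor hP) : (star x).val = star x.val := rfl

instance : StarRing (Cor hP) where
  star_involutive x := ext (by simp)
  star_mul x y := ext (by simp)
  star_add x y := ext (by simp)

instance : FReal (Cor hP) where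
  sum_eq_zero n f h i := by
    apply ext
    have h2 := congrArg val h
    rw [val_sum] at h2
    exact FReal.sum_eq_zero n (fun i => (f i).val) h2 i

theorem one_ne_zero (h : P ≠ 0) : (1 : Cor hP) ≠ 0 := by
  intro h2
  exact h (congrArg val h2)

end Cor

/-- elements commuting with all the entries of `u` -/
def CommU {V W : Type*} (u : V → W → A) (x : A) : Prop := ∀ z w, x * u z w = u z w * x

/-- the matrix `P u` over the corner ring -/
def cu {V W : Type*} {P : A} (hP : IsPr P) (u : V → W → A) (hc : CommU u P) :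
    V → W → Cor hP := fun z w => Cor.mk hP (P * u z w)
      ⟨by rw [← mul_assoc, hP.idem.eq], by rw [hc z w, mul_assoc, hP.idem.eq]⟩

theorem cu_val {V W : Type*} {P : A} (hP : IsPr P) (u : V → W → A) (hc : CommU u P) (z : V) (w : W) :
    (cu hP u hc z w).val = P * u z w := rfl

theorem QI.corner {V W : Type*} [Fintype V] [Fintype W] {G : SimpleGraph V} {H : SimpleGraph W}
    {u : V → W → A} (hu : QI G H u) {P : A} (hP : IsPr P) (hc : CommU u P) :
    QI G H (cu hP u hc) where
  star_eq z w := Cor.ext (by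
    rw [Cor.val_star, cu_val, star_mul, hu.star_eq, hP.star_eq, hc z w])
  mul_self z w := Cor.ext (by
    rw [Cor.val_mul, cu_val, mul_assoc, ← mul_assoc (u z w), ← hc z w, mul_assoc P (u z w),
      hu.mul_self, ← mul_assoc, hP.idem.eq])
  row z := Cor.ext (by
    rw [Cor.val_sum, Cor.val_one]
    simp only [cu_val]
    rw [← Finset.mul_sum, hu.row, mul_one])
  col w := Cor.ext (by
    rw [Cor.val_sum, Cor.val_one]
    simp only [cu_val]
    rw [← Finset.mul_sum, hu.col, mul_one])
  adj z z' w w' h := by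
    apply hu.adj z z' w w'
    intro h2
    apply h
    apply Cor.ext
    rw [Cor.val_mul, cu_val, cu_val, Cor.val_zero, mul_assoc, ← mul_assoc (u z w), ← hc z w,
      mul_assoc P (u z w), h2, mul_zero, mul_zero]

section

variable {V V₁ V₂ : Type*} [Fintype V] [Fintype V₁] [Fintype V₂]
variable {G : SimpleGraph V} {G₁ : SimpleGraph V₁} {G₂ : SimpleGraph V₂}
variable {u : V → V₁ × V₂ → A}

theorem CommU.Rr {x : A} (h : CommU u x) (z : V) (r : V₂) :
    x * Rr u z r = QSym.Rr u z r * x := by
  unfold QSym.Rr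
  rw [Finset.mul_sum, Finset.sum_mul]
  exact Finset.sum_congr rfl fun s _ => h _ _

theorem CommU.Cc {x : A} (h : CommU u x) (z : V) (r : V₁) :
    x * Cc u z r = QSym.Cc u z r * x := by
  unfold QSym.Cc
  rw [Finset.mul_sum, Finset.sum_mul]
  exact Finset.sum_congr rfl fun s _ => h _ _

theorem CommU.hh {x : A} (h : CommU u x) (a b : V) :
    x * hh u a b = QSym.hh u a b * x := by
  unfold QSym.hh
  rw [Finset.mul_sum, Finset.sum_mul]
  refine Finset.sum_congr rfl fun s _ => ?_
  rw [← mul_assoc, h.Rr, mul_assoc, h.Rr, mul_assoc]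

theorem CommU.tt {x : A} (h : CommU u x) (a b : V) :
    x * tt u a b = QSym.tt u a b * x := by
  unfold QSym.tt
  rw [← mul_assoc, h.hh, mul_assoc, h.hh, mul_assoc]

theorem cu_Rr {P : A} (hP : IsPr P) (hc : CommU u P) (z : V) (r : V₂) :
    (Rr (cu hP u hc) z r).val = P * Rr u z r := by
  unfold QSym.Rr
  rw [Cor.val_sum, Finset.mul_sum]
  rfl

theorem cu_Cc {P : A} (hP : IsPr P) (hc : CommU u P) (z : V) (r : V₁) :
    (Cc (cu hP u hc) z r).val = P * Cc u z r := by
  unfold QSym.Cc
  rw [Cor.val_sum, Finset.mul_sum]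
  rfl

theorem cu_hh {P : A} (hP : IsPr P) (hc : CommU u P) (a b : V) :
    (hh (cu hP u hc) a b).val = P * hh u a b := by
  unfold QSym.hh
  rw [Cor.val_sum, Finset.mul_sum]
  refine Finset.sum_congr rfl fun r _ => ?_
  rw [Cor.val_mul, cu_Rr, cu_Rr, mul_assoc, ← mul_assoc (QSym.Rr u a r), ← hc.Rr,
    mul_assoc P (QSym.Rr u a r), ← mul_assoc, hP.idem.eq]

theorem cu_tt {P : A} (hP : IsPr P) (hc : CommU u P) (a b : V) :
    (tt (cu hP u hc) a b).val = P * tt u a b := by
  unfold QSym.tt
  rw [Cor.val_mul, cu_hh, cu_hh, mul_assoc, ← mul_assoc (QSym.hh u a b), ← hc.hh,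
    mul_assoc P (QSym.hh u a b), ← mul_assoc, hP.idem.eq]

/-- central projections (with respect to `u`) -/
structure CP (u : V → V₁ × V₂ → A) (P : A) : Prop where
  pr : IsPr P
  comm : CommU u P

theorem CP.one : CP u (1 : A) := ⟨⟨star_one _, by simp [IsIdempotentElem]⟩, fun z w => by simp⟩

theorem CP.mul {P Q : A} (hP : CP u P) (hQ : CP u Q) (hPQ : P * Q = Q * P) : CP u (P * Q) := by
  refine ⟨⟨?_, ?_⟩, ?_⟩
  · rw [star_mul, hP.pr.star_eq, hQ.pr.star_eq, hPQ]
  · have h1 := hP.pr.idem.eq
    have h2 := hQ.pr.idem.eq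
    calc P * Q * (P * Q) = P * (Q * P) * Q := by noncomm_ring
      _ = (P * P) * (Q * Q) := by rw [← hPQ]; noncomm_ring
      _ = P * Q := by rw [h1, h2]
  · intro z w
    rw [mul_assoc, hQ.comm, ← mul_assoc, hP.comm, mul_assoc]

variable (hu : QI G (G₁ □ G₂) u)
include hu

/-- the cubic equation of `t` -/
theorem QI.tt_cubic (hG : G.Connected) (hC : NoRotCol G) (hB : NoK2 G) {a b : V}
    (hab : G.Adj a b) :
    (tt u a b + tt u a b - 1) * (tt u a b * tt u a b - tt u a b) = 0 := by
  by_cases h : tt u a b * tt u a b = tt u a b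
  · rw [h, sub_self, mul_zero]
  · obtain ⟨D₀, ρ, hD, hρ, hs, he⟩ := hu.tw_exists_rot hG hC hB ((hu.tw_iff hab).2 h)
    have h1 := hu.rot_half hG hC hD hρ hs a
    rw [he] at h1
    have h2 := hu.two_tt hab
    have h3 := hu.hh_normal hab
    have e1 : (hh u a b - hh u b a) * (hh u a b - hh u b a) =
        (4 : ℕ) • (tt u a b * tt u a b - tt u a b) := by
      have : (hh u a b - hh u b a) * (hh u a b - hh u b a) =
        (hh u a b + hh u b a) * (hh u a b + hh u b a)
          - (hh u a b * hh u b a + hh u a b * hh u b a)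
          - (hh u b a * hh u a b + hh u b a * hh u a b) := by noncomm_ring
      rw [this, ← h2, ← h3]
      change _ - (tt u a b + tt u a b) - (tt u a b + tt u a b) = _
      noncomm_ring
    have e2 : (4 : ℕ) • ((tt u a b + tt u a b - 1) * (tt u a b * tt u a b - tt u a b)) = 0 := by
      rw [← mul_smul_comm, ← e1, ← mul_assoc, h1, zero_mul]
    exact freal_nsmul (by norm_num) e2

/-- Given a central projection, a smaller one deciding `t` on a given edge. -/
theorem QI.decide_one (hG : G.Connected) (hC : NoRotCol G) (hB : NoK2 G) {a b : V}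
    (hab : G.Adj a b) {P : A} (hP : CP u P) (hP0 : P ≠ 0) :
    ∃ P', CP u P' ∧ P' ≠ 0 ∧ P * P' = P' ∧
      (P' * tt u a b = 0 ∨ P' * tt u a b = P' ∨ P' * tt u a b + P' * tt u a b = P') := by
  have h3 := hu.tt_cubic hG hC hB hab
  have hcm : CommU u (tt u a b) := hu.tt_central hG hab
  have hPt : P * tt u a b = tt u a b * P := hP.comm.tt a b
  have hst := hu.star_tt a b
  set t := tt u a b
  have hP2 := hP.pr.idem.eq
  -- t³ relation : 2t³ = 3t² - t
  have t3 : t * t * t + t * t * t = t * t + t * t + t * t - t := by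
    have : (t + t - 1) * (t * t - t) = (t * t * t + t * t * t) - (t * t + t * t + t * t - t) := by
      noncomm_ring
    rw [this] at h3
    exact sub_eq_zero.1 h3
  have comm_of : ∀ x : A, (∀ y, y * t = t * y → y * x = x * y) → CommU u x ∧ P * x = x * P := by
    intro x hx
    refine ⟨fun z w => ?_, hx P hPt⟩
    rw [hx (u z w) (hcm z w).symm]
  -- the three projections
  have p0 : ∀ y, y * t = t * y → y * (1 - t - t - t + t * t + t * t) =
      (1 - t - t - t + t * t + t * t) * y := by
    intro y hy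
    have : y * (1 - t - t - t + t * t + t * t) = y - y * t - y * t - y * t + y * t * t + y * t * t := by
      noncomm_ring
    have h' : y * t * t = t * t * y := by rw [hy, mul_assoc, hy, mul_assoc]
    rw [this, h', hy]; noncomm_ring
  have p1 : ∀ y, y * t = t * y → y * (t * t + t * t - t) = (t * t + t * t - t) * y := by
    intro y hy
    have : y * (t * t + t * t - t) = y * t * t + y * t * t - y * t := by noncomm_ring
    have h' : y * t * t = t * t * y := by rw [hy, mul_assoc, hy, mul_assoc]
    rw [this, h', hy]; noncomm_ring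
  have p2 : ∀ y, y * t = t * y → y * ((4 : ℕ) • (t - t * t)) = ((4 : ℕ) • (t - t * t)) * y := by
    intro y hy
    have : y * ((4 : ℕ) • (t - t * t)) = (4 : ℕ) • (y * t - y * t * t) := by noncomm_ring
    have h' : y * t * t = t * t * y := by rw [hy, mul_assoc, hy, mul_assoc]
    rw [this, h', hy]; noncomm_ring
  have q0 : CP u (1 - t - t - t + t * t + t * t) := by
    refine ⟨⟨?_, ?_⟩, (comm_of _ p0).1⟩
    · simp only [star_add, star_sub, star_mul, hst, star_one]
    · change _ * _ = _
      rw [← sub_eq_zero]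
      calc _ = (t + t - 1 - 1 - 1) * ((t + t - 1) * (t * t - t)) := by noncomm_ring
        _ = 0 := by rw [h3, mul_zero]
  have q1 : CP u (t * t + t * t - t) := by
    refine ⟨⟨?_, ?_⟩, (comm_of _ p1).1⟩
    · simp only [star_add, star_sub, star_mul, hst]
    · change _ * _ = _
      rw [← sub_eq_zero]
      calc _ = (t + t + 1) * ((t + t - 1) * (t * t - t)) := by noncomm_ring
        _ = 0 := by rw [h3, mul_zero]
  have q2 : CP u ((4 : ℕ) • (t - t * t)) := by
    refine ⟨⟨?_, ?_⟩, (comm_of _ p2).1⟩
    · simp only [star_nsmul, star_sub, star_mul, hst]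
    · change _ * _ = _
      rw [← sub_eq_zero]
      calc _ = ((8 : ℕ) • t - (4 : ℕ) • 1) * ((t + t - 1) * (t * t - t)) := by noncomm_ring
        _ = 0 := by rw [h3, mul_zero]
  have sum : (1 - t - t - t + t * t + t * t) + (t * t + t * t - t) + ((4 : ℕ) • (t - t * t)) = 1 := by
    noncomm_ring
  have hsplit : P * (1 - t - t - t + t * t + t * t) + P * (t * t + t * t - t)
      + P * ((4 : ℕ) • (t - t * t)) = P := by
    rw [← mul_add, ← mul_add, sum, mul_one]
  have absorb : ∀ x, P * (P * x) = P * x := fun x => by rw [← mul_assoc, hP2]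
  by_cases c0 : P * (1 - t - t - t + t * t + t * t) = 0
  · by_cases c1 : P * (t * t + t * t - t) = 0
    · have c2 : P * ((4 : ℕ) • (t - t * t)) ≠ 0 := by
        intro c2
        rw [c0, c1, c2] at hsplit
        apply hP0; rw [← hsplit]; simp
      refine ⟨_, hP.mul q2 (comm_of _ p2).2, c2, absorb _, Or.inr (Or.inr ?_)⟩
      rw [mul_assoc, ← mul_add]
      congr 1
      rw [← sub_eq_zero]
      calc _ = (-(4 : ℤ)) • ((t + t - 1) * (t * t - t)) := by noncomm_ring
        _ = 0 := by rw [h3, smul_zero]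
    · refine ⟨_, hP.mul q1 (comm_of _ p1).2, c1, absorb _, Or.inr (Or.inl ?_)⟩
      rw [mul_assoc]
      congr 1
      rw [← sub_eq_zero]
      calc _ = ((t + t - 1) * (t * t - t)) := by noncomm_ring
        _ = 0 := h3
  · refine ⟨_, hP.mul q0 (comm_of _ p0).2, c0, absorb _, Or.inl ?_⟩
    rw [mul_assoc]
    have : (1 - t - t - t + t * t + t * t) * t = 0 := by
      have : (1 - t - t - t + t * t + t * t) * t =
        (t * t * t + t * t * t) - (t * t + t * t + t * t - t) := by noncomm_ring
      rw [this, t3, sub_self]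
    rw [this, mul_zero]

/-- all values of `t` can be decided simultaneously -/
theorem QI.decide_all (hG : G.Connected) (hC : NoRotCol G) (hB : NoK2 G) {P : A} (hP : CP u P)
    (hP0 : P ≠ 0) (s : Finset (V × V)) :
    ∃ P', CP u P' ∧ P' ≠ 0 ∧ P * P' = P' ∧ ∀ e ∈ s, G.Adj e.1 e.2 →
      (P' * tt u e.1 e.2 = 0 ∨ P' * tt u e.1 e.2 = P' ∨
        P' * tt u e.1 e.2 + P' * tt u e.1 e.2 = P') := by
  classical
  induction s using Finset.induction_on with
  | empty => exact ⟨P, hP, hP0, hP.pr.idem.eq, by simp⟩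
  | insert e s _ ih =>
    obtain ⟨P', h1, h2, h3, h4⟩ := ih
    by_cases he : G.Adj e.1 e.2
    · obtain ⟨P'', k1, k2, k3, k4⟩ := hu.decide_one hG hC hB he h1 h2
      have k5 : P'' * P' = P'' := by
        have := congrArg star k3
        rwa [star_mul, k1.pr.star_eq, h1.pr.star_eq] at this
      refine ⟨P'', k1, k2, ?_, ?_⟩
      · rw [← k3, ← mul_assoc, h3]
      · intro f hf hadj
        rcases Finset.mem_insert.1 hf with rfl | hf
        · exact k4
        · rcases h4 f hf hadj with h | h | h
          · left; rw [← k5, mul_assoc, h, mul_zero]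
          · right; left; rw [← k5, mul_assoc, h]
          · right; right
            nth_rw 1 [← k5]
            nth_rw 2 [← k5]
            rw [mul_assoc, ← mul_add, h, k5]
    · refine ⟨P', h1, h2, h3, ?_⟩
      intro f hf hadj
      rcases Finset.mem_insert.1 hf with rfl | hf
      · exact absurd hadj he
      · exact h4 f hf hadj

/-- **Theorem N**: there are no twisted edges at all. -/
theorem QI.hh_symm (hG : G.Connected) (hC : NoRotCol G) (hB : NoK2 G) {a b : V}
    (hab : G.Adj a b) : hh u a b = hh u b a := by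
  by_contra hne
  have htw := (hu.tw_iff hab).1 ⟨hab, hne⟩
  have h3 := hu.tt_cubic hG hC hB hab
  have hcm : CommU u (tt u a b) := hu.tt_central hG hab
  have hst := hu.star_tt a b
  obtain ⟨P, hP, hP0, hPt⟩ : ∃ P, CP u P ∧ P ≠ 0 ∧ P * tt u a b + P * tt u a b = P := by
    set t := tt u a b
    refine ⟨(4 : ℕ) • (t - t * t), ⟨⟨?_, ?_⟩, ?_⟩, ?_, ?_⟩
    · simp only [star_nsmul, star_sub, star_mul, hst]
    · change _ * _ = _
      rw [← sub_eq_zero]
      calc _ = ((8 : ℕ) • t - (4 : ℕ) • 1) * ((t + t - 1) * (t * t - t)) := by noncomm_ring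
        _ = 0 := by rw [h3, mul_zero]
    · intro z w
      have h' : t * t * u z w = u z w * (t * t) := by
        rw [mul_assoc, hcm, ← mul_assoc, hcm, mul_assoc]
      rw [smul_mul_assoc, mul_smul_comm, sub_mul, mul_sub, h', hcm]
    · intro h
      have := freal_nsmul (by norm_num) h
      exact htw (sub_eq_zero.1 this).symm
    · rw [← sub_eq_zero]
      calc _ = (-(4 : ℤ)) • ((t + t - 1) * (t * t - t)) := by noncomm_ring
        _ = 0 := by rw [h3, smul_zero]
  obtain ⟨P', h1, h2, h4, h5⟩ := hu.decide_all hG hC hB hP hP0 Finset.univ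
  have h6 := hu.corner h1.pr h1.comm
  have k5 : P' * P = P' := by
    have := congrArg star h4
    rwa [star_mul, h1.pr.star_eq, hP.pr.star_eq] at this
  refine h6.no_half hG hC hB (Cor.one_ne_zero h2) ?_ hab ?_
  · intro x y hxy
    rcases h5 (x, y) (Finset.mem_univ _) hxy with h | h | h
    · left; apply Cor.ext; rw [cu_tt]; exact h
    · right; left; apply Cor.ext; rw [cu_tt]; exact h
    · right; right; apply Cor.ext; rw [Cor.val_add, cu_tt]; exact h
  · apply Cor.ext
    rw [Cor.val_add, cu_tt, Cor.val_one]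
    nth_rw 1 [← k5]
    nth_rw 2 [← k5]
    rw [mul_assoc, ← mul_add, hPt, k5]

theorem QI.hh_idem (hG : G.Connected) (hC : NoRotCol G) (hB : NoK2 G) {a b : V}
    (hab : G.Adj a b) : CP u (hh u a b) ∧ tt u a b = hh u a b := by
  have h1 := hu.hh_symm hG hC hB hab
  obtain ⟨h2, h3⟩ := hu.idem_of_hh_symm hab h1
  refine ⟨⟨⟨?_, ?_⟩, ?_⟩, h2⟩
  · rw [hu.star_hh, h1]
  · rw [h2] at h3; exact h3
  · rw [← h2]; exact hu.tt_central hG hab

end

end QSym
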