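import Pool.Agent.Lib.MP_a717c1_al.Core

/-!
# The element `D` of a square, and centrality of `t`
-/

set_option linter.unusedSectionVars false
set_option linter.unusedDecidableInType false

namespace QSym

open Finset SimpleGraph

variable {V V₁ V₂ : Type*} [Fintype V] [Fintype V₁] [Fintype V₂]
variable {A : Type*} [Ring A] [StarRing A] [FReal A]
variable {G : SimpleGraph V} {G₁ : SimpleGraph V₁} {G₂ : SimpleGraph V₂}
variable {u : V → V₁ × V₂ → A}

/-- `a, c` have exactly the two common neighbours `b, d`. -/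
structure Dia (G : SimpleGraph V) (a b c d : V) : Prop where
  ac : a ≠ c
  bd : b ≠ d
  iff : ∀ m, (G.Adj a m ∧ G.Adj m c) ↔ (m = b ∨ m = d)

namespace Dia
variable {a b c d : V}
theorem ab (h : Dia G a b c d) : G.Adj a b := ((h.iff b).2 (Or.inl rfl)).1
theorem bc (h : Dia G a b c d) : G.Adj b c := ((h.iff b).2 (Or.inl rfl)).2
theorem ad (h : Dia G a b c d) : G.Adj a d := ((h.iff d).2 (Or.inr rfl)).1
theorem dc (h : Dia G a b c d) : G.Adj d c := ((h.iff d).2 (Or.inr rfl)).2
theorem flip (h : Dia G a b c d) : Dia G a d c b :=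
  ⟨h.ac, h.bd.symm, fun m => by rw [h.iff, or_comm]⟩
theorem rev (h : Dia G a b c d) : Dia G c b a d :=
  ⟨h.ac.symm, h.bd, fun m => by rw [← h.iff, G.adj_comm c m, G.adj_comm m a, and_comm]⟩
end Dia

theorem dia_of_cn [DecidableEq V] {a c b : V} (hac : a ≠ c) (h : cn G a c = 2)
    (hab : G.Adj a b) (hbc : G.Adj b c) : ∃ d, Dia G a b c d := by
  classical
  have h1 : cn G a c = (Finset.univ.filter (fun m => G.Adj a m ∧ G.Adj m c)).card := by
    unfold cn ad
    rw [Finset.card_filter]
    refine Finset.sum_congr rfl fun m _ => ?_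
    by_cases h1 : G.Adj a m <;> by_cases h2 : G.Adj m c <;> simp [h1, h2]
  rw [h1, Finset.card_eq_two] at h
  obtain ⟨x, y, hxy, hs⟩ := h
  have hm : ∀ m, (G.Adj a m ∧ G.Adj m c) ↔ (m = x ∨ m = y) := by
    intro m
    have := Finset.ext_iff.1 hs m
    simpa using this
  rcases (hm b).1 ⟨hab, hbc⟩ with rfl | rfl
  · exact ⟨y, hac, hxy, hm⟩
  · exact ⟨x, hac, hxy.symm, fun m => by rw [hm, or_comm]⟩

theorem cn_of_dia {a b c d : V} (h : Dia G a b c d) : cn G a c = 2 := by
  classical
  have h1 : cn G a c = (Finset.univ.filter (fun m => G.Adj a m ∧ G.Adj m c)).card := by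
    unfold cn ad
    rw [Finset.card_filter]
    refine Finset.sum_congr rfl fun m _ => ?_
    by_cases h1 : G.Adj a m <;> by_cases h2 : G.Adj m c <;> simp [h1, h2]
  rw [h1, Finset.card_eq_two]
  refine ⟨b, d, h.bd, ?_⟩
  ext m
  simp [h.iff m]

/-- common neighbours of a mixed pair in a Cartesian product -/
theorem cn_mixed {w y : V₁ × V₂} (h : G₁.Adj w.1 y.1 ∧ G₂.Adj w.2 y.2) :
    cn (G₁ □ G₂) w y = 2 ∧ ¬ (G₁ □ G₂).Adj w y := by
  constructor
  · apply cn_of_dia (b := (y.1, w.2)) (d := (w.1, y.2))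
    refine ⟨?_, ?_, ?_⟩
    · intro h'; exact h.1.ne (congrArg Prod.fst h')
    · intro h'; exact h.1.ne (congrArg Prod.fst h').symm
    · intro m
      simp only [boxProd_adj]
      constructor
      · rintro ⟨h1 | h1, h2 | h2⟩
        · exact absurd (h1.2.trans h2.2) h.2.ne
        · left; exact Prod.ext h2.2 h1.2.symm
        · right; exact Prod.ext h1.2.symm h2.2
        · exact absurd (h1.2.trans h2.2) h.1.ne
      · rintro (rfl | rfl)
        · exact ⟨Or.inl ⟨h.1, rfl⟩, Or.inr ⟨h.2, rfl⟩⟩
        · exact ⟨Or.inr ⟨h.2, rfl⟩, Or.inl ⟨h.1, rfl⟩⟩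
  · rw [boxProd_adj]
    rintro (h1 | h1)
    · exact h.2.ne h1.2
    · exact h.1.ne h1.2

section

variable (hu : QI G (G₁ □ G₂) u)
include hu

theorem QI.of_MM_ne {a c : V} (h : MM G₁ G₂ u a c ≠ 0) :
    ∃ w y, (G₁.Adj w.1 y.1 ∧ G₂.Adj w.2 y.2) ∧ u a w * u c y ≠ 0 := by
  classical
  by_contra hne
  push Not at hne
  apply h
  unfold MM
  refine Finset.sum_eq_zero fun w _ => Finset.sum_eq_zero fun y _ => ?_
  split_ifs with h1
  · exact hne w y h1
  · rfl

theorem QI.cn_of_MM {a c : V} (h : MM G₁ G₂ u a c ≠ 0) : cn G a c = 2 ∧ ¬ G.Adj a c := by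
  obtain ⟨w, y, hM, hne⟩ := hu.of_MM_ne h
  obtain ⟨h1, h2⟩ := cn_mixed hM
  exact ⟨by rw [compat_cn hu _ _ _ _ hne, h1], fun h3 => h2 ((hu.adj _ _ _ _ hne).1 h3)⟩

/-- If the pair `a, c` is not mixed then the two edges of the path `a, b, c` have the same `h`
seen from `b`. -/
theorem QI.hh_eq_of_MM {a b c : V} (hab : G.Adj a b) (hbc : G.Adj b c)
    (hM : MM G₁ G₂ u a c = 0) : hh u b c = hh u b a := by
  have h1 := hu.path' hab hbc
  rw [hM, zero_add] at h1
  have h2 := hu.hh_star hab
  have h3 := hu.hh_star hab.symm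
  have h4 := hu.hh_normal hab
  -- (2h-1)(h' - h*) + same = 0, multiply by (2h*-1)
  set h := hh u a b
  set k := hh u b a
  set l := hh u b c
  have e1 : (h + h - 1) * (l - k) = 0 := by
    have : (h + h - 1) * (l - k) = (h * l + h * l) - (h * k + h * k) - l + k := by noncomm_ring
    rw [this, ← h1, ← h2]; abel
  have e2 : (k + k - 1) * (h + h - 1) = 1 := by
    have : (k + k - 1) * (h + h - 1) = (k * h + k * h) + (k * h + k * h) - (k + h) - (k + h) + 1 := by
      noncomm_ring
    rw [this, ← h3]; abel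
  have e3 : l - k = 0 := by
    calc l - k = ((k + k - 1) * (h + h - 1)) * (l - k) := by rw [e2, one_mul]
      _ = 0 := by rw [mul_assoc, e1, mul_zero]
  exact sub_eq_zero.1 e3

/-- Two different edges at `b` with the same `h`: then `t` is idempotent. -/
theorem QI.tt_idem {a b c : V} (hba : G.Adj b a) (hbc : G.Adj b c) (hac : a ≠ c)
    (he : hh u b a = hh u b c) : tt u b a * tt u b a = tt u b a := by
  classical
  have hR : ∀ r, tt u b a * Rr u a r = tt u b a * Rr u c r := by
    intro r
    rw [hu.tt_symm hba]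
    unfold tt
    have e : hh u b a * Rr u c r = Rr u b r * Rr u a r := by
      rw [he, hu.hh_mul_Rr b c, ← hu.Rr_mul_hh b c, ← he, hu.Rr_mul_hh]
    rw [mul_assoc, mul_assoc, hu.hh_mul_Rr b a, e]
  have hC : ∀ s, (1 - tt u b a) * Cc u a s = (1 - tt u b a) * Cc u c s := by
    intro s
    rw [hu.tt_symm hba, ← hu.one_sub_tt hba.symm]
    have hk : kk u b a = kk u b c := by
      have h1 : kk u b a = 1 - hh u b a := eq_sub_of_add_eq' (hu.hh_add_kk hba)
      have h2 : kk u b c = 1 - hh u b c := eq_sub_of_add_eq' (hu.hh_add_kk hbc)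
      rw [h1, h2, he]
    have e : kk u b a * Cc u c s = Cc u b s * Cc u a s := by
      rw [hk, hu.kk_mul_Cc b c, ← hu.Cc_mul_kk b c, ← hk, hu.Cc_mul_kk]
    rw [mul_assoc, mul_assoc, hu.kk_mul_Cc b a, e]
  have ht : tt u b a = tt u b c := by
    unfold tt
    rw [← hu.star_hh b a, ← hu.star_hh b c, he]
  have key : ∀ w, tt u b a * (1 - tt u b a) * u a w = tt u b a * (1 - tt u b a) * u c w := by
    rintro ⟨s, r⟩
    have c1 : (1 - tt u b a) * Cc u a s = Cc u a s * (1 - tt u b a) := by
      rw [hu.tt_symm hba, sub_mul, mul_sub, hu.tt_Cc_comm hba.symm, one_mul, mul_one]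
    have c2 : (1 - tt u b a) * Cc u c s = Cc u c s * (1 - tt u b a) := by
      rw [ht, hu.tt_symm hbc, sub_mul, mul_sub, hu.tt_Cc_comm hbc.symm, one_mul, mul_one]
    have c3 : tt u b a * Cc u a s = Cc u a s * tt u b a := by
      rw [hu.tt_symm hba, hu.tt_Cc_comm hba.symm]
    have c4 : tt u b a * Cc u c s = Cc u c s * tt u b a := by
      rw [ht, hu.tt_symm hbc, hu.tt_Cc_comm hbc.symm]
    have c5 : tt u b a * (1 - tt u b a) = (1 - tt u b a) * tt u b a := by noncomm_ring
    calc tt u b a * (1 - tt u b a) * u a (s, r)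
        = tt u b a * ((1 - tt u b a) * Cc u a s) * Rr u a r := by
          rw [← hu.Cc_mul_Rr]; noncomm_ring
      _ = tt u b a * ((1 - tt u b a) * Cc u c s) * Rr u a r := by rw [hC]
      _ = (1 - tt u b a) * Cc u c s * (tt u b a * Rr u a r) := by
          rw [← mul_assoc (tt u b a), c5, mul_assoc (1 - tt u b a), c4]; noncomm_ring
      _ = (1 - tt u b a) * Cc u c s * (tt u b a * Rr u c r) := by rw [hR]
      _ = (1 - tt u b a) * (Cc u c s * tt u b a) * Rr u c r := by noncomm_ring
      _ = (1 - tt u b a) * (tt u b a * Cc u c s) * Rr u c r := by rw [c4]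
      _ = tt u b a * (1 - tt u b a) * u c (s, r) := by
          rw [← hu.Cc_mul_Rr, c5]; noncomm_ring
  have h0 : tt u b a * (1 - tt u b a) = 0 := by
    calc tt u b a * (1 - tt u b a)
        = ∑ w, tt u b a * (1 - tt u b a) * u a w * u a w := by
          simp only [mul_assoc _ (u a _) (u a _), hu.mul_self]
          rw [← Finset.mul_sum, hu.row, mul_one]
      _ = ∑ w, tt u b a * (1 - tt u b a) * u c w * u a w :=
          Finset.sum_congr rfl fun w _ => by rw [key]
      _ = 0 := by
          refine Finset.sum_eq_zero fun w _ => ?_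
          rw [mul_assoc, hu.col_orth hac.symm, mul_zero]
  have : tt u b a - tt u b a * tt u b a = 0 := by rw [← h0]; noncomm_ring
  exact (sub_eq_zero.1 this).symm

/-- `t² = t` iff `h` is self-adjoint -/
theorem QI.hh_symm_of_idem {a b : V} (hab : G.Adj a b) (h : tt u a b * tt u a b = tt u a b) :
    hh u a b = hh u b a := by
  have h1 := hu.two_tt hab
  have h2 := hu.hh_normal hab
  have h3 : star (hh u a b - hh u b a) = -(hh u a b - hh u b a) := by
    rw [star_sub, hu.star_hh, hu.star_hh]; abel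
  have h4 : (hh u a b - hh u b a) * (hh u a b - hh u b a) = 0 := by
    have e1 : (hh u a b - hh u b a) * (hh u a b - hh u b a) =
        (hh u a b + hh u b a) * (hh u a b + hh u b a)
          - (hh u a b * hh u b a + hh u a b * hh u b a) - (hh u b a * hh u a b + hh u b a * hh u a b) := by
      noncomm_ring
    rw [e1, ← h1, ← h2]
    change (tt u a b + tt u a b) * (tt u a b + tt u a b) - (tt u a b + tt u a b)
      - (tt u a b + tt u a b) = 0
    have : (tt u a b + tt u a b) * (tt u a b + tt u a b) = tt u a b * tt u a b + tt u a b * tt u a b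
      + (tt u a b * tt u a b + tt u a b * tt u a b) := by noncomm_ring
    rw [this, h]; abel
  have h5 : hh u a b - hh u b a = 0 := by
    apply freal_one
    rw [h3, neg_mul, h4, neg_zero]
  exact sub_eq_zero.1 h5

theorem QI.idem_of_hh_symm {a b : V} (hab : G.Adj a b) (h : hh u a b = hh u b a) :
    tt u a b = hh u a b ∧ tt u a b * tt u a b = tt u a b := by
  have h1 := hu.hh_star hab
  rw [← h] at h1
  have h2 := freal_two' h1
  have h3 : tt u a b = hh u a b := by
    unfold tt; rw [← h]; exact h2.symm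
  refine ⟨h3, ?_⟩
  rw [h3]; exact h2.symm

end

/-- The element `D` of the path `a, b, c`. -/
def Dd (u : V → V₁ × V₂ → A) (a b c : V) : A := ∑ w, u a w * Rr u b w.2 * u c w

section dd

variable (hu : QI G (G₁ □ G₂) u)
include hu

theorem QI.star_Dd (a b c : V) : star (Dd u a b c) = Dd u c b a := by
  unfold Dd
  rw [star_sum]
  refine Finset.sum_congr rfl fun w _ => ?_
  rw [star_mul, star_mul, hu.star_eq, hu.star_eq, hu.star_Rr, mul_assoc]

theorem QI.u_mul_Dd (a b c : V) (w : V₁ × V₂) : u a w * Dd u a b c = Dd u a b c * u c w := by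
  classical
  unfold Dd
  rw [Finset.mul_sum, Finset.sum_mul, Finset.sum_eq_single w, Finset.sum_eq_single w]
  · rw [mul_assoc _ (u c w), hu.mul_self, ← mul_assoc, ← mul_assoc, hu.mul_self]
  · intro y _ hy
    rw [mul_assoc, hu.row_orth hy, mul_zero]
  · simp
  · intro y _ hy
    rw [← mul_assoc, ← mul_assoc, hu.row_orth hy.symm, zero_mul, zero_mul]
  · simp

theorem QI.Dd_flip {a b c d : V} (h : Dia G a b c d) : Dd u a b c + Dd u a d c = 0 := by
  classical
  unfold Dd
  rw [← Finset.sum_add_distrib]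
  refine Finset.sum_eq_zero fun w _ => ?_
  unfold Rr
  rw [Finset.mul_sum, Finset.sum_mul, Finset.mul_sum, Finset.sum_mul, ← Finset.sum_add_distrib]
  refine Finset.sum_eq_zero fun s _ => ?_
  by_cases hw : (G₁ □ G₂).Adj w (s, w.2)
  · have h1 : ∑ m, u a w * u m (s, w.2) * u c w = 0 := by
      rw [hu.sum_mid']; exact hu.col_orth h.ac
    rw [← Finset.sum_pair (f := fun m => u a w * u m (s, w.2) * u c w) h.bd, ← h1]
    apply Finset.sum_subset (Finset.subset_univ _)
    intro m _ hm
    apply hu.triple_zero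
    simp only [Finset.mem_insert, Finset.mem_singleton, ← h.iff m] at hm
    by_cases h2 : G.Adj a m
    · right
      exact hu.zero_of_not_adj (fun h3 => hm ⟨h2, h3⟩) hw.symm
    · left
      exact hu.zero_of_not_adj h2 hw
  · rw [hu.triple_zero (Or.inl (hu.zero_of_adj h.ab hw)),
      hu.triple_zero (Or.inl (hu.zero_of_adj h.ad hw)), add_zero]

theorem QI.Dd_flip' {a b c d : V} (h : Dia G a b c d) : Dd u a d c = - Dd u a b c :=
  eq_neg_of_add_eq_zero_right (hu.Dd_flip h)

/-- triple sum expansion -/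
theorem QI.hh_eq3 [DecidableEq V₂] (a b c : V) :
    hh u a b = ∑ w, ∑ y, ∑ x, if w.2 = x.2 then u a w * u b x * u c y else 0 := by
  rw [hu.hh_eq]
  refine Finset.sum_congr rfl fun w _ => ?_
  rw [Finset.sum_comm]
  refine Finset.sum_congr rfl fun x _ => ?_
  split_ifs with h
  · rw [← Finset.mul_sum, hu.row, mul_one]
  · simp

theorem QI.hh_eq3' [DecidableEq V₂] (a d c : V) :
    hh u d c = ∑ w, ∑ y, ∑ x, if x.2 = y.2 then u a w * u d x * u c y else 0 := by
  rw [hu.hh_eq]
  have : ∀ w : V₁ × V₂, ∑ y, ∑ x, (if x.2 = y.2 then u a w * u d x * u c y else 0) =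
      ∑ x, ∑ y, u a w * (if x.2 = y.2 then u d x * u c y else 0) := by
    intro w
    rw [Finset.sum_comm]
    refine Finset.sum_congr rfl fun x _ => Finset.sum_congr rfl fun y _ => ?_
    split_ifs <;> simp [mul_assoc]
  simp only [this, ← Finset.mul_sum]
  rw [← Finset.sum_mul, hu.row, one_mul]

theorem QI.square_aux [DecidableEq V₁] [DecidableEq V₂] {a b c d : V} (h : Dia G a b c d)
    {w y : V₁ × V₂} (hwy : w ≠ y) :
    (∑ x, if w.2 = x.2 then u a w * u b x * u c y else 0) =
      ∑ x, if x.2 = y.2 then u a w * u d x * u c y else 0 := by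
  have : DecidableEq V := Classical.decEq V
  have hz : ∀ m, G.Adj a m → G.Adj m c → ∀ x,
      ¬ ((G₁ □ G₂).Adj w x ∧ (G₁ □ G₂).Adj x y) → u a w * u m x * u c y = 0 := by
    intro m h1 h2 x hx
    apply hu.triple_zero
    by_cases h3 : (G₁ □ G₂).Adj w x
    · right
      exact hu.zero_of_adj h2 (fun h4 => hx ⟨h3, h4⟩)
    · left
      exact hu.zero_of_adj h1 h3
  have key : ∀ x, (G₁ □ G₂).Adj w x → (G₁ □ G₂).Adj x y →
      u a w * u b x * u c y + u a w * u d x * u c y = u a w * u c y := by
    intro x h1 h2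
    rw [← hu.sum_mid' a c w x y, ← Finset.sum_pair (f := fun m => u a w * u m x * u c y) h.bd]
    apply Finset.sum_subset (Finset.subset_univ _)
    intro m _ hm
    apply hu.triple_zero
    simp only [Finset.mem_insert, Finset.mem_singleton, ← h.iff m] at hm
    by_cases h3 : G.Adj a m
    · right
      exact hu.zero_of_not_adj (fun h4 => hm ⟨h3, h4⟩) h2
    · left
      exact hu.zero_of_not_adj h3 h1
  by_cases e2 : w.2 = y.2
  · -- same row
    have e1 : w.1 ≠ y.1 := fun e1 => hwy (Prod.ext e1 e2)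
    have : ∀ m, G.Adj a m → G.Adj m c →
        (∑ x, if w.2 = x.2 then u a w * u m x * u c y else 0) = u a w * u c y := by
      intro m h1 h2
      rw [← hu.sum_mid a m c w y]
      refine Finset.sum_congr rfl fun x _ => ?_
      split_ifs with h3
      · rfl
      · symm
        apply hz m h1 h2
        rintro ⟨h4, h5⟩
        rw [boxProd_adj] at h4 h5
        rcases h4 with ⟨h4, h4'⟩ | ⟨h4, h4'⟩
        · exact h3 h4'
        · rcases h5 with ⟨h5, h5'⟩ | ⟨h5, h5'⟩
          · exact h3 (e2.trans h5'.symm)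
          · exact e1 (h4'.trans h5')
    rw [this b h.ab h.bc, ← this d h.ad h.dc]
    refine Finset.sum_congr rfl fun x _ => ?_
    simp only [e2, eq_comm]
  · -- different rows
    have L : (∑ x, if w.2 = x.2 then u a w * u b x * u c y else 0) =
        u a w * u b (y.1, w.2) * u c y := by
      rw [Finset.sum_eq_single (y.1, w.2)]
      · simp
      · intro x _ hx
        split_ifs with h1
        · apply hz b h.ab h.bc
          rintro ⟨h2, h3⟩
          rw [boxProd_adj] at h3
          rcases h3 with ⟨h3, h3'⟩ | ⟨h3, h3'⟩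
          · exact e2 (h1.trans h3')
          · exact hx (Prod.ext h3' h1.symm)
        · rfl
      · simp
    have R : (∑ x, if x.2 = y.2 then u a w * u d x * u c y else 0) =
        u a w * u d (w.1, y.2) * u c y := by
      rw [Finset.sum_eq_single (w.1, y.2)]
      · simp
      · intro x _ hx
        split_ifs with h1
        · apply hz d h.ad h.dc
          rintro ⟨h2, h3⟩
          rw [boxProd_adj] at h2
          rcases h2 with ⟨h2, h2'⟩ | ⟨h2, h2'⟩
          · exact e2 (h2'.trans h1)
          · exact hx (Prod.ext h2'.symm h1)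
        · rfl
      · simp
    rw [L, R]
    by_cases hM : G₁.Adj w.1 y.1 ∧ G₂.Adj w.2 y.2
    · -- mixed
      have h1 : u a w * u b (y.1, w.2) * u c y + u a w * u b (w.1, y.2) * u c y =
          u a w * u c y := by
        have hne : (y.1, w.2) ≠ (w.1, y.2) := by
          intro h
          exact hM.1.ne (congrArg Prod.fst h).symm
        rw [← hu.sum_mid a b c w y,
          ← Finset.sum_pair (f := fun x => u a w * u b x * u c y) hne]
        apply Finset.sum_subset (Finset.subset_univ _)
        intro x _ hx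
        apply hz b h.ab h.bc
        rintro ⟨h1, h2⟩
        apply hx
        rw [boxProd_adj] at h1 h2
        simp only [Finset.mem_insert, Finset.mem_singleton]
        rcases h1 with ⟨h1, h1'⟩ | ⟨h1, h1'⟩ <;> rcases h2 with ⟨h2, h2'⟩ | ⟨h2, h2'⟩
        · exact absurd (h1'.trans h2') hM.2.ne
        · left; exact Prod.ext h2' h1'.symm
        · right; exact Prod.ext h1'.symm h2'
        · exact absurd (h1'.trans h2') hM.1.ne
      have h2 := key (w.1, y.2) (by rw [boxProd_adj]; right; exact ⟨hM.2, rfl⟩)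
        (by rw [boxProd_adj]; left; exact ⟨hM.1, rfl⟩)
      rw [← h2, add_comm] at h1
      exact add_left_cancel h1
    · rw [hz b h.ab h.bc, hz d h.ad h.dc]
      · rintro ⟨h1, h2⟩
        rw [boxProd_adj] at h1 h2
        simp only [SimpleGraph.irrefl, false_and, and_true, false_or, or_false] at h1 h2
        tauto
      · rintro ⟨h1, h2⟩
        rw [boxProd_adj] at h1 h2
        simp only [SimpleGraph.irrefl, false_and, and_true, false_or, or_false] at h1 h2
        tauto

theorem QI.square {a b c d : V} (h : Dia G a b c d) :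
    hh u a b - hh u d c = Dd u a b c + Dd u a b c := by
  classical
  have e1 : Dd u a b c + Dd u a b c = Dd u a b c - Dd u a d c := by
    rw [hu.Dd_flip' h]; abel
  have e2 : ∀ m, ∀ w, u a w * Rr u m w.2 * u c w =
      ∑ x, if w.2 = x.2 then u a w * u m x * u c w else 0 := by
    intro m w
    unfold Rr
    rw [Finset.mul_sum, Finset.sum_mul, Fintype.sum_prod_type]
    refine Finset.sum_congr rfl fun s _ => ?_
    simp
  have e3 : ∀ m, ∀ w, u a w * Rr u m w.2 * u c w =
      ∑ x, if x.2 = w.2 then u a w * u m x * u c w else 0 := by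
    intro m w
    rw [e2]
    refine Finset.sum_congr rfl fun s _ => ?_
    simp only [eq_comm]
  rw [e1, hu.hh_eq3 a b c, hu.hh_eq3' a d c]
  unfold Dd
  rw [← Finset.sum_sub_distrib, ← Finset.sum_sub_distrib]
  refine Finset.sum_congr rfl fun w _ => ?_
  rw [← Finset.sum_sub_distrib, Finset.sum_eq_single w]
  · rw [e2, e3]
  · intro y _ hy
    rw [hu.square_aux h hy.symm, sub_self]
  · simp

theorem QI.square' {a b c d : V} (h : Dia G a b c d) :
    hh u b c - hh u a d = Dd u a b c + Dd u a b c := by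
  have := congrArg star (hu.square h.rev)
  rw [star_sub, star_add, hu.star_hh, hu.star_hh, hu.star_Dd] at this
  exact this

theorem QI.Dd_rot {a b c d : V} (h : Dia G a b c d) (h' : Dia G b c d a) :
    Dd u a b c = Dd u b c d := by
  have h1 := hu.square' h
  have h2 := hu.square h'
  exact freal_two' (h1.symm.trans h2)

theorem QI.star_Dd_neg {a b c d : V} (h : Dia G a b c d) (h' : Dia G b c d a) :
    star (Dd u a b c) = - Dd u a b c := by
  have h1 := hu.Dd_rot h h'
  have h2 : Dd u b c d = Dd u c d a := hu.Dd_rot h' h.rev.flip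
  rw [hu.star_Dd, h1, h2]
  exact eq_neg_of_add_eq_zero_left (hu.Dd_flip h.rev)

theorem QI.tt_square_aux {a b c d : V} (h : Dia G a b c d) (h' : Dia G b c d a) :
    tt u a b = tt u d c := by
  apply freal_two'
  have h1 := hu.square h
  have h2 := congrArg star h1
  rw [star_sub, star_add, hu.star_hh, hu.star_hh, hu.star_Dd_neg h h'] at h2
  have h3 : hh u a b - hh u d c + (hh u b a - hh u c d) =
    Dd u a b c + Dd u a b c + (-Dd u a b c + -Dd u a b c) := by rw [h1, h2]
  rw [hu.two_tt h.ab, hu.two_tt h.dc]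
  have h4 : hh u a b - hh u d c + (hh u b a - hh u c d) =
    (hh u a b + hh u b a) - (hh u d c + hh u c d) := by abel
  rw [h4] at h3
  have h5 : Dd u a b c + Dd u a b c + (-Dd u a b c + -Dd u a b c) = 0 := by abel
  rw [h5] at h3
  exact sub_eq_zero.1 h3

/-- `t` agrees on opposite edges as soon as one diagonal has exactly two common neighbours. -/
theorem QI.tt_square {a b c d : V} (h : Dia G a b c d) : tt u a b = tt u d c := by
  classical
  by_cases hM : MM G₁ G₂ u b d = 0
  · have h1 : hh u a d = hh u a b := hu.hh_eq_of_MM h.ab.symm h.ad hM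
    have h2 : hh u c d = hh u c b := hu.hh_eq_of_MM h.bc h.dc.symm hM
    have i1 := hu.hh_symm_of_idem h.ab (hu.tt_idem h.ab h.ad h.bd h1.symm)
    have i2 := hu.hh_symm_of_idem h.bc.symm (hu.tt_idem h.bc.symm h.dc.symm h.bd h2.symm)
    have i3 := hu.idem_of_hh_symm h.ab i1
    have i4 : hh u d c = hh u b c := by
      rw [← hu.star_hh c d, h2, hu.star_hh]
    have s1 := hu.square h
    have s2 := hu.square' h
    rw [i4] at s1
    rw [h1] at s2
    have s3 : hh u a b = hh u b c := by
      have : (hh u a b - hh u b c) + (hh u a b - hh u b c) = 0 := by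
        nth_rw 1 [s1]
        rw [← s2]; abel
      exact sub_eq_zero.1 (freal_two this)
    have i5 : hh u d c = hh u c d := by rw [i4, h2, i2]
    have i6 := hu.idem_of_hh_symm h.dc i5
    rw [i3.1, i6.1, i4, s3]
  · obtain ⟨h1, h2⟩ := hu.cn_of_MM hM
    obtain ⟨x, hx⟩ := dia_of_cn h.bd h1 h.bc h.dc.symm
    have hx2 : x = a := by
      have := (hx.iff a).1 ⟨h.ab.symm, h.ad⟩
      rcases this with h3 | h3
      · exact absurd h3 h.ac
      · exact h3.symm
    subst hx2
    exact hu.tt_square_aux h hx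

end dd

end QSym
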