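import Pool.Agent.Lib.MP_a717c1_al.RotD

/-!
# Elimination of rotations, second part
-/

set_option linter.unusedSectionVars false
set_option linter.unusedDecidableInType false

namespace QSym

open Finset SimpleGraph

variable {V V₁ V₂ : Type*} [Fintype V] [Fintype V₁] [Fintype V₂]
variable {A : Type*} [Ring A] [StarRing A] [FReal A]
variable {G : SimpleGraph V} {G₁ : SimpleGraph V₁} {G₂ : SimpleGraph V₂}
variable {u : V → V₁ × V₂ → A}

/-- change the orientation of the rotations of a list -/
def orient (hu : QI G (G₁ □ G₂) u) : List Bool → List (RotD G u) → List (RotD G u)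
  | true :: σ, r :: L => r :: orient hu σ L
  | false :: σ, r :: L => r.inv' hu :: orient hu σ L
  | _, _ => []

def posL {α : Type*} : List Bool → List α → List α
  | true :: σ, r :: L => r :: posL σ L
  | false :: σ, _ :: L => posL σ L
  | _, _ => []

def negL {α : Type*} : List Bool → List α → List α
  | true :: σ, _ :: L => negL σ L
  | false :: σ, r :: L => r :: negL σ L
  | _, _ => []

open Classical in
noncomputable def cnt {α : Type*} (P : α → Prop) : List α → ℕ
  | [] => 0
  | r :: L => (if P r then 1 else 0) + cnt P L

theorem cnt_split {α : Type*} (P : α → Prop) (σ : List Bool) (L : List α)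
    (h : σ.length = L.length) : cnt P L = cnt P (posL σ L) + cnt P (negL σ L) := by
  induction L generalizing σ with
  | nil =>
    cases σ with
    | nil => simp [posL, negL, cnt]
    | cons b σ => simp at h
  | cons r L ih =>
    cases σ with
    | nil => simp at h
    | cons b σ =>
      have h' : σ.length = L.length := by simpa using h
      cases b <;> simp only [posL, negL, cnt, ih σ h'] <;> ring

theorem length_split {α : Type*} (σ : List Bool) (L : List α)
    (h : σ.length = L.length) : L.length = (posL σ L).length + (negL σ L).length := by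
  induction L generalizing σ with
  | nil =>
    cases σ with
    | nil => simp [posL, negL]
    | cons b σ => simp at h
  | cons r L ih =>
    cases σ with
    | nil => simp at h
    | cons b σ =>
      have h' : σ.length = L.length := by simpa using h
      cases b <;> simp only [posL, negL, List.length_cons, ih σ h'] <;> ring

theorem pos_length {α : Type*} (σ : List Bool) (L : List α)
    (h : σ.length = L.length) (ht : true ∈ σ) : 0 < (posL σ L).length := by
  induction L generalizing σ with
  | nil =>
    cases σ with
    | nil => simp at ht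
    | cons b σ => simp at h
  | cons r L ih =>
    cases σ with
    | nil => simp at h
    | cons b σ =>
      have h' : σ.length = L.length := by simpa using h
      cases b
      · simp only [posL]
        apply ih σ h'
        simpa using ht
      · simp [posL]

theorem neg_length {α : Type*} (σ : List Bool) (L : List α)
    (h : σ.length = L.length) (ht : false ∈ σ) : 0 < (negL σ L).length := by
  induction L generalizing σ with
  | nil =>
    cases σ with
    | nil => simp at ht
    | cons b σ => simp at h
  | cons r L ih =>
    cases σ with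
    | nil => simp at h
    | cons b σ =>
      have h' : σ.length = L.length := by simpa using h
      cases b
      · simp [negL]
      · simp only [negL]
        apply ih σ h'
        simpa using ht

section

variable (hu : QI G (G₁ □ G₂) u)

theorem orient_length (σ : List Bool) (L : List (RotD G u)) (h : σ.length = L.length) :
    (orient hu σ L).length = L.length := by
  induction L generalizing σ with
  | nil => cases σ <;> simp [orient]
  | cons r L ih =>
    cases σ with
    | nil => simp at h
    | cons b σ =>
      have h' : σ.length = L.length := by simpa using h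
      cases b <;> simp [orient, ih σ h']

theorem orient_cnt (P : RotD G u → Prop) (hP : ∀ r, P (r.inv' hu) ↔ P r) (σ : List Bool)
    (L : List (RotD G u)) (h : σ.length = L.length) :
    cnt P (orient hu σ L) = cnt P L := by
  induction L generalizing σ with
  | nil => cases σ <;> simp [orient, cnt]
  | cons r L ih =>
    cases σ with
    | nil => simp at h
    | cons b σ =>
      have h' : σ.length = L.length := by simpa using h
      cases b
      · simp only [orient, cnt, ih σ h']
        by_cases hr : P r
        · rw [if_pos hr, if_pos ((hP r).2 hr)]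
        · rw [if_neg hr, if_neg (fun h => hr ((hP r).1 h))]
      · simp only [orient, cnt, ih σ h']

include hu in
theorem sq_cons (h1 : (1 : A) ≠ 0) (r : RotD G u) (L : List (RotD G u)) (x : V) :
    rho (r :: L) (rho (r :: L) x) = r.ρ (r.ρ (rho L (rho L x))) := by
  simp only [rho, rho_comm hu h1]

include hu in
theorem inv_sq (r : RotD G u) (x : V) : r.ρ.symm (r.ρ.symm x) = r.ρ (r.ρ x) := by
  rw [Equiv.symm_apply_eq, Equiv.symm_apply_eq, r.rot.four]

theorem orient_sq (h1 : (1 : A) ≠ 0) (σ : List Bool) (L : List (RotD G u))
    (h : σ.length = L.length) (x : V) :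
    rho (orient hu σ L) (rho (orient hu σ L) x) = rho L (rho L x) := by
  induction L generalizing σ with
  | nil => cases σ <;> simp [orient, rho]
  | cons r L ih =>
    cases σ with
    | nil => simp at h
    | cons b σ =>
      have h' : σ.length = L.length := by simpa using h
      cases b
      · simp only [orient]
        rw [sq_cons hu h1, sq_cons hu h1, ih σ h']
        exact inv_sq hu r _
      · simp only [orient]
        rw [sq_cons hu h1, sq_cons hu h1, ih σ h']

theorem rho_orient_neg (h1 : (1 : A) ≠ 0) (σ : List Bool) (L : List (RotD G u))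
    (h : σ.length = L.length) (x : V) :
    rho L x = rho (orient hu σ L) (rho (negL σ L) (rho (negL σ L) x)) := by
  induction L generalizing σ x with
  | nil => cases σ <;> simp [orient, rho, negL]
  | cons r L ih =>
    cases σ with
    | nil => simp at h
    | cons b σ =>
      have h' : σ.length = L.length := by simpa using h
      cases b
      · simp only [orient, negL]
        rw [sq_cons hu h1]
        simp only [rho]
        rw [ih σ h' (r.ρ x)]
        congr 1
        change _ = r.ρ.symm _
        rw [Equiv.symm_apply_apply]
        simp only [rho_comm hu h1]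
      · simp only [orient, negL]
        simp only [rho]
        rw [ih σ h' (r.ρ x)]
        simp only [rho_comm hu h1]

include hu in
theorem sq_split (h1 : (1 : A) ≠ 0) (σ : List Bool) (L : List (RotD G u))
    (h : σ.length = L.length) (x : V) :
    rho L (rho L x) =
      rho (posL σ L) (rho (posL σ L) (rho (negL σ L) (rho (negL σ L) x))) := by
  induction L generalizing σ x with
  | nil => cases σ <;> simp [rho, negL, posL]
  | cons r L ih =>
    cases σ with
    | nil => simp at h
    | cons b σ =>
      have h' : σ.length = L.length := by simpa using h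
      cases b
      · simp only [posL, negL]
        rw [sq_cons hu h1, sq_cons hu h1, ih σ h']
        simp only [rho_comm hu h1]
      · simp only [posL, negL]
        rw [sq_cons hu h1, sq_cons hu h1, ih σ h']

/-- summation over all orientations -/
theorem sum_orient (x y : A) (L : List (RotD G u)) (k₀ : A)
    (h : ∀ σ : List Bool, σ.length = L.length → x * (k₀ * gs (orient hu σ L)) * y = 0) :
    x * k₀ * y = 0 := by
  induction L generalizing k₀ with
  | nil =>
    have := h [] rfl
    simpa [orient, gs] using this
  | cons r L ih =>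
    have e1 : x * (k₀ * r.k) * y = 0 := by
      apply ih
      intro σ hσ
      have := h (true :: σ) (by simpa using hσ)
      simpa [orient, gs, mul_assoc] using this
    have e2 : x * (k₀ * r.g) * y = 0 := by
      apply ih
      intro σ hσ
      have := h (false :: σ) (by simpa using hσ)
      simpa [orient, gs, mul_assoc, RotD.inv'] using this
    calc x * k₀ * y = x * (k₀ * r.k) * y + x * (k₀ * r.g) * y := by
          rw [← add_mul, ← mul_add, ← mul_add, add_comm r.k, r.sum, mul_one]
      _ = 0 := by rw [e1, e2, add_zero]

theorem sum_orient' (x y : A) (L : List (RotD G u)) (k₀ : A)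
    (h : ∀ σ : List Bool, σ.length = L.length → false ∈ σ →
      x * (k₀ * gs (orient hu σ L)) * y = 0) :
    x * k₀ * y = x * (k₀ * gs L) * y := by
  induction L generalizing k₀ with
  | nil => simp [gs]
  | cons r L ih =>
    have e1 : x * (k₀ * r.k) * y = x * (k₀ * r.k * gs L) * y := by
      apply ih
      intro σ hσ hf
      have := h (true :: σ) (by simpa using hσ) (by simp [hf])
      simpa [orient, gs, mul_assoc] using this
    have e2 : x * (k₀ * r.g) * y = 0 := by
      apply sum_orient hu x y L
      intro σ hσ
      have := h (false :: σ) (by simpa using hσ) (by simp)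
      simpa [orient, gs, mul_assoc, RotD.inv'] using this
    calc x * k₀ * y = x * (k₀ * r.k) * y + x * (k₀ * r.g) * y := by
          rw [← add_mul, ← mul_add, ← mul_add, add_comm r.k, r.sum, mul_one]
      _ = x * (k₀ * gs (r :: L)) * y := by
          rw [e1, e2, add_zero]
          simp only [gs, mul_assoc]

/-- all rotations inverted -/
def invL (L : List (RotD G u)) : List (RotD G u) := L.map (fun r => r.inv' hu)

theorem gs_invL (L : List (RotD G u)) : gs (invL hu L) = gg L := by
  induction L with
  | nil => rfl
  | cons r L ih =>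
    simp only [invL, List.map_cons, gs, gg] at *
    rw [ih]; rfl

theorem orient_invL (σ : List Bool) (L : List (RotD G u)) (h : σ.length = L.length) :
    orient hu σ (invL hu L) = orient hu (σ.map (fun b => !b)) L := by
  induction L generalizing σ with
  | nil => cases σ <;> simp [orient, invL]
  | cons r L ih =>
    cases σ with
    | nil => simp at h
    | cons b σ =>
      have h' : σ.length = L.length := by simpa using h
      have := ih σ h'
      simp only [invL] at this
      cases b
      · simp only [invL, List.map_cons, orient, Bool.not_false, this]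
        rfl
      · simp only [invL, List.map_cons, orient, Bool.not_true, this]

end

/-- edges with `h = 1` -/
def Hh (G : SimpleGraph V) (u : V → V₁ × V₂ → A) (x y : V) : Prop := G.Adj x y ∧ hh u x y = 1

/-- edges with `h = 0` -/
def Kk (G : SimpleGraph V) (u : V → V₁ × V₂ → A) (x y : V) : Prop := G.Adj x y ∧ hh u x y = 0

/-- an `h = 1` path followed by an `h = 0` path -/
def QQ (G : SimpleGraph V) (u : V → V₁ × V₂ → A) (x y : V) : Prop :=
  ∃ m, Relation.ReflTransGen (Hh G u) x m ∧ Relation.ReflTransGen (Kk G u) m y

section

variable (hu : QI G (G₁ □ G₂) u)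
include hu

theorem QI.Rr_eq_of_Hh {x y : V} (h : Relation.ReflTransGen (Hh G u) x y) (i : V₂) :
    Rr u x i = Rr u y i := by
  induction h with
  | refl => rfl
  | @tail p q _ hpq ih =>
    rw [ih]
    have h1 := hu.Rr_mul_hh p q i
    have h2 := hu.hh_mul_Rr p q i
    rw [hpq.2, mul_one] at h1
    rw [hpq.2, one_mul] at h2
    rw [h1, ← h2]

theorem QI.Cc_eq_of_Kk {x y : V} (h : Relation.ReflTransGen (Kk G u) x y) (i : V₁) :
    Cc u x i = Cc u y i := by
  induction h with
  | refl => rfl
  | @tail p q _ hpq ih =>
    rw [ih]
    have h0 : kk u p q = 1 := by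
      have := hu.hh_add_kk hpq.1
      rwa [hpq.2, zero_add] at this
    have h1 := hu.Cc_mul_kk p q i
    have h2 := hu.kk_mul_Cc p q i
    rw [h0, mul_one] at h1
    rw [h0, one_mul] at h2
    rw [h1, ← h2]

theorem QI.eq_of_u_eq (h1 : (1 : A) ≠ 0) {x y : V} (hR : ∀ i, Rr u x i = Rr u y i)
    (hC : ∀ i, Cc u x i = Cc u y i) : x = y := by
  by_contra hne
  apply h1
  rw [← hu.row x]
  refine Finset.sum_eq_zero fun w _ => ?_
  have : u x w = u y w := by
    obtain ⟨s, r⟩ := w
    rw [← hu.Cc_mul_Rr, ← hu.Cc_mul_Rr, hR, hC]
  rw [← hu.mul_self x w]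
  nth_rw 2 [this]
  exact hu.col_orth hne

theorem QI.hh_one_of_tt {x y : V} (hxy : G.Adj x y) (h : tt u x y = 1) : hh u x y = 1 := by
  have h1 := hu.two_tt hxy
  have h2 : hh u x y - 1 = 0 := by
    apply freal_one
    rw [star_sub, star_one, hu.star_hh]
    have h3 : hh u y x * hh u x y = 1 := by rw [← hu.hh_normal hxy]; exact h
    have : (hh u y x - 1) * (hh u x y - 1) = hh u y x * hh u x y - (hh u x y + hh u y x) + 1 := by
      noncomm_ring
    rw [this, h3, ← h1, h]; noncomm_ring
  exact sub_eq_zero.1 h2

theorem QI.hh_zero_of_tt {x y : V} (hxy : G.Adj x y) (h : tt u x y = 0) : hh u x y = 0 := by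
  apply freal_one
  rw [hu.star_hh, ← hu.hh_normal hxy]
  exact h

theorem QI.HK_swap (h1 : (1 : A) ≠ 0) {x y z : V} (hxy : Kk G u x y) (hyz : Hh G u y z) :
    ∃ y', Hh G u x y' ∧ Kk G u y' z := by
  classical
  have hyx : hh u y x = 0 := by rw [← hu.star_hh, hxy.2, star_zero]
  have hxz : x ≠ z := by
    rintro rfl
    rw [hyz.2] at hyx
    exact h1 hyx
  have hM : MM G₁ G₂ u x z ≠ 0 := by
    intro hM
    have := hu.hh_eq_of_MM hxy.1 hyz.1 hM
    rw [hyz.2, hyx] at this
    exact h1 this
  obtain ⟨h2, h3⟩ := hu.cn_of_MM hM
  obtain ⟨y', hd⟩ := dia_of_cn hxz h2 hxy.1 hyz.1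
  refine ⟨y', ⟨hd.ad, ?_⟩, ⟨hd.dc, ?_⟩⟩
  · apply hu.hh_one_of_tt hd.ad
    rw [← hu.tt_square' hd]
    unfold tt
    rw [hyz.2, ← hu.star_hh y z, hyz.2, star_one, one_mul]
  · apply hu.hh_zero_of_tt hd.dc
    rw [← hu.tt_square hd]
    unfold tt
    rw [hxy.2, zero_mul]

theorem QI.HK_swap' (h1 : (1 : A) ≠ 0) {x y z : V} (hxy : Relation.ReflTransGen (Kk G u) x y)
    (hyz : Hh G u y z) : ∃ y', Hh G u x y' ∧ Relation.ReflTransGen (Kk G u) y' z := by
  induction hxy generalizing z with
  | refl => exact ⟨z, hyz, Relation.ReflTransGen.refl⟩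
  | tail _ hpq ih =>
    obtain ⟨y', h2, h3⟩ := hu.HK_swap h1 hpq hyz
    obtain ⟨y'', h4, h5⟩ := ih h2
    exact ⟨y'', h4, h5.tail h3⟩

theorem QI.QQ_trans (h1 : (1 : A) ≠ 0) {x y z : V} (hxy : QQ G u x y) (hyz : QQ G u y z) :
    QQ G u x z := by
  obtain ⟨m, h2, h3⟩ := hxy
  obtain ⟨m', h4, h5⟩ := hyz
  have : QQ G u x m' := by
    clear h5
    induction h4 with
    | refl => exact ⟨m, h2, h3⟩
    | tail _ hpq ih =>
      obtain ⟨m₁, h6, h7⟩ := ih
      obtain ⟨m₂, h8, h9⟩ := hu.HK_swap' h1 h7 hpq
      exact ⟨m₂, h6.tail h8, h9⟩
  obtain ⟨m₁, h6, h7⟩ := this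
  exact ⟨m₁, h6, h7.trans h5⟩

omit hu [FReal A] in
theorem QQ_refl (x : V) : QQ G u x x :=
  ⟨x, Relation.ReflTransGen.refl, Relation.ReflTransGen.refl⟩

omit hu in
theorem QQ_rho (L : List (RotD G u)) {x y : V} (h : QQ G u x y) : QQ G u (rho L x) (rho L y) := by
  obtain ⟨m, h2, h3⟩ := h
  refine ⟨rho L m, rtg_lift (rho L) ?_ h2, rtg_lift (rho L) ?_ h3⟩
  · intro a b hab; exact ⟨rho_adj L hab.1, by rw [rho_hh L hab.1, hab.2]⟩
  · intro a b hab; exact ⟨rho_adj L hab.1, by rw [rho_hh L hab.1, hab.2]⟩

/-- Main elimination claim. -/
theorem QI.claim [Nonempty V] (h1 : (1 : A) ≠ 0) (P : RotD G u → Prop)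
    (hP : ∀ r, P (r.inv' hu) ↔ P r)
    (hP2 : ∀ r r', r.g = r'.k → (P r ↔ P r')) (n : ℕ) :
    ∀ L : List (RotD G u), L.length = n → Odd (cnt P L) → ∀ a, ¬ QQ G u a (rho L (rho L a)) := by
  induction n using Nat.strong_induction_on with
  | _ n IH =>
  intro L hL hodd a hQ
  obtain ⟨b, hH, hK⟩ := hQ
  have hR : ∀ i, Rr u b i = Rr u a i := fun i => (hu.Rr_eq_of_Hh hH i).symm
  have hC : ∀ i, Cc u b i = Cc u (rho L (rho L a)) i := fun i => hu.Cc_eq_of_Kk hK i
  by_cases hA : ∀ σ : List Bool, σ.length = L.length → a ≠ rho (orient hu σ L) b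
  · -- case A
    apply h1
    rw [← hu.row a]
    refine Finset.sum_eq_zero fun w _ => ?_
    have h2 : u a w * 1 * u a w = 0 := by
      apply sum_orient hu _ _ L
      intro σ hσ
      rw [one_mul]
      apply vanish hu h1 (orient hu σ L) hR _ (hA σ hσ)
      intro i
      rw [orient_sq hu h1 σ L hσ]
      exact hC i
    rw [mul_one, hu.mul_self] at h2
    exact h2
  · push Not at hA
    obtain ⟨σ₀, hσ₀, hab⟩ := hA
    -- replace L by the reoriented list
    obtain ⟨L', hL', hodd', hsq, hab'⟩ : ∃ L' : List (RotD G u), L'.length = n ∧ Odd (cnt P L') ∧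
        (∀ x, rho L' (rho L' x) = rho L (rho L x)) ∧ a = rho L' b :=
      ⟨orient hu σ₀ L, by rw [orient_length hu σ₀ L hσ₀, hL],
        by rw [orient_cnt hu P hP σ₀ L hσ₀]; exact hodd, orient_sq hu h1 σ₀ L hσ₀, hab⟩
    clear hab
    have hC' : ∀ i, Cc u b i = Cc u (rho L' (rho L' a)) i := fun i => by rw [hC, hsq]
    have ggs := gg_gs hu h1 L'
    -- cancellation
    have cancel_g : ∀ {x y : A}, gg L' * x = gg L' * y → x = y := by
      intro x y h
      have : (2 ^ L'.length : ℕ) • (gs L' * gg L') * x = (2 ^ L'.length : ℕ) • (gs L' * gg L') * y := by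
        rw [smul_mul_assoc, smul_mul_assoc, mul_assoc, mul_assoc, h]
      rwa [ggs.2, one_mul, one_mul] at this
    have cancel_k : ∀ {x y : A}, gs L' * x = gs L' * y → x = y := by
      intro x y h
      have : (2 ^ L'.length : ℕ) • (gg L' * gs L') * x = (2 ^ L'.length : ℕ) • (gg L' * gs L') * y := by
        rw [smul_mul_assoc, smul_mul_assoc, mul_assoc, mul_assoc, h]
      rwa [ggs.1, one_mul, one_mul] at this
    have Ra : ∀ i, Rr u a i * gg L' = gg L' * Rr u a i := by
      intro i
      have := rho_R hu L' b i
      rw [← hab', hR] at this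
      exact this
    have Rpa : ∀ i, Rr u (rho L' a) i = Rr u a i := by
      intro i
      apply cancel_g
      rw [← rho_R hu L' a i, Ra]
    have C3 : ∀ i, Cc u (rho L' (rho L' (rho L' a))) i = Cc u a i := by
      intro i
      apply cancel_k
      rw [← rho_C hu L' (rho L' (rho L' a)) i, ← hC', rho_C hu L' b i, ← hab']
    have Cpa : ∀ i, Cc u (rho L' a) i = Cc u a i := by
      intro i
      apply cancel_k
      rw [← rho_C hu L' a i]
      have := rho_C hu L' (rho L' (rho L' (rho L' a))) i
      rw [rho_four hu h1, C3] at this
      exact this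
    have hpa : rho L' a = a := hu.eq_of_u_eq h1 Rpa Cpa
    have hba : b = a := by
      apply rho_inj L'
      rw [← hab', hpa]
    have Ca : ∀ i, Cc u a i * gs L' = gs L' * Cc u a i := by
      intro i
      have := rho_C hu L' a i
      rwa [hpa] at this
    -- u a w commutes with gg L' and gs L'
    have Ra' : ∀ i, gs L' * Rr u a i = Rr u a i * gs L' := by
      intro i
      have := rho_R' hu h1 L' a i
      rwa [hpa] at this
    have Ca' : ∀ i, gg L' * Cc u a i = Cc u a i * gg L' := by
      intro i
      have := rho_C' hu h1 L' a i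
      rwa [hpa] at this
    have ugs : ∀ w, u a w * gs L' = gs L' * u a w := by
      rintro ⟨s, r⟩
      rw [← hu.Cc_mul_Rr, mul_assoc, ← Ra', ← mul_assoc, Ca, mul_assoc]
    have ugg : ∀ w, u a w * gg L' = gg L' * u a w := by
      rintro ⟨s, r⟩
      rw [← hu.Cc_mul_Rr, mul_assoc, Ra, ← mul_assoc, ← Ca', mul_assoc]
    have hsqa : rho L' (rho L' a) = a := by rw [hpa, hpa]
    -- vanishing for mixed signs
    have mixed : ∀ σ : List Bool, σ.length = L'.length → true ∈ σ → false ∈ σ →
        ∀ w, u a w * gs (orient hu σ L') * u a w = 0 := by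
      intro σ hσ ht hf w
      apply vanish hu h1 (orient hu σ L') (fun i => rfl)
      · intro i
        rw [orient_sq hu h1 σ L' hσ, hsqa]
      · intro hcon
        have hn := rho_orient_neg hu h1 σ L' hσ a
        rw [hpa] at hn
        have hneg : rho (negL σ L') (rho (negL σ L') a) = a := by
          apply rho_inj (orient hu σ L')
          rw [← hn]; exact hcon
        have hpos : rho (posL σ L') (rho (posL σ L') a) = a := by
          have := sq_split hu h1 σ L' hσ a
          rw [hneg, hsqa] at this
          exact this.symm
        have hlen := length_split σ L' hσ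
        have hp := pos_length σ L' hσ ht
        have hq := neg_length σ L' hσ hf
        have hc := cnt_split P σ L' hσ
        rw [hc] at hodd'
        rcases Nat.even_or_odd (cnt P (posL σ L')) with he | ho
        · have ho : Odd (cnt P (negL σ L')) := by
            rcases Nat.even_or_odd (cnt P (negL σ L')) with he2 | ho
            · exact absurd (he.add he2) (Nat.not_even_iff_odd.2 hodd')
            · exact ho
          refine IH _ (by omega) (negL σ L') rfl ho a ?_
          rw [hneg]; exact QQ_refl a
        · refine IH _ (by omega) (posL σ L') rfl ho a ?_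
          rw [hpos]; exact QQ_refl a
    -- the list is nonempty
    cases L' with
    | nil => simp [cnt] at hodd'
    | cons r L₀ =>
      -- u = u gs u + u gg u
      have e1 : ∀ w, u a w * r.k * u a w = u a w * (r.k * gs L₀) * u a w := by
        intro w
        apply sum_orient' hu
        intro σ hσ hf
        have := mixed (true :: σ) (by simpa using hσ) (by simp) (by simp [hf]) w
        simpa [orient, gs] using this
      have e2 : ∀ w, u a w * r.g * u a w = u a w * (r.g * gg L₀) * u a w := by
        intro w
        rw [← gs_invL hu L₀]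
        apply sum_orient' hu
        intro σ hσ hf
        have hσ' : σ.length = L₀.length := by simpa [invL] using hσ
        rw [orient_invL hu σ L₀ hσ']
        have := mixed (false :: σ.map (fun b => !b)) (by simpa using hσ')
          (by simp; exact hf) (by simp) w
        simpa [orient, gs, RotD.inv'] using this
      have e3 : ∀ w, u a w = (gs (r :: L₀) + gg (r :: L₀)) * u a w := by
        intro w
        have k1 := e1 w
        have k2 := e2 w
        have k3 : u a w * gs (r :: L₀) * u a w = gs (r :: L₀) * u a w := by
          rw [ugs, mul_assoc, hu.mul_self]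
        have k4 : u a w * gg (r :: L₀) * u a w = gg (r :: L₀) * u a w := by
          rw [ugg, mul_assoc, hu.mul_self]
        simp only [gs, gg] at k3 k4 ⊢
        rw [add_mul, ← k3, ← k4, ← k1, ← k2, ← add_mul, ← mul_add, add_comm r.k, r.sum, mul_one,
          hu.mul_self]
      have e4 : gg (r :: L₀) + gs (r :: L₀) = 1 := by
        have : ∑ w, u a w = (gs (r :: L₀) + gg (r :: L₀)) * ∑ w, u a w := by
          rw [Finset.mul_sum]
          exact Finset.sum_congr rfl fun w _ => e3 w
        rw [hu.row, mul_one, add_comm] at this
        exact this.symm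
      rw [List.length_cons] at hL'
      rcases Nat.lt_or_ge L₀.length 2 with hlt | hge
      · rcases Nat.lt_or_ge L₀.length 1 with hlt1 | hge1
        · -- n = 1
          have : L₀ = [] := List.length_eq_zero_iff.1 (by omega)
          subst this
          exact r.rot.ne_self a hpa
        · -- n = 2
          obtain ⟨r', hr'⟩ := List.length_eq_one_iff.1 (show L₀.length = 1 by omega)
          subst hr'
          have h3 : r'.ρ (r.ρ a) = a := hpa
          have h4 : r.ρ a = r'.ρ.symm a := by
            rw [Equiv.eq_symm_apply]; exact h3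
          have h5 : r.g = r'.k := by
            rw [← r.hg a, h4, r'.hg' hu]
          have h6 := hP2 r r' h5
          unfold cnt cnt cnt at hodd'
          by_cases h7 : P r'
          · rw [if_pos h7, if_pos (h6.2 h7)] at hodd'
            exact absurd hodd' (by decide)
          · rw [if_neg h7, if_neg (fun h => h7 (h6.1 h))] at hodd'
            exact absurd hodd' (by decide)
      · -- n ≥ 3
        have s1 := star_gg hu h1 (r :: L₀)
        set g := gg (r :: L₀)
        set k := gs (r :: L₀)
        have c1 : g * k = k * g := by
          have h3 : (2 ^ (r :: L₀).length : ℕ) • (g * k - k * g) = 0 := by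
            rw [smul_sub, ggs.1, ggs.2, sub_self]
          exact sub_eq_zero.1 (freal_nsmul (by positivity) h3)
        have c2 : star (g - k) * (g - k) = (4 : ℕ) • (g * k) - 1 := by
          have s2 : star k = g := by rw [← s1, star_star]
          rw [star_sub, s1, s2]
          have : (k - g) * (g - k) = (g * k + k * g) + (g * k + k * g) - (g + k) * (g + k) := by
            noncomm_ring
          rw [this, e4, ← c1]
          noncomm_ring
        have c3 : (2 ^ (r :: L₀).length : ℕ) • (star (g - k) * (g - k)) +
            (2 ^ (r :: L₀).length - 4 : ℕ) • (1 : A) = 0 := by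
          rw [c2, smul_sub, smul_comm, ggs.1]
          have h4 : 4 ≤ 2 ^ (r :: L₀).length := by
            calc 4 = 2 ^ 2 := by norm_num
              _ ≤ 2 ^ (r :: L₀).length := Nat.pow_le_pow_right (by norm_num) (by simp; omega)
          have h5 : (2 ^ (r :: L₀).length : ℕ) • (1 : A) =
              (4 : ℕ) • (1 : A) + (2 ^ (r :: L₀).length - 4 : ℕ) • (1 : A) := by
            rw [← add_smul]; congr 1; omega
          rw [h5]; abel
        have h6 : 0 < 2 ^ (r :: L₀).length - 4 := by
          have : 2 ^ 3 ≤ 2 ^ (r :: L₀).length :=
            Nat.pow_le_pow_right (by norm_num) (by simp; omega)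
          omega
        have h7 : ∑ i : Fin (2 ^ (r :: L₀).length) ⊕ Fin (2 ^ (r :: L₀).length - 4),
            star (Sum.elim (fun _ => g - k) (fun _ => (1 : A)) i) *
              (Sum.elim (fun _ => g - k) (fun _ => (1 : A)) i) = 0 := by
          rw [Fintype.sum_sum_type]
          simp only [Sum.elim_inl, Sum.elim_inr, star_one, mul_one, Finset.sum_const,
            Finset.card_univ, Fintype.card_fin]
          exact c3
        exact h1 (freal_finset _ _ h7 (Sum.inr ⟨0, h6⟩) (Finset.mem_univ _))

end

end QSym
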