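import Mathlib

/-!
# Formally real star rings

All the algebra of the proof takes place in a ring with involution in which a finite sum of
elements `star x * x` vanishes only if every term vanishes.  Every C*-algebra has this property.
-/

namespace QSym

/-- A star ring in which `∑ star (f i) * f i = 0` forces every `f i = 0`. -/
class FReal (A : Type*) [Ring A] [StarRing A] : Prop where
  sum_eq_zero : ∀ (n : ℕ) (f : Fin n → A), ∑ i, star (f i) * f i = 0 → ∀ i, f i = 0

variable {A : Type*} [Ring A] [StarRing A] [FReal A]

theorem freal_finset {ι : Type*} (s : Finset ι) (f : ι → A)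
    (h : ∑ i ∈ s, star (f i) * f i = 0) : ∀ i ∈ s, f i = 0 := by
  classical
  intro i hi
  have e := s.equivFin.symm
  have h2 : ∑ k : Fin s.card, star (f (s.equivFin.symm k)) * f (s.equivFin.symm k) = 0 := by
    rw [← h, ← Finset.sum_coe_sort s (fun i => star (f i) * f i)]
    exact Fintype.sum_equiv s.equivFin.symm _ _ (fun x => rfl)
  have h3 := FReal.sum_eq_zero _ _ h2 (s.equivFin ⟨i, hi⟩)
  simpa using h3

theorem freal_one {x : A} (h : star x * x = 0) : x = 0 := by
  have := freal_finset (A := A) ({()} : Finset Unit) (fun _ => x) (by simpa using h) () (by simp)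
  exact this

theorem freal_add {x y : A} (h : star x * x + star y * y = 0) : x = 0 ∧ y = 0 := by
  have h2 := FReal.sum_eq_zero (A := A) 2 ![x, y] (by simpa [Fin.sum_univ_two] using h)
  exact ⟨by simpa using h2 0, by simpa using h2 1⟩

theorem freal_nsmul {n : ℕ} (hn : n ≠ 0) {x : A} (h : n • x = 0) : x = 0 := by
  have h2 : ∑ i : Fin n, star x * x = 0 := by
    simp only [Finset.sum_const, Finset.card_univ, Fintype.card_fin]
    rw [← mul_smul_comm, h, mul_zero]
  obtain ⟨k, rfl⟩ := Nat.exists_eq_succ_of_ne_zero hn
  exact FReal.sum_eq_zero (A := A) _ (fun _ => x) h2 0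

theorem freal_two {x : A} (h : x + x = 0) : x = 0 :=
  freal_nsmul (n := 2) (by norm_num) (by rw [two_nsmul]; exact h)

theorem freal_two' {x y : A} (h : x + x = y + y) : x = y := by
  have : (x - y) + (x - y) = 0 := by
    have : (x - y) + (x - y) = (x + x) - (y + y) := by abel
    rw [this, h, sub_self]
  exact sub_eq_zero.mp (freal_two this)

theorem freal_natCast {n : ℕ} (hn : n ≠ 0) {x : A} (h : (n : A) * x = 0) : x = 0 := by
  apply freal_nsmul hn
  rw [nsmul_eq_mul]; exact h

theorem freal_intCast {n : ℤ} (hn : n ≠ 0) {x : A} (h : (n : A) * x = 0) : x = 0 := by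
  obtain ⟨m, rfl | rfl⟩ := n.eq_nat_or_neg
  · exact freal_natCast (n := m) (by simpa using hn) (by simpa using h)
  · exact freal_natCast (n := m) (by simpa using hn) (by simpa using h)

/-- Projections that sum to one are mutually orthogonal. -/
theorem proj_orth {ι : Type*} [Fintype ι] (p : ι → A) (hs : ∀ i, star (p i) = p i)
    (hp : ∀ i, p i * p i = p i) (h1 : ∑ i, p i = 1) {i j : ι} (hij : i ≠ j) :
    p i * p j = 0 := by
  classical
  have h : ∑ k ∈ Finset.univ.erase j, star (p k * p j) * (p k * p j) = 0 := by
    have h2 : ∑ k, star (p k * p j) * (p k * p j) = p j := by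
      have : ∀ k, star (p k * p j) * (p k * p j) = p j * p k * p j := by
        intro k
        rw [star_mul, hs, hs, mul_assoc, ← mul_assoc (p k) (p k), hp, ← mul_assoc]
      simp only [this]
      rw [← Finset.sum_mul, ← Finset.mul_sum, h1, mul_one, hp]
    rw [← Finset.add_sum_erase _ _ (Finset.mem_univ j)] at h2
    have h3 : star (p j * p j) * (p j * p j) = p j := by rw [hp, hs, hp]
    rw [h3] at h2
    simpa using h2
  exact freal_finset _ _ h i (by simp [hij])

end QSym
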