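import Pool.Agent.Lib.MP_a717c1_al.CStar

/-!
# Squares with quantum symmetry
-/

set_option linter.unusedSectionVars false
set_option linter.unusedDecidableInType false

namespace QSym

open Finset SimpleGraph

theorem matrix_facts : ∃ p q : Matrix (Fin 2) (Fin 2) ℂ, star p = p ∧ star q = q ∧ p * p = p ∧
    q * q = q ∧ p * q ≠ q * p := by
  refine ⟨!![1, 0; 0, 0], !![1/2, 1/2; 1/2, 1/2], ?_, ?_, ?_, ?_, ?_⟩
  · rw [Matrix.star_eq_conjTranspose]
    ext i j; fin_cases i <;> fin_cases j <;> simp
  · rw [Matrix.star_eq_conjTranspose]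
    ext i j; fin_cases i <;> fin_cases j <;> simp
  · ext i j; fin_cases i <;> fin_cases j <;> simp
  · ext i j; fin_cases i <;> fin_cases j <;> simp <;> norm_num
  · intro h
    have := congrFun (congrFun h 0) 1
    simp at this

open scoped Matrix.Norms.L2Operator in
theorem exists_noncomm : ∃ (A : Type) (_ : CStarAlgebra A) (p q : A), star p = p ∧ star q = q ∧
    p * p = p ∧ q * q = q ∧ p * q ≠ q * p :=
  ⟨Matrix (Fin 2) (Fin 2) ℂ, inferInstance, matrix_facts⟩

/-- Two disjoint nontrivial automorphisms give quantum symmetry. -/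
theorem not_noQS_of_disjAut {V : Type} [Fintype V] {X : SimpleGraph V} (h : DisjAut X) :
    ¬ NoQuantumSymmetry X := by
  classical
  obtain ⟨σ, τ, hdis, ⟨a, ha⟩, ⟨b, hb⟩⟩ := h
  intro hN
  obtain ⟨A, _, p, q, hp1, hq1, hp2, hq2, hpq⟩ := exists_noncomm
  let dl : V → V → A := fun i j => if i = j then 1 else 0
  let u : Matrix V V A := fun i j => dl i j + p * (dl (σ i) j - dl i j) + q * (dl (τ i) j - dl i j)
  have hu1 : ∀ i j, u i j = if i = j then (if σ i = i then (if τ i = i then 1 else 1 - q) else 1 - p)
      else if σ i = j then p else if τ i = j then q else 0 := by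
    intro i j
    simp only [u, dl]
    by_cases h1 : i = j
    · subst h1
      by_cases h2 : σ i = i
      · by_cases h3 : τ i = i
        · simp [h2, h3]
        · simp [h2, h3]; abel
      · have h3 : τ i = i := by
          rcases hdis i with h | h
          · exact absurd h h2
          · exact h
        simp [h2, h3]; abel
    · by_cases h2 : σ i = j
      · have h3 : τ i = i := by
          rcases hdis i with h | h
          · exact absurd (h.symm.trans h2) h1
          · exact h
        have h4 : ¬ τ i = j := by rw [h3]; exact h1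
        simp [h1, h2, h4]
      · by_cases h3 : τ i = j
        · simp [h1, h2, h3]
        · simp [h1, h2, h3]
  have hmagic : IsMagicUnitary u := by
    refine ⟨?_, ?_, ?_, ?_⟩
    · intro i j
      rw [hu1]
      split_ifs <;> simp [hp1, hq1]
    · intro i j
      rw [hu1]
      split_ifs
      · simp
      · have : (1 - q) * (1 - q) = 1 - q - q + q * q := by noncomm_ring
        rw [this, hq2]; abel
      · have : (1 - p) * (1 - p) = 1 - p - p + p * p := by noncomm_ring
        rw [this, hp2]; abel
      · exact hp2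
      · exact hq2
      · simp
    · intro i
      simp only [u, dl, Finset.sum_add_distrib, ← Finset.mul_sum, Finset.sum_sub_distrib,
        Finset.sum_ite_eq, Finset.mem_univ, if_true]
      simp
    · intro j
      have e : ∀ σ : X ≃g X, ∑ i, (if σ i = j then (1 : A) else 0) = 1 := by
        intro σ
        rw [Finset.sum_eq_single (σ.symm j)]
        · simp
        · intro i _ hi
          rw [if_neg]
          intro h
          apply hi
          rw [← h]; simp
        · simp
      simp only [u, dl, Finset.sum_add_distrib, ← Finset.mul_sum, Finset.sum_sub_distrib, e,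
        Finset.sum_ite_eq', Finset.mem_univ, if_true]
      simp
  have hcomm : u * X.adjMatrix A = X.adjMatrix A * u := by
    ext i j : 2
    rw [Matrix.mul_apply, Matrix.mul_apply]
    have e1 : ∀ k, ∑ l, dl k l * X.adjMatrix A l j = X.adjMatrix A k j := by
      intro k
      rw [Finset.sum_eq_single k]
      · simp [dl]
      · intro l _ hl
        simp [dl, hl.symm]
      · simp
    have e2 : ∑ k, X.adjMatrix A i k * dl k j = X.adjMatrix A i j := by
      simp [dl]
    have e3 : ∀ σ : X ≃g X, ∑ k, X.adjMatrix A i k * dl (σ k) j = X.adjMatrix A (σ i) j := by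
      intro σ
      rw [Finset.sum_eq_single (σ.symm j)]
      · have : X.Adj i (σ.symm j) ↔ X.Adj (σ i) j := by
          rw [← σ.map_adj_iff, σ.apply_symm_apply]
        simp [dl, SimpleGraph.adjMatrix_apply, this]
      · intro k _ hk
        have : ¬ σ k = j := by
          intro h; apply hk; rw [← h]; simp
        simp [dl, this]
      · simp
    have c1 : ∀ i k (y : A), X.adjMatrix A i k * y = y * X.adjMatrix A i k := by
      intro i k y
      rw [SimpleGraph.adjMatrix_apply]
      split_ifs <;> simp
    have L : ∑ k, u i k * X.adjMatrix A k j = X.adjMatrix A i j +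
        p * (X.adjMatrix A (σ i) j - X.adjMatrix A i j) +
        q * (X.adjMatrix A (τ i) j - X.adjMatrix A i j) := by
      have : ∀ k, u i k * X.adjMatrix A k j = dl i k * X.adjMatrix A k j +
          p * (dl (σ i) k * X.adjMatrix A k j - dl i k * X.adjMatrix A k j) +
          q * (dl (τ i) k * X.adjMatrix A k j - dl i k * X.adjMatrix A k j) := by
        intro k; simp only [u]; noncomm_ring
      simp only [this, Finset.sum_add_distrib, ← Finset.mul_sum, Finset.sum_sub_distrib, e1]
    have R : ∑ k, X.adjMatrix A i k * u k j = X.adjMatrix A i j +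
        p * (X.adjMatrix A (σ i) j - X.adjMatrix A i j) +
        q * (X.adjMatrix A (τ i) j - X.adjMatrix A i j) := by
      have : ∀ k, X.adjMatrix A i k * u k j = X.adjMatrix A i k * dl k j +
          p * (X.adjMatrix A i k * dl (σ k) j - X.adjMatrix A i k * dl k j) +
          q * (X.adjMatrix A i k * dl (τ k) j - X.adjMatrix A i k * dl k j) := by
        intro k
        simp only [u]
        rw [mul_add, mul_add, ← mul_assoc _ p, c1 i k p, ← mul_assoc _ q, c1 i k q, mul_assoc p,
          mul_assoc q, mul_sub, mul_sub (X.adjMatrix A i k) (dl (τ k) j)]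
      simp only [this, Finset.sum_add_distrib, ← Finset.mul_sum, Finset.sum_sub_distrib, e2, e3]
    rw [L, R]
  have key := hN A u hmagic (by convert hcomm) a (σ a) b (τ b)
  rw [hu1 a (σ a), hu1 b (τ b), if_neg (fun h => ha h.symm), if_pos rfl,
    if_neg (fun h => hb h.symm)] at key
  have h3 : ¬ σ b = τ b := by
    intro h
    rcases hdis b with h4 | h4
    · exact hb (h.symm.trans h4)
    · exact hb h4
  rw [if_neg h3, if_pos rfl] at key
  exact hpq key

/-- restriction to one factor -/
theorem Rig.of_square {V : Type*} [Fintype V] {X : SimpleGraph V} {A : Type*} [Ring A]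
    [StarRing A] [FReal A] (h : Rig (X □ X) A) : Rig X A := by
  classical
  intro u hu i j k l
  have hv : QI (X □ X) (X □ X) (fun z w => if z.2 = w.2 then u z.1 w.1 else 0) := by
    refine ⟨?_, ?_, ?_, ?_, ?_⟩
    · intro z w
      split_ifs
      · exact hu.star_eq _ _
      · exact star_zero _
    · intro z w
      split_ifs
      · exact hu.mul_self _ _
      · exact mul_zero _
    · intro z
      rw [Fintype.sum_prod_type, ← hu.row z.1]
      refine Finset.sum_congr rfl fun s _ => ?_
      simp
    · intro w
      rw [Fintype.sum_prod_type, ← hu.col w.1]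
      refine Finset.sum_congr rfl fun s _ => ?_
      simp
    · intro z z' w w' hne
      by_cases h1 : z.2 = w.2
      · by_cases h2 : z'.2 = w'.2
        · rw [if_pos h1, if_pos h2] at hne
          have h3 := hu.adj _ _ _ _ hne
          have h4 := hu.eq_of_ne hne
          rw [boxProd_adj, boxProd_adj, h3, h4, h1, h2]
        · rw [if_neg h2, mul_zero] at hne
          exact absurd rfl hne
      · rw [if_neg h1, zero_mul] at hne
        exact absurd rfl hne
  have := h _ hv (i, i) (j, i) (k, i) (l, i)
  simpa using this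

theorem DisjAut.transport {V W : Type*} {G : SimpleGraph V} {H : SimpleGraph W} (e : G ≃g H)
    (h : DisjAut G) : DisjAut H := by
  obtain ⟨σ, τ, h1, ⟨a, ha⟩, ⟨b, hb⟩⟩ := h
  have key : ∀ (σ : G ≃g G) (y : W), ((e.symm.trans σ).trans e) y = y ↔ σ (e.symm y) = e.symm y := by
    intro σ y
    change e (σ (e.symm y)) = y ↔ _
    constructor
    · intro h2
      rw [← e.symm_apply_apply (σ (e.symm y)), h2]
    · intro h2; rw [h2]; simp
  refine ⟨(e.symm.trans σ).trans e, (e.symm.trans τ).trans e, ?_, ⟨e a, ?_⟩, ⟨e b, ?_⟩⟩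
  · intro y
    rw [key, key]
    exact h1 _
  · rw [ne_eq, key]; simpa using ha
  · rw [ne_eq, key]; simpa using hb

/-- an involution preserving adjacency is an automorphism -/
def isoOfInv {V : Type*} {G : SimpleGraph V} (f : V → V) (hf : ∀ x, f (f x) = x)
    (ha : ∀ x y, G.Adj x y → G.Adj (f x) (f y)) : G ≃g G where
  toFun := f
  invFun := f
  left_inv := hf
  right_inv := hf
  map_rel_iff' := by
    intro x y
    constructor
    · intro h
      have := ha _ _ h
      simpa [hf] using this
    · exact ha x y

theorem isoOfInv_apply {V : Type*} {G : SimpleGraph V} (f : V → V) (hf : ∀ x, f (f x) = x)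
    (ha : ∀ x y, G.Adj x y → G.Adj (f x) (f y)) (x : V) : isoOfInv f hf ha x = f x := rfl

/-- the square of a disconnected graph has two disjoint automorphisms -/
theorem disjAut_of_not_connected {V : Type*} [Nonempty V] {X : SimpleGraph V}
    (h : ¬ X.Connected) : DisjAut (X □ X) := by
  classical
  have hnp : ¬ X.Preconnected := fun h2 => h ⟨h2⟩
  unfold SimpleGraph.Preconnected at hnp
  push Not at hnp
  obtain ⟨a, b, hab⟩ := hnp
  -- `S x`: `x` is in the component of `a`
  let S : V → Prop := fun x => X.Reachable a x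
  have Sa : S a := Reachable.refl _
  have Sb : ¬ S b := hab
  have Sadj : ∀ {x y}, X.Adj x y → (S x ↔ S y) := by
    intro x y hxy
    exact ⟨fun h => h.trans hxy.reachable, fun h => h.trans hxy.symm.reachable⟩
  -- membership is preserved by edges of the square
  have Sbox : ∀ {z w : V × V}, (X □ X).Adj z w → (S z.1 ↔ S w.1) ∧ (S z.2 ↔ S w.2) := by
    intro z w hzw
    rw [boxProd_adj] at hzw
    rcases hzw with ⟨h1, h2⟩ | ⟨h1, h2⟩
    · exact ⟨Sadj h1, by rw [h2]⟩
    · exact ⟨by rw [h2], Sadj h1⟩
  by_cases hthird : ∃ c, c ≠ a ∧ c ≠ b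
  · obtain ⟨c, hca, hcb⟩ := hthird
    have mk : ∀ Q : V × V → Prop, (∀ z w, (X □ X).Adj z w → (Q z ↔ Q w)) →
        (∀ z, Q z.swap ↔ Q z) → ∃ σ : (X □ X) ≃g (X □ X), ∀ z, σ z = if Q z then z.swap else z := by
      intro Q hQ hQ2
      refine ⟨isoOfInv (fun z => if Q z then z.swap else z) ?_ ?_, fun z => rfl⟩
      · intro z
        by_cases h1 : Q z
        · simp [h1, hQ2]
        · simp [h1]
      · intro z w hzw
        have h2 := hQ z w hzw
        by_cases h1 : Q z
        · rw [if_pos h1, if_pos (h2.1 h1)]
          rw [boxProd_adj] at hzw ⊢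
          simp only [Prod.fst_swap, Prod.snd_swap]
          tauto
        · rw [if_neg h1, if_neg (fun h3 => h1 (h2.2 h3))]
          exact hzw
    obtain ⟨σ, hσ⟩ := mk (fun z => (S z.1 ↔ S z.2)) (fun z w hzw => by
      have := Sbox hzw; rw [this.1, this.2]) (fun z => by simp only [Prod.fst_swap, Prod.snd_swap]; exact Iff.comm)
    obtain ⟨τ, hτ⟩ := mk (fun z => ¬ (S z.1 ↔ S z.2)) (fun z w hzw => by
      have := Sbox hzw; rw [this.1, this.2]) (fun z => by
        simp only [Prod.fst_swap, Prod.snd_swap]
        exact not_congr Iff.comm)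
    refine ⟨σ, τ, ?_, ?_, ⟨(a, b), ?_⟩⟩
    · intro z
      by_cases h1 : (S z.1 ↔ S z.2)
      · right; rw [hτ, if_neg (by simpa using h1)]
      · left; rw [hσ, if_neg h1]
    · by_cases hc : S c
      · refine ⟨(a, c), ?_⟩
        rw [hσ, if_pos (by simp [Sa, hc])]
        intro h2
        exact hca (congrArg Prod.fst h2)
      · refine ⟨(b, c), ?_⟩
        rw [hσ, if_pos (by simp [Sb, hc])]
        intro h2
        exact hcb (congrArg Prod.fst h2)
    · rw [hτ, if_pos (by simp [Sa, Sb])]
      intro h2
      have : b = a := congrArg Prod.fst h2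
      exact Sb (this ▸ Sa)
  · -- two vertices and no edges
    push Not at hthird
    have hX : ∀ x y, ¬ X.Adj x y := by
      intro x y hxy
      have h1 := Sadj hxy
      have key : ∀ z, (S z ↔ z = a) := by
        intro z
        constructor
        · intro hz
          by_contra h2
          exact Sb (hthird z h2 ▸ hz)
        · rintro rfl; exact Sa
      rw [key, key] at h1
      have hba : ∀ z, z ≠ a → z = b := hthird
      by_cases hx : x = a
      · exact hxy.ne (hx.trans (h1.1 hx).symm)
      · exact hxy.ne ((hba x hx).trans (hba y (fun h => hx (h1.2 h))).symm)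
    have hXX : ∀ z w, ¬ (X □ X).Adj z w := by
      intro z w h1
      rw [boxProd_adj] at h1
      rcases h1 with h1 | h1
      · exact hX _ _ h1.1
      · exact hX _ _ h1.1
    have hne : a ≠ b := by rintro rfl; exact Sb Sa
    refine ⟨isoOfInv (Equiv.swap (a, a) (a, b)) (fun z => by simp) (fun z w h => absurd h (hXX _ _)),
      isoOfInv (Equiv.swap (b, a) (b, b)) (fun z => by simp) (fun z w h => absurd h (hXX _ _)),
      ?_, ⟨(a, a), ?_⟩, ⟨(b, a), ?_⟩⟩
    · rintro ⟨z1, z2⟩
      rw [isoOfInv_apply, isoOfInv_apply]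
      by_cases h1 : z1 = a
      · right
        apply Equiv.swap_apply_of_ne_of_ne
        · intro h2; exact hne (h1.symm.trans (congrArg Prod.fst h2))
        · intro h2; exact hne (h1.symm.trans (congrArg Prod.fst h2))
      · left
        apply Equiv.swap_apply_of_ne_of_ne
        · intro h2; exact h1 (congrArg Prod.fst h2)
        · intro h2; exact h1 (congrArg Prod.fst h2)
    · rw [isoOfInv_apply, Equiv.swap_apply_left]
      intro h2
      exact hne (congrArg Prod.snd h2).symm
    · rw [isoOfInv_apply, Equiv.swap_apply_left]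
      intro h2
      exact hne (congrArg Prod.snd h2).symm

/-- the square of a graph with a factor `K₂` has two disjoint automorphisms -/
theorem disjAut_of_K2 {V W : Type*} [Nonempty V] {X : SimpleGraph V} {Y : SimpleGraph W}
    (e : X ≃g (⊤ : SimpleGraph Bool) □ Y) : DisjAut (X □ X) := by
  classical
  have w₀ : W := (e (Classical.arbitrary V)).2
  have key : DisjAut (((⊤ : SimpleGraph Bool) □ Y) □ ((⊤ : SimpleGraph Bool) □ Y)) := by
    let fl : (Bool × W) × (Bool × W) → (Bool × W) × (Bool × W) :=
      fun z => ((!z.1.1, z.1.2), (!z.2.1, z.2.2))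
    have mk : ∀ β : Bool, ∃ σ : (((⊤ : SimpleGraph Bool) □ Y) □ ((⊤ : SimpleGraph Bool) □ Y)) ≃g
        (((⊤ : SimpleGraph Bool) □ Y) □ ((⊤ : SimpleGraph Bool) □ Y)),
        ∀ z, σ z = if xor z.1.1 z.2.1 = β then fl z else z := by
      intro β
      refine ⟨isoOfInv (fun z => if xor z.1.1 z.2.1 = β then fl z else z) ?_ ?_, fun z => rfl⟩
      · rintro ⟨⟨a, y⟩, ⟨b, z⟩⟩
        cases a <;> cases b <;> cases β <;> simp [fl]
      · rintro ⟨⟨a, y⟩, ⟨b, z⟩⟩ ⟨⟨a', y'⟩, ⟨b', z'⟩⟩ h
        simp only [boxProd_adj, top_adj] at h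
        cases a <;> cases b <;> cases a' <;> cases b' <;> cases β <;>
          simp_all [fl, boxProd_adj]
    obtain ⟨σ, hσ⟩ := mk false
    obtain ⟨τ, hτ⟩ := mk true
    refine ⟨σ, τ, ?_, ⟨((false, w₀), (false, w₀)), ?_⟩, ⟨((false, w₀), (true, w₀)), ?_⟩⟩
    · intro z
      rw [hσ, hτ]
      cases h : xor z.1.1 z.2.1 <;> simp
    · rw [hσ]; simp [fl]
    · rw [hτ]; simp [fl]
  exact key.transport (boxCongr e e).symm

end QSym
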