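import Pool.Agent.Lib.MP_a717c1_al.Elim

/-!
# No edge has `t = 1/2`
-/

set_option linter.unusedSectionVars false
set_option linter.unusedDecidableInType false

namespace QSym

open Finset SimpleGraph

variable {V V₁ V₂ : Type*} [Fintype V] [Fintype V₁] [Fintype V₂]
variable {A : Type*} [Ring A] [StarRing A] [FReal A]
variable {G : SimpleGraph V} {G₁ : SimpleGraph V₁} {G₂ : SimpleGraph V₂}
variable {u : V → V₁ × V₂ → A}

section

variable (hu : QI G (G₁ □ G₂) u)
include hu

theorem QI.tw_of_half (h1 : (1 : A) ≠ 0) {a b : V} (hab : G.Adj a b)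
    (h : tt u a b + tt u a b = 1) : Tw G u a b := by
  rw [hu.tw_iff hab]
  intro h2
  apply h1
  have h3 : tt u a b = tt u a b + tt u a b := by
    calc tt u a b = tt u a b * (tt u a b + tt u a b) := by rw [h, mul_one]
      _ = tt u a b * tt u a b + tt u a b * tt u a b := by rw [mul_add]
      _ = _ := by rw [h2]
  have h4 : tt u a b = 0 := by
    have : tt u a b + 0 = tt u a b + tt u a b := by rw [add_zero]; exact h3
    exact (add_left_cancel this).symm
  rw [← h, h4, add_zero]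

theorem QI.exists_RotD (hG : G.Connected) (hC : NoRotCol G) (hB : NoK2 G)
    (h1 : (1 : A) ≠ 0) {a b : V} (hab : G.Adj a b)
    (h : tt u a b + tt u a b = 1) : ∃ r : RotD G u, r.ρ a = b := by
  obtain ⟨D₀, ρ, hD, hρ, hs, he⟩ := hu.tw_exists_rot hG hC hB (hu.tw_of_half h1 hab h)
  obtain ⟨d1, d2⟩ := hu.rot_data hG hC hD hρ hs
  refine ⟨⟨ρ, hh u a b, hh u b a, (hu.star_hh a b).symm, hρ, ?_, d2, ?_, h, ?_⟩, he⟩
  · intro x; rw [d1 x a, he]
  · rw [← hu.two_tt hab]; exact h
  · have := hu.tt_symm hab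
    rw [this] at h
    exact h

theorem RotD.P_inv (r₁ r : RotD G u) :
    ((r.k = r₁.g ∨ r.k = r₁.k) ↔ (r.g = r₁.g ∨ r.g = r₁.k)) := by
  have h1 : ∀ {x y : A}, star x = star y ↔ x = y := star_inj
  rw [r.hk, r₁.hk]
  constructor
  · rintro (h | h)
    · right; rw [← h, star_star]
    · left; exact h1.1 h
  · rintro (h | h)
    · right; rw [h]
    · left; rw [h, star_star]

/-- There is no edge with `t = 1/2` if all `t` are `0`, `1` or `1/2`. -/
theorem QI.no_half (hG : G.Connected) (hC : NoRotCol G) (hB : NoK2 G) (h1 : (1 : A) ≠ 0)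
    (hall : ∀ x y, G.Adj x y → tt u x y = 0 ∨ tt u x y = 1 ∨ tt u x y + tt u x y = 1)
    {a b : V} (hab : G.Adj a b) : tt u a b + tt u a b ≠ 1 := by
  classical
  intro hhalf
  have : Nonempty V := ⟨a⟩
  obtain ⟨r₁, hr₁⟩ := hu.exists_RotD hG hC hB h1 hab hhalf
  let P : RotD G u → Prop := fun r => r.g = r₁.g ∨ r.g = r₁.k
  have hP : ∀ r, P (r.inv' hu) ↔ P r := fun r => RotD.P_inv hu r₁ r
  have hP2 : ∀ r r', r.g = r'.k → (P r ↔ P r') := by
    intro r r' h
    change (r.g = r₁.g ∨ r.g = r₁.k) ↔ (r'.g = r₁.g ∨ r'.g = r₁.k)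
    rw [h]
    exact RotD.P_inv hu r₁ r'
  have walk : ∀ y, Relation.ReflTransGen (NE G r₁.ρ) a y →
      ∃ L : List (RotD G u), cnt P L = 0 ∧ QQ G u a (rho L y) := by
    intro y hy
    induction hy with
    | refl => exact ⟨[], rfl, QQ_refl a⟩
    | @tail y z _ hyz ih =>
      obtain ⟨L, hL, hQ⟩ := ih
      rcases hall y z hyz.1 with h | h | h
      · refine ⟨L, hL, hu.QQ_trans h1 hQ (QQ_rho L ?_)⟩
        exact ⟨y, Relation.ReflTransGen.refl,
          Relation.ReflTransGen.single ⟨hyz.1, hu.hh_zero_of_tt hyz.1 h⟩⟩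
      · refine ⟨L, hL, hu.QQ_trans h1 hQ (QQ_rho L ?_)⟩
        exact ⟨z, Relation.ReflTransGen.single ⟨hyz.1, hu.hh_one_of_tt hyz.1 h⟩,
          Relation.ReflTransGen.refl⟩
      · obtain ⟨r, hr⟩ := hu.exists_RotD hG hC hB h1 hyz.1 h
        have hnP : ¬ P r := by
          have tw := hu.tw_of_half h1 hyz.1 h
          have e0 : r.g = hh u y z := by rw [← r.hg y, hr]
          rintro (h2 | h2)
          · refine hu.tw_ne_hh tw (r₁.rot.move y) hyz.2.1 ?_
            rw [← e0, h2, r₁.hg]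
          · refine hu.tw_ne_hh tw (r₁.rot.move' y) ?_ ?_
            · intro h3
              apply hyz.2.2
              rw [h3, Equiv.apply_symm_apply]
            · rw [← e0, h2, r₁.hg' hu]
        refine ⟨r.inv' hu :: L, ?_, ?_⟩
        · unfold cnt
          rw [if_neg (fun h => hnP ((hP r).1 h)), hL]
        · have : rho (r.inv' hu :: L) z = rho L y := by
            change rho L (r.ρ.symm z) = rho L y
            rw [← hr, Equiv.symm_apply_apply]
          rw [this]
          exact hQ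
  obtain ⟨L, hL, hQ⟩ := walk (r₁.ρ a) (rot_connected hG hC r₁.rot _ _)
  have hodd : Odd (cnt P (r₁ :: L)) := by
    unfold cnt
    rw [if_pos (Or.inl rfl), hL]
    decide
  have hQ' : QQ G u a (rho (r₁ :: L) a) := hQ
  exact hu.claim h1 P hP hP2 _ (r₁ :: L) rfl hodd a (hu.QQ_trans h1 hQ' (QQ_rho _ hQ'))

end

end QSym
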