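import Pool.Agent.Lib.MP_a717c1_al.Square

/-!
# Squares: the main theorem over formally real star rings
-/

set_option linter.unusedSectionVars false
set_option linter.unusedDecidableInType false

namespace QSym

open Finset SimpleGraph Relation

section ext

variable {V : Type*} [Fintype V] {A : Type*} [Ring A] [StarRing A] [FReal A]

/-- A quantum automorphism over a corner extends by the identity. -/
theorem QI.extend {G : SimpleGraph V} {P : A} (hP : IsPr P) {W : V → V → Cor hP}
    (hW : QI G G W) [DecidableEq V] :
    QI G G (fun p q => (W p q).val + if p = q then 1 - P else 0) where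
  star_eq p q := by
    rw [star_add, ← Cor.val_star, hW.star_eq]
    congr 1
    split_ifs
    · rw [star_sub, star_one, hP.star_eq]
    · exact star_zero _
  mul_self p q := by
    have h1 : (W p q).val * (W p q).val = (W p q).val := by
      rw [← Cor.val_mul, hW.mul_self]
    have h2 := (W p q).left
    have h3 := (W p q).right
    have h4 := hP.idem.eq
    split_ifs
    · have : ((W p q).val + (1 - P)) * ((W p q).val + (1 - P)) =
        (W p q).val * (W p q).val + ((W p q).val - (W p q).val * P) +
          ((W p q).val - P * (W p q).val) + (1 - P - P + P * P) := by noncomm_ring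
      rw [this, h1, h2, h3, h4]
      noncomm_ring
    · rw [add_zero, h1]
  row p := by
    rw [Finset.sum_add_distrib, ← Cor.val_sum, hW.row]
    simp
  col q := by
    rw [Finset.sum_add_distrib, ← Cor.val_sum, hW.col]
    simp
  adj p p' q q' h := by
    by_cases h1 : p = q ∧ p' = q'
    · rw [h1.1, h1.2]
    · apply hW.adj
      intro h2
      apply h
      have h3 : (W p q).val * (W p' q').val = 0 := by rw [← Cor.val_mul, h2]; rfl
      have h4 : (W p q).val * (1 - P) = 0 := by
        rw [mul_sub, mul_one, (W p q).right, sub_self]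
      have h5 : (1 - P) * (W p' q').val = 0 := by
        rw [sub_mul, one_mul, (W p' q').left, sub_self]
      by_cases h6 : p = q
      · have h7 : p' ≠ q' := fun h7 => h1 ⟨h6, h7⟩
        rw [if_pos h6, if_neg h7, add_zero, add_mul, h3, h5, add_zero]
      · rw [if_neg h6, add_zero, mul_add, h3, zero_add]
        split_ifs
        · exact h4
        · exact mul_zero _

theorem Rig.corner {G : SimpleGraph V} (hR : Rig G A) {P : A} (hP : IsPr P) :
    Rig G (Cor hP) := by
  classical
  intro W hW i j k l
  have h := hR _ (hW.extend hP) i j k l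
  apply Cor.ext
  rw [Cor.val_mul, Cor.val_mul]
  have h4 : ∀ p q, (W p q).val * (1 - P) = 0 := fun p q => by
    rw [mul_sub, mul_one, (W p q).right, sub_self]
  have h5 : ∀ p q, (1 - P) * (W p q).val = 0 := fun p q => by
    rw [sub_mul, one_mul, (W p q).left, sub_self]
  have key : ∀ i j k l, ((W i j).val + if i = j then 1 - P else 0) *
      ((W k l).val + if k = l then 1 - P else 0) = (W i j).val * (W k l).val +
        (if i = j then 1 - P else 0) * (if k = l then 1 - P else 0) := by
    intro i j k l
    rw [add_mul, mul_add, mul_add]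
    have e1 : (W i j).val * (if k = l then 1 - P else 0) = 0 := by
      split_ifs
      · exact h4 _ _
      · exact mul_zero _
    have e2 : (if i = j then 1 - P else 0) * (W k l).val = 0 := by
      split_ifs
      · exact h5 _ _
      · exact zero_mul _
    rw [e1, e2, add_zero, zero_add]
  rw [key, key] at h
  have e3 : (if i = j then 1 - P else 0) * (if k = l then 1 - P else 0) =
      (if k = l then 1 - P else 0) * (if i = j then 1 - P else 0) := by
    split_ifs <;> simp
  rw [e3] at h
  exact add_right_cancel h

theorem Rig.iso {W : Type*} [Fintype W] {G : SimpleGraph V} {H : SimpleGraph W} (e : G ≃g H)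
    (hR : Rig G A) : Rig H A := by
  intro u hu i j k l
  have h1 := (hu.source e.symm).target e.symm
  have := hR _ h1 (e.symm i) (e.symm j) (e.symm k) (e.symm l)
  simpa using this

end ext

theorem IsPr.mul {A : Type*} [Ring A] [StarRing A] {P Q : A} (hP : IsPr P) (hQ : IsPr Q)
    (hPQ : P * Q = Q * P) : IsPr (P * Q) := by
  refine ⟨?_, ?_⟩
  · rw [star_mul, hP.star_eq, hQ.star_eq, hPQ]
  · change P * Q * (P * Q) = P * Q
    have h1 := hP.idem.eq
    have h2 := hQ.idem.eq
    calc P * Q * (P * Q) = P * (Q * P) * Q := by noncomm_ring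
      _ = (P * P) * (Q * Q) := by rw [← hPQ]; noncomm_ring
      _ = P * Q := by rw [h1, h2]

theorem IsPr.compl {A : Type*} [Ring A] [StarRing A] {P : A} (hP : IsPr P) : IsPr (1 - P) := by
  refine ⟨?_, ?_⟩
  · rw [star_sub, star_one, hP.star_eq]
  · change (1 - P) * (1 - P) = 1 - P
    have h1 := hP.idem.eq
    calc (1 - P) * (1 - P) = 1 - P - P + P * P := by noncomm_ring
      _ = 1 - P := by rw [h1]; noncomm_ring

section

variable {J : Type*} [Fintype J] [DecidableEq J] {V : J → Type*} [∀ j, Fintype (V j)]
  [∀ j, DecidableEq (V j)]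
variable {A : Type*} [Ring A] [StarRing A] [FReal A]
variable {x : ∀ j, SimpleGraph (V j)} {u : (∀ j, V j) → (∀ j, V j) → A}

theorem CommU.us {P : A} (h : CommU u P) (k : J) : CommU (QSym.us x u k) P :=
  fun z w => h z _

theorem decide_slots
    (hN : ∀ k z z', (PiBox x).Adj z z' → IsPr (hh (us x u k) z z') ∧
      CommU u (hh (us x u k) z z')) {x₀ : A} (hx : x₀ ≠ 0)
    (s : Finset (J × (∀ j, V j) × (∀ j, V j))) :
    ∃ P, IsPr P ∧ CommU u P ∧ P * x₀ ≠ 0 ∧ ∀ e ∈ s, (PiBox x).Adj e.2.1 e.2.2 →
      P * hh (us x u e.1) e.2.1 e.2.2 = 0 ∨ P * hh (us x u e.1) e.2.1 e.2.2 = P := by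
  classical
  induction s using Finset.induction_on with
  | empty =>
    exact ⟨1, ⟨star_one _, by simp [IsIdempotentElem]⟩, fun z w => by simp, by simpa using hx,
      by simp⟩
  | insert e s _ ih =>
    obtain ⟨P, h1, h2, h3, h4⟩ := ih
    by_cases he : (PiBox x).Adj e.2.1 e.2.2
    · obtain ⟨n1, n2⟩ := hN e.1 e.2.1 e.2.2 he
      have hcm : P * hh (us x u e.1) e.2.1 e.2.2 = hh (us x u e.1) e.2.1 e.2.2 * P :=
        (h2.us (x := x) e.1).hh e.2.1 e.2.2
      set h := hh (us x u e.1) e.2.1 e.2.2
      have n3 := n1.compl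
      have hcm' : P * (1 - h) = (1 - h) * P := by
        rw [mul_sub, sub_mul, hcm, mul_one, one_mul]
      have hh2 := n1.idem.eq
      by_cases h5 : P * h * x₀ = 0
      · refine ⟨P * (1 - h), h1.mul n3 hcm', ?_, ?_, ?_⟩
        · intro z w
          rw [mul_assoc, sub_mul, one_mul, n2 z w]
          have : u z w - u z w * h = u z w * (1 - h) := by rw [mul_sub, mul_one]
          rw [this, ← mul_assoc, h2, mul_assoc]
        · intro h6
          apply h3
          have : P * x₀ = P * h * x₀ + P * (1 - h) * x₀ := by noncomm_ring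
          rw [this, h5, h6, add_zero]
        · intro f hf hadj
          rcases Finset.mem_insert.1 hf with rfl | hf
          · left
            change P * (1 - h) * h = 0
            rw [mul_assoc, sub_mul, one_mul, hh2, sub_self, mul_zero]
          · rw [hcm', mul_assoc]
            rcases h4 f hf hadj with h7 | h7
            · left; rw [h7, mul_zero]
            · right; rw [h7]
      · refine ⟨P * h, h1.mul n1 hcm, ?_, h5, ?_⟩
        · intro z w
          rw [mul_assoc, n2, ← mul_assoc, h2, mul_assoc]
        · intro f hf hadj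
          rcases Finset.mem_insert.1 hf with rfl | hf
          · right
            change P * h * h = P * h
            rw [mul_assoc, hh2]
          · rw [hcm, mul_assoc]
            rcases h4 f hf hadj with h7 | h7
            · left; rw [h7, mul_zero]
            · right; rw [h7]
    · refine ⟨P, h1, h2, h3, ?_⟩
      intro f hf hadj
      rcases Finset.mem_insert.1 hf with rfl | hf
      · exact absurd hadj he
      · exact h4 f hf hadj

end

section

variable {ι : Type*} [Fintype ι] [DecidableEq ι] {V : ι → Type*} [∀ i, Fintype (V i)]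
  [∀ i, DecidableEq (V i)]
variable {A : Type*} [Ring A] [StarRing A] [FReal A]
variable {x : ∀ i, SimpleGraph (V i)}
variable {u : (∀ j : ι × Bool, V j.1) → (∀ j : ι × Bool, V j.1) → A}

theorem decided_comm
    (hu : QI (PiBox (fun j : ι × Bool => x j.1)) (PiBox (fun j : ι × Bool => x j.1)) u)
    (h1 : (1 : A) ≠ 0) (hd : Decided (fun j : ι × Bool => x j.1) u)
    (hZ : (PiBox (fun j : ι × Bool => x j.1)).Connected)
    (hc : ∀ i, (x i).Connected) (hp : ∀ i, PrimeG (x i)) (hn : ∀ i, Nontrivial (V i))
    (hR : Rig (PiBox x) A) (z w z' w' : ∀ j : ι × Bool, V j.1) :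
    u z w * u z' w' = u z' w' * u z w := by
  obtain ⟨σ, hσ⟩ := hu.exists_sigma h1 hd hZ (fun j => hp j.1) (fun j => hn j.1)
  have hsurj := hu.sigma_surj (J := ι × Bool) h1 hd (fun j => hc j.1) (fun j => hn j.1) hσ
  have hb : Function.Bijective σ := Finite.surjective_iff_bijective.1 hsurj
  obtain ⟨s, b, f, f', hf, hf'⟩ := selection σ hb
  -- the same slot
  have same : ∀ (k : ι × Bool) (z z' : ∀ j : ι × Bool, V j.1) (c c' : V k.1),
      Ck u k z c * Ck u k z' c' = Ck u k z' c' * Ck u k z c := by
    rintro ⟨k, β⟩ z z' c c'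
    by_cases hβ : β = b k
    · have h2 := hu.Ck_commute hd hc hσ hb hf hR (f.symm k) z z'
      rw [Equiv.apply_symm_apply] at h2
      rw [hβ]
      exact h2 c c'
    · have hβ' : β = !(b k) := by
        cases β <;> cases h : b k <;> simp_all
      have h2 := hu.Ck_commute (s := fun i => !(s i)) (b := fun i => !(b i)) hd hc hσ hb hf' hR
        (f'.symm k) z z'
      rw [Equiv.apply_symm_apply] at h2
      rw [hβ']
      exact h2 c c'
  -- all slots
  have all : ∀ (k k' : ι × Bool) (z z' : ∀ j : ι × Bool, V j.1) (c : V k.1) (c' : V k'.1),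
      Ck u k z c * Ck u k' z' c' = Ck u k' z' c' * Ck u k z c := by
    intro k k' z z' c c'
    by_cases hk : k = k'
    · subst hk; exact same k z z' c c'
    · obtain ⟨j, hj⟩ := hb.2 k
      obtain ⟨j', hj'⟩ := hb.2 k'
      have hjj : j ≠ j' := by
        rintro rfl
        exact hk (hj.symm.trans hj')
      set y := Function.update z j' (z' j') with hy
      have e1 : Ck u k z c = Ck u k y c := by
        refine hu.Ck_dep (J := ι × Bool) (k := k) hd (fun j => hc j.1) hσ ?_ c
        intro i hi
        have : i = j := hb.1 (hi.trans hj.symm)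
        subst this
        rw [hy, Function.update_of_ne hjj]
      have e2 : Ck u k' z' c' = Ck u k' y c' := by
        refine hu.Ck_dep (J := ι × Bool) (k := k') hd (fun j => hc j.1) hσ ?_ c'
        intro i hi
        have : i = j' := hb.1 (hi.trans hj'.symm)
        subst this
        simp [hy]
      rw [e1, e2]
      exact hu.Ck_comm y k k' c c'
  have step : ∀ (k : ι × Bool) (z' : ∀ j : ι × Bool, V j.1) (c : V k.1),
      Ck u k z' c * u z w = u z w * Ck u k z' c := by
    intro k z' c
    exact hu.comm_of_Ck (J := ι × Bool) z w (fun k' c' => all _ _ _ _ _ _)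
  exact (hu.comm_of_Ck (J := ι × Bool) z' w' (fun k c => (step k z' c).symm))

/-- Main theorem over a formally real star ring, for products of primes. -/
theorem rig_square_pi (hZ : (PiBox (fun j : ι × Bool => x j.1)).Connected)
    (hC : NoRotCol (PiBox (fun j : ι × Bool => x j.1)))
    (hB : NoK2 (PiBox (fun j : ι × Bool => x j.1)))
    (hc : ∀ i, (x i).Connected) (hp : ∀ i, PrimeG (x i)) (hn : ∀ i, Nontrivial (V i))
    (hR : Rig (PiBox x) A) : Rig (PiBox (fun j : ι × Bool => x j.1)) A := by
  intro u hu z w z' w'
  by_contra hne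
  have hN : ∀ k z z', (PiBox (fun j : ι × Bool => x j.1)).Adj z z' →
      IsPr (hh (us (fun j : ι × Bool => x j.1) u k) z z') ∧
      CommU u (hh (us (fun j : ι × Bool => x j.1) u k) z z') := by
    intro k z z' hz
    obtain ⟨h1, h2⟩ := (hu.slot k).hh_idem hZ hC hB hz
    refine ⟨h1.pr, ?_⟩
    intro y w
    have := h1.comm y (slotIso (fun j : ι × Bool => x j.1) k w)
    rwa [us_apply] at this
  obtain ⟨P, p1, p2, p3, p4⟩ := decide_slots hN (sub_ne_zero.2 hne) Finset.univ
  have hP0 : P ≠ 0 := by
    rintro rfl
    exact p3 (zero_mul _)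
  have h6 := hu.corner p1 p2
  have hd : Decided (fun j : ι × Bool => x j.1) (cu p1 u p2) := by
    intro k y y' hy
    have e : (hh (us (fun j : ι × Bool => x j.1) (cu p1 u p2) k) y y').val =
        P * hh (us (fun j : ι × Bool => x j.1) u k) y y' :=
      cu_hh p1 (p2.us (x := fun j : ι × Bool => x j.1) k) y y'
    rcases p4 (k, y, y') (Finset.mem_univ _) hy with h | h
    · left; apply Cor.ext; rw [e]; exact h
    · right; apply Cor.ext; rw [e]; exact h
  have h7 := decided_comm h6 (Cor.one_ne_zero hP0) hd hZ hc hp hn (hR.corner p1) z w z' w'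
  apply p3
  have h8 := congrArg Cor.val h7
  rw [Cor.val_mul, Cor.val_mul, cu_val, cu_val] at h8
  have e1 : P * u z w * (P * u z' w') = P * (u z w * u z' w') := by
    rw [mul_assoc, ← mul_assoc (u z w), ← p2, mul_assoc P (u z w), ← mul_assoc, p1.idem.eq]
  have e2 : P * u z' w' * (P * u z w) = P * (u z' w' * u z w) := by
    rw [mul_assoc, ← mul_assoc (u z' w'), ← p2, mul_assoc P (u z' w'), ← mul_assoc, p1.idem.eq]
  rw [e1, e2] at h8
  rw [mul_sub, h8, sub_self]

end

end QSym
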