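import Pool.Agent.Lib.MP_a717c1_al.MainFReal

/-!
# Squares: the main theorem over formally real star rings, for arbitrary connected graphs
-/

set_option linter.unusedSectionVars false
set_option linter.unusedDecidableInType false

namespace QSym

open Finset SimpleGraph Relation

theorem iso_symm_adj {V W : Type*} {G : SimpleGraph V} {H : SimpleGraph W} (e : G ≃g H) {a b : W} :
    G.Adj (e.symm a) (e.symm b) ↔ H.Adj a b := e.symm.map_adj_iff

theorem IsK2.transport {V W : Type*} {G : SimpleGraph V} {H : SimpleGraph W} (e : G ≃g H)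
    {φ : V → V} {c : V → Prop} (h : IsK2 G φ c) :
    IsK2 H (fun y => e (φ (e.symm y))) (fun y => c (e.symm y)) where
  inv y := by simp [h.inv]
  move y := by
    have := e.map_adj_iff.2 (h.move (e.symm y))
    simpa using this
  adj a b hab := e.map_adj_iff.2 (h.adj _ _ ((iso_symm_adj e).2 hab))
  col a b hab := by
    rw [h.col _ _ ((iso_symm_adj e).2 hab)]
    constructor
    · intro h2; rw [← h2]; simp
    · intro h2; rw [h2]; simp

theorem IsRC.transport {V W : Type*} {G : SimpleGraph V} {H : SimpleGraph W} (e : G ≃g H)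
    {ρ : V → V} {c : V → Prop} (h : IsRC G ρ c) :
    IsRC H (fun y => e (ρ (e.symm y))) (fun y => c (e.symm y)) where
  adj a b hab := e.map_adj_iff.2 (h.adj _ _ ((iso_symm_adj e).2 hab))
  move y := by
    have := e.map_adj_iff.2 (h.move (e.symm y))
    simpa using this
  four y := by simp [h.four]
  two y := by
    intro h2
    apply h.two (e.symm y)
    have := congrArg e.symm h2
    simpa using this
  col a b hab := by
    rw [h.col _ _ ((iso_symm_adj e).2 hab)]
    have key : ∀ a b, e.symm b = ρ (e.symm a) ↔ b = e (ρ (e.symm a)) := by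
      intro a b
      constructor
      · intro h2; rw [← h2]; simp
      · intro h2; rw [h2]; simp
    rw [key, key]

theorem NoRotCol_of {V : Type*} [Fintype V] {G : SimpleGraph V} (h : ∀ ρ c, ¬ IsRC G ρ c) : NoRotCol G := by
  intro ρ hρ c hc
  exact h ρ c ⟨hρ.adj, hρ.move, hρ.four, hρ.sq_ne_self, hc⟩

/-- **Main theorem** over a formally real star ring. -/
theorem rig_square {V : Type} [Fintype V] {A : Type*} [Ring A] [StarRing A] [FReal A]
    (X : SimpleGraph V) (hX : X.Connected) (hK : ∀ φ c, ¬ IsK2 X φ c) (hD : ¬ DisjAut X)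
    (hR : Rig X A) : Rig (X □ X) A := by
  classical
  have hne : Nonempty V := hX.nonempty
  obtain ⟨ι, _, V', _, x, hp, hc, hn, ⟨e⟩⟩ := exists_prime_decomp _ V X hX rfl
  have E : PiBox (fun j : ι × Bool => x j.1) ≃g (X □ X) :=
    (squareIso x).trans (boxCongr e e).symm
  have hXX : (X □ X).Connected := hX.boxProd hX
  have hZ : (PiBox (fun j : ι × Bool => x j.1)).Connected := E.connected_iff.2 hXX
  have hK' : ∀ φ c, ¬ IsK2 (PiBox (fun j : ι × Bool => x j.1)) φ c := by
    intro φ c h
    rcases K2_box hXX (h.transport E) with ⟨φ', c', h'⟩ | ⟨φ', c', h'⟩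
    · exact hK _ _ h'
    · exact hK _ _ h'
  have hC' : ∀ ρ c, ¬ IsRC (PiBox (fun j : ι × Bool => x j.1)) ρ c := by
    intro ρ c h
    rcases RC_box hXX (h.transport E) with ⟨φ', c', h'⟩ | ⟨φ', c', h'⟩ | ⟨φ', c', h'⟩
    · exact hK _ _ h'
    · exact hD h'.disjAut
    · exact hD h'.disjAut
  have := rig_square_pi (A := A) hZ (NoRotCol_of hC') hK' hc hp hn (hR.iso e)
  exact this.iso E

end QSym
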