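import Pool.Agent.Lib.MP_a717c1_al.BoxComb

/-!
# Cartesian products of finite families of graphs
-/

set_option linter.unusedSectionVars false
set_option linter.unusedDecidableInType false

namespace QSym

open Finset SimpleGraph

universe v

/-- Cartesian product of a family of graphs. -/
def PiBox {ι : Type*} {V : ι → Type*} (x : ∀ i, SimpleGraph (V i)) : SimpleGraph (∀ i, V i) where
  Adj p q := ∃ i, (x i).Adj (p i) (q i) ∧ ∀ j, j ≠ i → p j = q j
  symm := ⟨by rintro p q ⟨i, h1, h2⟩; exact ⟨i, h1.symm, fun j hj => (h2 j hj).symm⟩⟩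
  loopless := ⟨by rintro p ⟨i, h1, _⟩; exact h1.ne rfl⟩

theorem piBox_adj {ι : Type*} {V : ι → Type*} {x : ∀ i, SimpleGraph (V i)} {p q : ∀ i, V i} :
    (PiBox x).Adj p q ↔ ∃ i, (x i).Adj (p i) (q i) ∧ ∀ j, j ≠ i → p j = q j := Iff.rfl

/-- congruence of box products -/
def boxCongr {V₁ V₂ W₁ W₂ : Type*} {G₁ : SimpleGraph V₁} {G₂ : SimpleGraph V₂}
    {H₁ : SimpleGraph W₁} {H₂ : SimpleGraph W₂} (e : G₁ ≃g H₁) (f : G₂ ≃g H₂) :
    (G₁ □ G₂) ≃g (H₁ □ H₂) where
  toEquiv := Equiv.prodCongr e.toEquiv f.toEquiv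
  map_rel_iff' := by
    rintro ⟨a, b⟩ ⟨c, d⟩
    simp only [boxProd_adj, Equiv.prodCongr_apply, Prod.map_apply,
      EmbeddingLike.apply_eq_iff_eq]
    have h1 : H₁.Adj (e.toEquiv a) (e.toEquiv c) ↔ G₁.Adj a c := e.map_adj_iff
    have h2 : H₂.Adj (f.toEquiv b) (f.toEquiv d) ↔ G₂.Adj b d := f.map_adj_iff
    rw [h1, h2]

section slot

variable {ι : Type*} [DecidableEq ι] {V : ι → Type*} (x : ∀ i, SimpleGraph (V i))

/-- One factor versus all the others. -/
def slotIso (k : ι) : PiBox x ≃g ((x k) □ (PiBox (fun j : {j // j ≠ k} => x j))) where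
  toEquiv := Equiv.piSplitAt k V
  map_rel_iff' := by
    intro p q
    simp only [boxProd_adj, Equiv.piSplitAt_apply, piBox_adj]
    constructor
    · rintro (⟨h1, h2⟩ | ⟨⟨⟨j, hj⟩, h1, h2⟩, h3⟩)
      · exact ⟨k, h1, fun j hj => congrFun h2 ⟨j, hj⟩⟩
      · refine ⟨j, h1, fun j' hj' => ?_⟩
        by_cases h4 : j' = k
        · subst h4; exact h3
        · exact h2 ⟨j', h4⟩ (by simpa using hj')
    · rintro ⟨i, h1, h2⟩
      by_cases h3 : i = k
      · subst h3
        left
        exact ⟨h1, funext fun j => h2 j.1 j.2⟩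
      · right
        exact ⟨⟨⟨i, h3⟩, h1, fun j hj => h2 j.1 (fun h4 => hj (Subtype.ext h4))⟩,
          h2 k (Ne.symm h3)⟩

theorem slotIso_apply (k : ι) (p : ∀ i, V i) : slotIso x k p = (p k, fun j : {j // j ≠ k} => p j) := rfl

end slot

/-- graph families on a sum type -/
def sumFam {ι ι' : Type*} {V : ι → Type v} {V' : ι' → Type v} (x : ∀ i, SimpleGraph (V i))
    (x' : ∀ i, SimpleGraph (V' i)) : ∀ s : ι ⊕ ι', SimpleGraph (Sum.elim V V' s)
  | Sum.inl i => x i
  | Sum.inr i => x' i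

def sumIso {ι ι' : Type*} {V : ι → Type v} {V' : ι' → Type v} (x : ∀ i, SimpleGraph (V i))
    (x' : ∀ i, SimpleGraph (V' i)) : PiBox (sumFam x x') ≃g ((PiBox x) □ (PiBox x')) where
  toEquiv := Equiv.sumPiEquivProdPi _
  map_rel_iff' := by
    intro p q
    simp only [boxProd_adj, piBox_adj]
    constructor
    · rintro (⟨⟨i, h1, h2⟩, h3⟩ | ⟨⟨i, h1, h2⟩, h3⟩)
      · refine ⟨Sum.inl i, h1, ?_⟩
        rintro (j | j) hj
        · exact h2 j (fun h => hj (by rw [h]))
        · exact congrFun h3 j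
      · refine ⟨Sum.inr i, h1, ?_⟩
        rintro (j | j) hj
        · exact congrFun h3 j
        · exact h2 j (fun h => hj (by rw [h]))
    · rintro ⟨i | i, h1, h2⟩
      · left
        exact ⟨⟨i, h1, fun j hj => h2 (Sum.inl j) (fun h => hj (Sum.inl_injective h))⟩,
          funext fun j => h2 (Sum.inr j) (by simp)⟩
      · right
        exact ⟨⟨i, h1, fun j hj => h2 (Sum.inr j) (fun h => hj (Sum.inr_injective h))⟩,
          funext fun j => h2 (Sum.inl j) (by simp)⟩

/-- The square of a product is the product over `ι × Bool`. -/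
def squareIso {ι : Type*} {V : ι → Type*} (x : ∀ i, SimpleGraph (V i)) :
    PiBox (fun j : ι × Bool => x j.1) ≃g ((PiBox x) □ (PiBox x)) where
  toFun w := (fun i => w (i, true), fun i => w (i, false))
  invFun pq := fun j => if j.2 = true then pq.1 j.1 else pq.2 j.1
  left_inv w := by
    funext ⟨i, b⟩
    cases b <;> simp
  right_inv pq := by
    apply Prod.ext <;> funext i <;> simp
  map_rel_iff' := by
    intro p q
    simp only [boxProd_adj, Equiv.coe_fn_mk, piBox_adj]
    constructor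
    · rintro (⟨⟨i, h1, h2⟩, h3⟩ | ⟨⟨i, h1, h2⟩, h3⟩)
      · refine ⟨(i, true), h1, ?_⟩
        rintro ⟨j, b⟩ hj
        cases b
        · exact congrFun h3 j
        · exact h2 j (fun h => hj (by rw [h]))
      · refine ⟨(i, false), h1, ?_⟩
        rintro ⟨j, b⟩ hj
        cases b
        · exact h2 j (fun h => hj (by rw [h]))
        · exact congrFun h3 j
    · rintro ⟨⟨i, b⟩, h1, h2⟩
      cases b
      · right
        exact ⟨⟨i, h1, fun j hj => h2 (j, false) (by simpa using hj)⟩,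
          funext fun j => h2 (j, true) (by simp)⟩
      · left
        exact ⟨⟨i, h1, fun j hj => h2 (j, true) (by simpa using hj)⟩,
          funext fun j => h2 (j, false) (by simp)⟩

end QSym
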