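import Pool.Agent.Lib.MP_a717c1_al.PiBox

/-!
# Internal characterization of Cartesian products and decomposition into primes
-/

set_option linter.unusedSectionVars false
set_option linter.unusedDecidableInType false

namespace QSym

open Finset SimpleGraph Relation

/-- edges in `E` -/
def E1 {V : Type*} (G : SimpleGraph V) (E : V → V → Prop) (x y : V) : Prop := G.Adj x y ∧ E x y

/-- edges not in `E` -/
def E0 {V : Type*} (G : SimpleGraph V) (E : V → V → Prop) (x y : V) : Prop := G.Adj x y ∧ ¬ E x y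

/-- `E` is (the first direction of) a Cartesian product structure. -/
structure ProdRel {V : Type*} (G : SimpleGraph V) (E : V → V → Prop) : Prop where
  symm : ∀ {x y}, E x y → E y x
  sq : ∀ {a b a'}, G.Adj a b → E a b → G.Adj a a' → ¬ E a a' →
    ∃ b', G.Adj a' b' ∧ E a' b' ∧ G.Adj b b' ∧ ¬ E b b'
  uniq : ∀ {x y}, ReflTransGen (E1 G E) x y → ReflTransGen (E0 G E) x y → x = y

/-- prime graphs -/
def PrimeG {V : Type*} (G : SimpleGraph V) : Prop :=
  ∀ E, ProdRel G E → (∀ x y, G.Adj x y → E x y) ∨ (∀ x y, G.Adj x y → ¬ E x y)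

namespace ProdRel

variable {V : Type*} {G : SimpleGraph V} {E : V → V → Prop}

theorem E0_compl : E0 G (fun x y => ¬ E x y) = E1 G E := by
  funext x y
  simp [E0, E1]

theorem E1_compl : E1 G (fun x y => ¬ E x y) = E0 G E := rfl

theorem compl (h : ProdRel G E) : ProdRel G (fun x y => ¬ E x y) where
  symm h1 h2 := h1 (h.symm h2)
  sq := by
    intro a b a' h1 h2 h3 h4
    obtain ⟨b', k1, k2, k3, k4⟩ := h.sq h3 (not_not.1 h4) h1 h2
    exact ⟨b', k3, k4, k1, by simpa using k2⟩
  uniq := by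
    intro x y h1 h2
    rw [E0_compl] at h2
    rw [E1_compl] at h1
    exact h.uniq h2 h1

theorem symm1 (h : ProdRel G E) {x y : V} (h1 : E1 G E x y) : E1 G E y x :=
  ⟨h1.1.symm, h.symm h1.2⟩

theorem symm0 (h : ProdRel G E) {x y : V} (h1 : E0 G E x y) : E0 G E y x :=
  ⟨h1.1.symm, fun h2 => h1.2 (h.symm h2)⟩

theorem swap (h : ProdRel G E) {x y z : V} (h1 : E1 G E x y) (h2 : E0 G E y z) :
    ∃ y', E0 G E x y' ∧ E1 G E y' z := by
  obtain ⟨b', k1, k2, k3, k4⟩ := h.sq h1.1.symm (h.symm h1.2) h2.1 h2.2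
  exact ⟨b', ⟨k3, k4⟩, ⟨k1.symm, h.symm k2⟩⟩

theorem swap' (h : ProdRel G E) {x y z : V} (h1 : ReflTransGen (E1 G E) x y)
    (h2 : E0 G E y z) : ∃ y', E0 G E x y' ∧ ReflTransGen (E1 G E) y' z := by
  induction h1 generalizing z with
  | refl => exact ⟨z, h2, ReflTransGen.refl⟩
  | tail _ hpq ih =>
    obtain ⟨y', k1, k2⟩ := h.swap hpq h2
    obtain ⟨y'', k3, k4⟩ := ih k1
    exact ⟨y'', k3, k4.tail k2⟩

theorem swap0' (h : ProdRel G E) {x y z : V} (h1 : ReflTransGen (E0 G E) x y)
    (h2 : E1 G E y z) : ∃ y', E1 G E x y' ∧ ReflTransGen (E0 G E) y' z := by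
  have := h.compl.swap' (x := x) (y := y) (z := z) (by rw [E1_compl]; exact h1)
    (by rw [E0_compl]; exact h2)
  rw [E0_compl, E1_compl] at this
  exact this

theorem conn (h : ProdRel G E) (hG : G.Connected) (x y : V) :
    ∃ m, ReflTransGen (E1 G E) x m ∧ ReflTransGen (E0 G E) m y := by
  have h0 := (SimpleGraph.reachable_iff_reflTransGen x y).1 (hG.preconnected x y)
  induction h0 with
  | refl => exact ⟨x, ReflTransGen.refl, ReflTransGen.refl⟩
  | @tail p q _ hpq ih =>
    obtain ⟨m, h1, h2⟩ := ih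
    by_cases h3 : E p q
    · obtain ⟨m', k1, k2⟩ := h.swap0' h2 ⟨hpq, h3⟩
      exact ⟨m', h1.tail k1, k2⟩
    · exact ⟨m, h1, h2.tail ⟨hpq, h3⟩⟩

/-- the equivalence relation of being joined by a path of `E`-edges -/
def setoid (h : ProdRel G E) : Setoid V where
  r x y := ReflTransGen (E1 G E) x y
  iseqv := ⟨fun _ => ReflTransGen.refl, fun h1 => rtg_symm h.symm1 h1,
    fun h1 h2 => h1.trans h2⟩

theorem setoid_rel (h : ProdRel G E) {x y : V} :
    (⟦x⟧ : Quotient h.setoid) = ⟦y⟧ ↔ ReflTransGen (E1 G E) x y := by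
  rw [Quotient.eq]; rfl

theorem setoid_compl (h : ProdRel G E) {x y : V} :
    (⟦x⟧ : Quotient h.compl.setoid) = ⟦y⟧ ↔ ReflTransGen (E0 G E) x y := by
  rw [h.compl.setoid_rel, E1_compl]

/-- the factor graph: vertices are layers of the other direction -/
def fac (h : ProdRel G E) : SimpleGraph (Quotient h.compl.setoid) where
  Adj p q := ∃ x y, (⟦x⟧ : Quotient h.compl.setoid) = p ∧ (⟦y⟧ : Quotient h.compl.setoid) = q ∧
    E1 G E x y
  symm := ⟨by rintro p q ⟨x, y, h1, h2, h3⟩; exact ⟨y, x, h2, h1, h.symm1 h3⟩⟩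
  loopless := ⟨by
    rintro p ⟨x, y, h1, h2, h3⟩
    have h4 := h.setoid_compl.1 (h1.trans h2.symm)
    have h5 := h.uniq (ReflTransGen.single h3) h4
    exact h3.1.ne h5⟩

theorem fac_adj (h : ProdRel G E) {x y : V}
    (h1 : h.fac.Adj (⟦x⟧ : Quotient h.compl.setoid) ⟦y⟧)
    (h2 : ReflTransGen (E1 G E) x y) : G.Adj x y := by
  obtain ⟨x', y', k1, k2, k3⟩ := h1
  rw [h.setoid_compl] at k1 k2
  obtain ⟨y'', k4, k5⟩ := h.swap0' (rtg_symm h.symm0 k1) k3
  have h6 : ReflTransGen (E1 G E) y'' y :=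
    (ReflTransGen.single (h.symm1 k4)).trans h2
  have h7 : ReflTransGen (E0 G E) y'' y := k5.trans k2
  have := h.uniq h6 h7
  subst this
  exact k4.1

theorem compl_compl_rel (h : ProdRel G E) {x y : V} :
    (⟦x⟧ : Quotient h.compl.compl.setoid) = ⟦y⟧ ↔ ReflTransGen (E1 G E) x y := by
  rw [h.compl.setoid_compl, E0_compl]

/-- A product relation gives a decomposition. -/
theorem iso (h : ProdRel G E) (hG : G.Connected) :
    Nonempty (G ≃g (h.fac □ h.compl.fac)) := by
  let f : V → Quotient h.compl.setoid × Quotient h.compl.compl.setoid := fun x => (⟦x⟧, ⟦x⟧)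
  have hf : Function.Bijective f := by
    constructor
    · intro x y hxy
      have h1 := congrArg Prod.fst hxy
      have h2 := congrArg Prod.snd hxy
      exact h.uniq (h.compl_compl_rel.1 h2) (h.setoid_compl.1 h1)
    · rintro ⟨p, q⟩
      induction p using Quotient.inductionOn with | _ x => ?_
      induction q using Quotient.inductionOn with | _ y => ?_
      obtain ⟨m, h1, h2⟩ := h.conn hG y x
      refine ⟨m, Prod.ext ?_ ?_⟩
      · exact h.setoid_compl.2 h2
      · exact h.compl_compl_rel.2 (rtg_symm h.symm1 h1)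
  refine ⟨⟨Equiv.ofBijective f hf, ?_⟩⟩
  intro x y
  simp only [Equiv.ofBijective_apply, boxProd_adj, f]
  constructor
  · rintro (⟨h1, h2⟩ | ⟨h1, h2⟩)
    · exact h.fac_adj h1 (h.compl_compl_rel.1 h2)
    · exact h.compl.fac_adj h1 (by rw [E1_compl]; exact h.setoid_compl.1 h2)
  · intro h1
    by_cases h2 : E x y
    · left
      exact ⟨⟨x, y, rfl, rfl, h1, h2⟩, h.compl_compl_rel.2 (ReflTransGen.single ⟨h1, h2⟩)⟩
    · right
      exact ⟨⟨x, y, rfl, rfl, h1, h2⟩, h.setoid_compl.2 (ReflTransGen.single ⟨h1, h2⟩)⟩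

theorem nontrivial (h : ProdRel G E) {x y : V} (h1 : E1 G E x y) :
    Nontrivial (Quotient h.compl.setoid) := by
  refine ⟨⟨⟦x⟧, ⟦y⟧, ?_⟩⟩
  intro h2
  exact h1.1.ne (h.uniq (ReflTransGen.single h1) (h.setoid_compl.1 h2))

end ProdRel

/-- Decomposition of a finite connected graph into primes. -/
theorem exists_prime_decomp (n : ℕ) : ∀ (V : Type) [Fintype V] (G : SimpleGraph V),
    G.Connected → Fintype.card V = n →
    ∃ (ι : Type) (_ : Fintype ι) (V' : ι → Type) (_ : ∀ i, Fintype (V' i))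
      (x : ∀ i, SimpleGraph (V' i)), (∀ i, PrimeG (x i)) ∧ (∀ i, (x i).Connected) ∧
      (∀ i, Nontrivial (V' i)) ∧ Nonempty (G ≃g PiBox x) := by
  classical
  induction n using Nat.strong_induction_on with
  | _ n IH =>
  intro V _ G hG hn
  have : Nonempty V := hG.nonempty
  rcases subsingleton_or_nontrivial V with hs | hs
  · refine ⟨Empty, inferInstance, fun _ => Unit, fun _ => inferInstance, fun i => i.elim,
      fun i => i.elim, fun i => i.elim, fun i => i.elim, ⟨⟨?_, ?_⟩⟩⟩
    · exact ⟨fun _ i => i.elim, fun _ => Classical.arbitrary V, fun x => Subsingleton.elim _ _,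
        fun x => by funext i; exact i.elim⟩
    · intro x y
      constructor
      · rintro ⟨i, _⟩; exact i.elim
      · intro h; exact absurd (Subsingleton.elim x y) h.ne
  · by_cases hp : PrimeG G
    · refine ⟨Unit, inferInstance, fun _ => V, fun _ => inferInstance, fun _ => G,
        fun _ => hp, fun _ => hG, fun _ => hs, ⟨⟨(Equiv.funUnique Unit V).symm, ?_⟩⟩⟩
      intro x y
      rw [piBox_adj]
      constructor
      · rintro ⟨_, h, _⟩; exact h
      · intro h; exact ⟨(), h, fun j hj => absurd (Subsingleton.elim _ _) hj⟩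
    · unfold PrimeG at hp
      push Not at hp
      obtain ⟨E, hE, ⟨x0, y0, h1, h2⟩, ⟨x1, y1, h3, h4⟩⟩ := hp
      obtain ⟨e⟩ := hE.iso hG
      have n1 : Nontrivial (Quotient hE.compl.setoid) := hE.nontrivial ⟨h3, h4⟩
      have n2 : Nontrivial (Quotient hE.compl.compl.setoid) := hE.compl.nontrivial ⟨h1, h2⟩
      have hc : Fintype.card V = Fintype.card (Quotient hE.compl.setoid) *
          Fintype.card (Quotient hE.compl.compl.setoid) := by
        rw [Fintype.card_congr e.toEquiv, Fintype.card_prod]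
      have c1 : 1 < Fintype.card (Quotient hE.compl.setoid) := Fintype.one_lt_card
      have c2 : 1 < Fintype.card (Quotient hE.compl.compl.setoid) := Fintype.one_lt_card
      have hconn : (hE.fac □ hE.compl.fac).Connected := (e.connected_iff).1 hG
      obtain ⟨hc1, hc2⟩ := connected_boxProd.1 hconn
      obtain ⟨ι, _, V', _, x, p1, p2, p3, ⟨f⟩⟩ := IH (Fintype.card (Quotient hE.compl.setoid))
        (by rw [← hn, hc]; nlinarith) _ hE.fac hc1 rfl
      obtain ⟨ι', _, V'', _, x', q1, q2, q3, ⟨f'⟩⟩ :=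
        IH (Fintype.card (Quotient hE.compl.compl.setoid))
        (by rw [← hn, hc]; nlinarith) _ hE.compl.fac hc2 rfl
      refine ⟨ι ⊕ ι', inferInstance, Sum.elim V' V'', fun s => ?_, sumFam x x', ?_, ?_, ?_,
        ⟨(e.trans (boxCongr f f')).trans (sumIso x x').symm⟩⟩
      · rcases s with i | i
        · exact inferInstanceAs (Fintype (V' i))
        · exact inferInstanceAs (Fintype (V'' i))
      · rintro (i | i)
        · exact p1 i
        · exact q1 i
      · rintro (i | i)
        · exact p2 i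
        · exact q2 i
      · rintro (i | i)
        · exact p3 i
        · exact q3 i

end QSym
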