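import Pool.Agent.Lib.MP_a717c1_al.FReal

/-!
# Quantum isomorphisms between finite graphs, over a formally real star ring
-/

set_option linter.unusedSectionVars false

namespace QSym

open Finset

variable {V W : Type*} [Fintype V] [Fintype W]

/-- `u` is a quantum isomorphism from the graph `G` to the graph `H`: a magic unitary whose entries
`u z w`, `u z' w'` are orthogonal unless the pairs `(z,z')`, `(w,w')` have the same adjacency. -/
structure QI {A : Type*} [Ring A] [StarRing A] (G : SimpleGraph V) (H : SimpleGraph W)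
    (u : V → W → A) : Prop where
  star_eq : ∀ z w, star (u z w) = u z w
  mul_self : ∀ z w, u z w * u z w = u z w
  row : ∀ z, ∑ w, u z w = 1
  col : ∀ w, ∑ z, u z w = 1
  adj : ∀ z z' w w', u z w * u z' w' ≠ 0 → (G.Adj z z' ↔ H.Adj w w')

variable {A : Type*} [Ring A] [StarRing A] [FReal A]
variable {G : SimpleGraph V} {H : SimpleGraph W} {u : V → W → A}

namespace QI

theorem row_orth (hu : QI G H u) {z : V} {w w' : W} (h : w ≠ w') : u z w * u z w' = 0 :=
  proj_orth (fun w => u z w) (hu.star_eq z) (hu.mul_self z) (hu.row z) h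

theorem col_orth (hu : QI G H u) {z z' : V} {w : W} (h : z ≠ z') : u z w * u z' w = 0 :=
  proj_orth (fun z => u z w) (fun z => hu.star_eq z w) (fun z => hu.mul_self z w) (hu.col w) h

theorem eq_of_ne (hu : QI G H u) {z z' : V} {w w' : W} (h : u z w * u z' w' ≠ 0) :
    z = z' ↔ w = w' := by
  constructor
  · rintro rfl
    by_contra hne
    exact h (hu.row_orth hne)
  · rintro rfl
    by_contra hne
    exact h (hu.col_orth hne)

theorem symm (hu : QI G H u) : QI H G (fun w z => u z w) where
  star_eq w z := hu.star_eq z w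
  mul_self w z := hu.mul_self z w
  row w := hu.col w
  col z := hu.row z
  adj w w' z z' h := (hu.adj z z' w w' h).symm

theorem zero_of_adj (hu : QI G H u) {z z' : V} {w w' : W} (h : G.Adj z z') (h' : ¬ H.Adj w w') :
    u z w * u z' w' = 0 := by
  by_contra hne
  exact h' ((hu.adj _ _ _ _ hne).1 h)

theorem zero_of_not_adj (hu : QI G H u) {z z' : V} {w w' : W} (h : ¬ G.Adj z z')
    (h' : H.Adj w w') : u z w * u z' w' = 0 := by
  by_contra hne
  exact h ((hu.adj _ _ _ _ hne).2 h')

theorem mul_comm_zero (hu : QI G H u) {z z' : V} {w w' : W} (h : u z w * u z' w' = 0) :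
    u z' w' * u z w = 0 := by
  have := congrArg star h
  rw [star_mul, hu.star_eq, hu.star_eq, star_zero] at this
  exact this

end QI

/-- Compatibility of two-point functions with `u`. -/
def Compat (u : V → W → A) {α : Type*} (F : V → V → α) (F' : W → W → α) : Prop :=
  ∀ z z' w w', u z w * u z' w' ≠ 0 → F z z' = F' w w'

theorem Compat.comp (hu : QI G H u) {F₁ F₂ : V → V → ℕ} {F₁' F₂' : W → W → ℕ}
    (h₁ : Compat u F₁ F₁') (h₂ : Compat u F₂ F₂') :
    Compat u (fun x y => ∑ m, F₁ x m * F₂ m y) (fun x y => ∑ m, F₁' x m * F₂' m y) := by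
  intro z z' w w' hne
  have e1 : ∀ (m : V), (F₁ z m * F₂ m z' : ℕ) • (u z w * u z' w') =
      ∑ m', (F₁' w m' * F₂' m' w' : ℕ) • (u z w * u m m' * u z' w') := by
    intro m
    have : u z w * u z' w' = ∑ m', u z w * u m m' * u z' w' := by
      rw [← Finset.sum_mul, ← Finset.mul_sum, hu.row, mul_one]
    rw [this, Finset.smul_sum]
    refine Finset.sum_congr rfl fun m' _ => ?_
    by_cases h0 : u z w * u m m' * u z' w' = 0
    · rw [h0, smul_zero, smul_zero]
    · have ha : u z w * u m m' ≠ 0 := by
        intro h; apply h0; rw [h, zero_mul]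
      have hb : u m m' * u z' w' ≠ 0 := by
        intro h; apply h0; rw [mul_assoc, h, mul_zero]
      rw [h₁ _ _ _ _ ha, h₂ _ _ _ _ hb]
  have e2 : (∑ m, F₁ z m * F₂ m z') • (u z w * u z' w') =
      (∑ m', F₁' w m' * F₂' m' w') • (u z w * u z' w') := by
    rw [Finset.sum_smul, Finset.sum_congr rfl (fun m _ => e1 m), Finset.sum_comm,
      Finset.sum_smul]
    refine Finset.sum_congr rfl fun m' _ => ?_
    rw [← Finset.smul_sum]
    congr 1
    rw [← Finset.sum_mul, ← Finset.mul_sum, hu.col, mul_one]
  by_contra hlt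
  change ¬ (∑ m, F₁ z m * F₂ m z') = ∑ m', F₁' w m' * F₂' m' w' at hlt
  rcases Nat.lt_or_gt_of_ne hlt with hlt | hlt
  · obtain ⟨d, hd⟩ := Nat.exists_eq_add_of_lt hlt
    rw [hd] at e2
    have : (d + 1) • (u z w * u z' w') = 0 := by
      rw [add_assoc, add_smul] at e2
      simpa using e2
    exact hne (freal_nsmul (by omega) this)
  · obtain ⟨d, hd⟩ := Nat.exists_eq_add_of_lt hlt
    rw [hd] at e2
    have : (d + 1) • (u z w * u z' w') = 0 := by
      rw [add_assoc, add_smul] at e2
      simpa using e2
    exact hne (freal_nsmul (by omega) this)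

open Classical in
/-- 0/1 adjacency function. -/
noncomputable def ad (G : SimpleGraph V) (x y : V) : ℕ := if G.Adj x y then 1 else 0

/-- number of common neighbours (2-walks) -/
noncomputable def cn (G : SimpleGraph V) (x y : V) : ℕ := ∑ m, ad G x m * ad G m y

/-- number of 3-walks -/
noncomputable def w3 (G : SimpleGraph V) (x y : V) : ℕ := ∑ m, ad G x m * cn G m y

theorem compat_ad (hu : QI G H u) : Compat u (ad G) (ad H) := by
  classical
  intro z z' w w' h
  have h2 := hu.adj z z' w w' h
  unfold ad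
  by_cases h3 : G.Adj z z'
  · rw [if_pos h3, if_pos (h2.1 h3)]
  · rw [if_neg h3, if_neg (fun h4 => h3 (h2.2 h4))]

theorem compat_cn (hu : QI G H u) : Compat u (cn G) (cn H) :=
  Compat.comp hu (compat_ad hu) (compat_ad hu)

theorem compat_w3 (hu : QI G H u) : Compat u (w3 G) (w3 H) :=
  Compat.comp hu (compat_ad hu) (compat_cn hu)

end QSym
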