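import Pool.Agent.Lib.MP_a717c1_al.Twist

/-!
# The automorphism attached to a nonzero element `D`
-/

set_option linter.unusedSectionVars false
set_option linter.unusedDecidableInType false

namespace QSym

open Finset SimpleGraph

variable {V V₁ V₂ : Type*} [Fintype V] [Fintype V₁] [Fintype V₂]
variable {A : Type*} [Ring A] [StarRing A] [FReal A]
variable {G : SimpleGraph V} {G₁ : SimpleGraph V₁} {G₂ : SimpleGraph V₂}
variable {u : V → V₁ × V₂ → A}

/-- squares with a given value of `D` -/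
structure Sq (G : SimpleGraph V) (u : V → V₁ × V₂ → A) (D₀ : A) (a b c d : V) : Prop where
  ac : Dia G a b c d
  bd : Dia G b c d a
  eq : Dd u a b c = D₀

/-- A rotation of the graph: an automorphism `ρ` with `ρ⁴ = 1` moving every vertex to a
neighbour, such that `x, ρ x, ρ² x, ρ³ x` are squares. -/
structure IsRot (G : SimpleGraph V) (ρ : Equiv.Perm V) : Prop where
  adj : ∀ x y, G.Adj x y → G.Adj (ρ x) (ρ y)
  move : ∀ x, G.Adj x (ρ x)
  four : ∀ x, ρ (ρ (ρ (ρ x))) = x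
  dia : ∀ x, Dia G x (ρ x) (ρ (ρ x)) (ρ (ρ (ρ x)))

namespace IsRot
variable {ρ : Equiv.Perm V}

theorem symm_apply (h : IsRot G ρ) (x : V) : ρ.symm x = ρ (ρ (ρ x)) := by
  rw [Equiv.symm_apply_eq, h.four]

theorem ne_self (h : IsRot G ρ) (x : V) : ρ x ≠ x := (h.move x).ne'
theorem sq_ne_self (h : IsRot G ρ) (x : V) : ρ (ρ x) ≠ x := (h.dia x).ac.symm
theorem ne_symm (h : IsRot G ρ) (x : V) : ρ x ≠ ρ.symm x := by
  rw [h.symm_apply]; exact (h.dia x).bd
theorem move' (h : IsRot G ρ) (x : V) : G.Adj x (ρ.symm x) := by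
  have := h.move (ρ.symm x)
  rw [Equiv.apply_symm_apply] at this
  exact this.symm

theorem adj_iff (h : IsRot G ρ) (x y : V) : G.Adj (ρ x) (ρ y) ↔ G.Adj x y := by
  constructor
  · intro h1
    have := h.adj _ _ (h.adj _ _ (h.adj _ _ h1))
    rwa [h.four, h.four] at this
  · exact h.adj x y

theorem symm (h : IsRot G ρ) : IsRot G ρ.symm where
  adj x y h1 := by
    rw [h.symm_apply, h.symm_apply]
    exact h.adj _ _ (h.adj _ _ (h.adj _ _ h1))
  move x := h.move' x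
  four x := by
    simp only [h.symm_apply, h.four]
  dia x := by
    have e1 : ρ.symm x = ρ (ρ (ρ x)) := h.symm_apply x
    have e2 : ρ.symm (ρ.symm x) = ρ (ρ x) := by
      rw [Equiv.symm_apply_eq, e1]
    have e3 : ρ.symm (ρ.symm (ρ.symm x)) = ρ x := by
      rw [Equiv.symm_apply_eq, e2]
    rw [e1, e2] at *
    rw [Equiv.symm_apply_apply]
    exact (h.dia x).flip

end IsRot

section

variable (hu : QI G (G₁ □ G₂) u)
include hu

theorem QI.sq_rot {D₀ : A} {a b c d : V} (h : Sq G u D₀ a b c d) : Sq G u D₀ b c d a :=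
  ⟨h.bd, h.ac.rev.flip, by rw [← hu.Dd_rot h.ac h.bd, h.eq]⟩

theorem QI.sq_unique {D₀ : A} (hD : D₀ ≠ 0) {a b c d b' c' d' : V} (h : Sq G u D₀ a b c d)
    (h' : Sq G u D₀ a b' c' d') : b = b' ∧ c = c' ∧ d = d' := by
  have hc : c = c' := by
    by_contra hne
    apply hD
    have h1 : ∀ w, D₀ * u c w = D₀ * u c' w := by
      intro w
      have e1 := hu.u_mul_Dd a b c w
      have e2 := hu.u_mul_Dd a b' c' w
      rw [h.eq] at e1
      rw [h'.eq] at e2
      rw [← e1, e2]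
    calc D₀ = ∑ w, D₀ * u c w * u c w := by
          simp only [mul_assoc, hu.mul_self]
          rw [← Finset.mul_sum, hu.row, mul_one]
      _ = ∑ w, D₀ * u c' w * u c w := Finset.sum_congr rfl fun w _ => by rw [h1]
      _ = 0 := Finset.sum_eq_zero fun w _ => by
          rw [mul_assoc, hu.col_orth (Ne.symm hne), mul_zero]
  subst hc
  have hb : b = b' := by
    rcases (h'.ac.iff b).1 ⟨h.ac.ab, h.ac.bc⟩ with h1 | h1
    · exact h1
    · exfalso
      subst h1
      have h2 := hu.Dd_flip' h'.ac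
      rw [h.eq, h'.eq] at h2
      have h3 : D₀ + D₀ = 0 := by nth_rw 1 [h2]; abel
      exact hD (freal_two h3)
  subst hb
  refine ⟨rfl, rfl, ?_⟩
  rcases (h'.ac.iff d).1 ⟨h.ac.ad, h.ac.dc⟩ with h1 | h1
  · exact absurd h1.symm h.ac.bd
  · exact h1

theorem QI.sq_nbr {D₀ : A} (hD : D₀ ≠ 0) {a b c d a' : V} (h : Sq G u D₀ a b c d)
    (ha : G.Adj a a') : ∃ b' c' d', Sq G u D₀ a' b' c' d' ∧
      ((a' ≠ b → a' ≠ d → G.Adj b b') ∧ (a' = b → b' = c) ∧ (a' = d → b' = a)) := by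
  by_cases h1 : a' = b
  · subst h1
    exact ⟨c, d, a, hu.sq_rot h, fun h2 => absurd rfl h2, fun _ => rfl,
      fun h2 => absurd h2 h.ac.bd⟩
  · by_cases h2 : a' = d
    · subst h2
      exact ⟨a, b, c, hu.sq_rot (hu.sq_rot (hu.sq_rot h)), fun _ h3 => absurd rfl h3,
        fun h3 => absurd h3.symm h.ac.bd, fun _ => rfl⟩
    · obtain ⟨b', c', d', h3, h4, h5, h6, h7, h8⟩ :=
        hu.cube h.ac h.bd (by rw [h.eq]; exact hD) ha h1 h2
      exact ⟨b', c', d', ⟨h3, h4, by rw [h8, h.eq]⟩, fun _ _ => h5,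
        fun h => absurd h h1, fun h => absurd h h2⟩

theorem QI.sq_exists (hG : G.Connected) {D₀ : A} (hD : D₀ ≠ 0) {a b c d : V}
    (h : Sq G u D₀ a b c d) (z : V) : ∃ b' c' d', Sq G u D₀ z b' c' d' := by
  have h0 := (SimpleGraph.reachable_iff_reflTransGen a z).1 (hG.preconnected a z)
  induction h0 with
  | refl => exact ⟨b, c, d, h⟩
  | tail _ hbc ih =>
    obtain ⟨b', c', d', h1⟩ := ih
    obtain ⟨b'', c'', d'', h2, _⟩ := hu.sq_nbr hD h1 hbc
    exact ⟨b'', c'', d'', h2⟩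

/-- The rotation attached to `D₀`. -/
theorem QI.exists_rot (hG : G.Connected) {D₀ : A} (hD : D₀ ≠ 0) {a b c d : V}
    (h : Sq G u D₀ a b c d) :
    ∃ ρ : Equiv.Perm V, IsRot G ρ ∧ (∀ x, Sq G u D₀ x (ρ x) (ρ (ρ x)) (ρ (ρ (ρ x)))) ∧
      ρ a = b := by
  choose f g k hf using hu.sq_exists hG hD h
  have f1 : ∀ {x b c d}, Sq G u D₀ x b c d → f x = b ∧ g x = c ∧ k x = d := by
    intro x b c d h1
    exact hu.sq_unique hD (hf x) h1
  have f2 : ∀ x, f (f x) = g x := fun x => (f1 (hu.sq_rot (hf x))).1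
  have f3 : ∀ x, f (g x) = k x := fun x => (f1 (hu.sq_rot (hu.sq_rot (hf x)))).1
  have f4 : ∀ x, f (k x) = x := fun x => (f1 (hu.sq_rot (hu.sq_rot (hu.sq_rot (hf x))))).1
  have f5 : ∀ x, f (f (f (f x))) = x := fun x => by
    calc f (f (f (f x))) = f (f (g x)) := by rw [f2 x]
      _ = f (k x) := by rw [f3]
      _ = x := f4 x
  let ρ : Equiv.Perm V :=
    { toFun := f
      invFun := fun x => f (f (f x))
      left_inv := fun x => f5 x
      right_inv := fun x => f5 x }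
  have hρ : ∀ x, ρ x = f x := fun x => rfl
  have hsq : ∀ x, Sq G u D₀ x (ρ x) (ρ (ρ x)) (ρ (ρ (ρ x))) := by
    intro x
    have e2 : ρ (ρ x) = g x := f2 x
    have e3 : ρ (ρ (ρ x)) = k x := by rw [e2]; exact f3 x
    rw [e3, e2]
    exact hf x
  refine ⟨ρ, ⟨?_, ?_, ?_, ?_⟩, hsq, (f1 h).1⟩
  · intro x y hxy
    obtain ⟨b', c', d', h1, h2, h3, h4⟩ := hu.sq_nbr hD (hsq x) hxy
    have h5 : ρ y = b' := (f1 h1).1
    rw [h5]
    by_cases e1 : y = ρ x
    · rw [h3 e1]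
      exact (hsq x).ac.bc
    · by_cases e2 : y = ρ (ρ (ρ x))
      · rw [h4 e2]; exact (hsq x).ac.ab.symm
      · exact h2 e1 e2
  · intro x; exact (hsq x).ac.ab
  · intro x; simp only [hρ]; exact f5 x
  · intro x; exact (hsq x).ac

end

end QSym
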