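import Pool.Agent.Lib.MP_a717c1_al.Rho

/-!
# Twisted edges come from rotations
-/

set_option linter.unusedSectionVars false
set_option linter.unusedDecidableInType false

namespace QSym

open Finset SimpleGraph

variable {V V₁ V₂ : Type*} [Fintype V] [Fintype V₁] [Fintype V₂]
variable {A : Type*} [Ring A] [StarRing A] [FReal A]
variable {G : SimpleGraph V} {G₁ : SimpleGraph V₁} {G₂ : SimpleGraph V₂}
variable {u : V → V₁ × V₂ → A}

/-- A `K₂`-structure on `G`: a fixed point free involutive automorphism moving every vertex to a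
neighbour, and a 2-colouring which changes exactly along the edges `x, φ x`. -/
structure IsK2 (G : SimpleGraph V) (φ : V → V) (c : V → Prop) : Prop where
  inv : ∀ x, φ (φ x) = x
  move : ∀ x, G.Adj x (φ x)
  adj : ∀ x y, G.Adj x y → G.Adj (φ x) (φ y)
  col : ∀ x y, G.Adj x y → (¬ (c x ↔ c y) ↔ y = φ x)

/-- no `K₂`-structure -/
def NoK2 (G : SimpleGraph V) : Prop := ∀ φ c, ¬ IsK2 G φ c

/-- no rotation with a 2-colouring which changes exactly along the edges of the rotation -/
def NoRotCol (G : SimpleGraph V) : Prop :=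
  ∀ ρ : Equiv.Perm V, IsRot G ρ → ∀ c : V → Prop,
    ¬ ∀ x y, G.Adj x y → (¬ (c x ↔ c y) ↔ (y = ρ x ∨ x = ρ y))

/-- edges not belonging to the rotation -/
def NE (G : SimpleGraph V) (ρ : Equiv.Perm V) (x y : V) : Prop :=
  G.Adj x y ∧ y ≠ ρ x ∧ x ≠ ρ y

theorem NE.symm {ρ : Equiv.Perm V} {x y : V} (h : NE G ρ x y) : NE G ρ y x :=
  ⟨h.1.symm, h.2.2, h.2.1⟩

theorem rtg_symm {X : Type*} {r : X → X → Prop} (h : ∀ {x y}, r x y → r y x) {x y : X}
    (hxy : Relation.ReflTransGen r x y) : Relation.ReflTransGen r y x := by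
  induction hxy with
  | refl => exact Relation.ReflTransGen.refl
  | tail _ h1 ih => exact Relation.ReflTransGen.head (h h1) ih

theorem rtg_lift {X Y : Type*} {r : X → X → Prop} {p : Y → Y → Prop} (f : X → Y)
    (h : ∀ {x y}, r x y → p (f x) (f y)) {x y : X}
    (hxy : Relation.ReflTransGen r x y) : Relation.ReflTransGen p (f x) (f y) := by
  induction hxy with
  | refl => exact Relation.ReflTransGen.refl
  | tail _ h1 ih => exact Relation.ReflTransGen.tail ih (h h1)

theorem rot_connected (hG : G.Connected) (hC : NoRotCol G) {ρ : Equiv.Perm V} (hρ : IsRot G ρ)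
    (x y : V) : Relation.ReflTransGen (NE G ρ) x y := by
  classical
  let R := Relation.ReflTransGen (NE G ρ)
  have Rsymm : ∀ {x y}, R x y → R y x := by
    intro x y h
    exact rtg_symm (fun h => NE.symm h) h
  have Rtrans : ∀ {x y z}, R x y → R y z → R x z := fun h1 h2 => Relation.ReflTransGen.trans h1 h2
  have Rρ : ∀ {x y}, R x y → R (ρ x) (ρ y) := by
    intro x y h
    refine rtg_lift ρ ?_ h
    rintro a b ⟨h1, h2, h3⟩
    exact ⟨hρ.adj _ _ h1, fun h => h2 (ρ.injective h), fun h => h3 (ρ.injective h)⟩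
  -- everything is connected to some power of ρ applied to x
  have key : ∀ z, R x z ∨ R (ρ x) z ∨ R (ρ (ρ x)) z ∨ R (ρ (ρ (ρ x))) z := by
    intro z
    have h0 := (SimpleGraph.reachable_iff_reflTransGen x z).1 (hG.preconnected x z)
    induction h0 with
    | refl => left; exact Relation.ReflTransGen.refl
    | @tail p q _ hpq ih =>
      by_cases h1 : q = ρ p
      · subst h1
        rcases ih with h | h | h | h
        · right; left; exact Rρ h
        · right; right; left; exact Rρ h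
        · right; right; right; exact Rρ h
        · left; have := Rρ h; rwa [hρ.four] at this
      · by_cases h2 : p = ρ q
        · have h3 : q = ρ (ρ (ρ p)) := by rw [h2, hρ.four]
          rw [h3]
          rcases ih with h | h | h | h
          · right; right; right; exact Rρ (Rρ (Rρ h))
          · left; have := Rρ (Rρ (Rρ h)); rwa [hρ.four] at this
          · right; left; have := Rρ (Rρ (Rρ h)); rwa [hρ.four] at this
          · right; right; left; have := Rρ (Rρ (Rρ h)); rwa [hρ.four] at this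
        · have h3 : R p q := Relation.ReflTransGen.single ⟨hpq, h1, h2⟩
          rcases ih with h | h | h | h
          · left; exact Rtrans h h3
          · right; left; exact Rtrans h h3
          · right; right; left; exact Rtrans h h3
          · right; right; right; exact Rtrans h h3
  by_cases h1 : R x (ρ x)
  · have h2 : R (ρ x) (ρ (ρ x)) := Rρ h1
    have h3 : R (ρ (ρ x)) (ρ (ρ (ρ x))) := Rρ h2
    rcases key y with h | h | h | h
    · exact h
    · exact Rtrans h1 h
    · exact Rtrans h1 (Rtrans h2 h)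
    · exact Rtrans h1 (Rtrans h2 (Rtrans h3 h))
  · exfalso
    let c : V → Prop := fun z => R x z ∨ R (ρ (ρ x)) z
    let d : V → Prop := fun z => R (ρ x) z ∨ R (ρ (ρ (ρ x))) z
    have hcd : ∀ z, c z ∨ d z := by
      intro z
      rcases key z with h | h | h | h
      · exact Or.inl (Or.inl h)
      · exact Or.inr (Or.inl h)
      · exact Or.inl (Or.inr h)
      · exact Or.inr (Or.inr h)
    have hncd : ∀ z, c z → d z → False := by
      rintro z (h2 | h2) (h3 | h3)
      · exact h1 (Rtrans h2 (Rsymm h3))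
      · have := Rρ (Rtrans h2 (Rsymm h3))
        rw [hρ.four] at this
        exact h1 (Rsymm this)
      · have := Rρ (Rρ (Rρ (Rtrans h2 (Rsymm h3))))
        simp only [hρ.four] at this
        exact h1 (Rsymm this)
      · have := Rρ (Rρ (Rtrans h2 (Rsymm h3)))
        simp only [hρ.four] at this
        exact h1 this
    have hcρ : ∀ z, c z → d (ρ z) := by
      rintro z (h2 | h2)
      · exact Or.inl (Rρ h2)
      · exact Or.inr (Rρ h2)
    have hdρ : ∀ z, d z → c (ρ z) := by
      rintro z (h2 | h2)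
      · exact Or.inr (Rρ h2)
      · left; have := Rρ h2; rwa [hρ.four] at this
    have hflip : ∀ z, ¬ (c z ↔ c (ρ z)) := by
      intro z h2
      rcases hcd z with h3 | h3
      · exact hncd _ (h2.1 h3) (hcρ z h3)
      · exact hncd _ (h2.2 (hdρ z h3)) h3
    apply hC ρ hρ c
    intro p q hpq
    constructor
    · intro h2
      by_contra h3
      push Not at h3
      have h4 : R p q := Relation.ReflTransGen.single ⟨hpq, h3.1, h3.2⟩
      apply h2
      constructor
      · rintro (h5 | h5)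
        · exact Or.inl (Rtrans h5 h4)
        · exact Or.inr (Rtrans h5 h4)
      · rintro (h5 | h5)
        · exact Or.inl (Rtrans h5 (Rsymm h4))
        · exact Or.inr (Rtrans h5 (Rsymm h4))
    · rintro (rfl | rfl)
      · exact hflip _
      · intro h2; exact hflip _ h2.symm

section

variable (hu : QI G (G₁ □ G₂) u)
include hu

theorem QI.tw_rot {D₀ : A} (hD : D₀ ≠ 0) {ρ : Equiv.Perm V}
    (hs : ∀ x, Sq G u D₀ x (ρ x) (ρ (ρ x)) (ρ (ρ (ρ x)))) (x : V) : Tw G u x (ρ x) :=
  (hu.tw_of_Dd (hs x).ac (by rw [(hs x).eq]; exact hD)).1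

/-- squares spanned by a rotation edge and a non-rotation edge -/
theorem QI.dia_NE {ρ : Equiv.Perm V} (hρ : IsRot G ρ) {x x' : V} (ht : Tw G u x (ρ x))
    (h : NE G ρ x x') : Dia G x (ρ x) (ρ x') x' ∧ Dia G (ρ x) (ρ x') x' x := by
  obtain ⟨b', h1, h2, h3, h4⟩ := hu.tw_dia ht h.1 h.2.1
  have hb : b' = ρ x' := by
    rcases (h1.iff (ρ x')).1 ⟨hρ.move x', (hρ.adj _ _ h.1).symm⟩ with h5 | h5
    · exact absurd h5.symm h.2.2
    · exact h5.symm
  subst hb
  exact ⟨h2.flip, h1.rev.flip⟩

theorem QI.rot_D_zero (hG : G.Connected) (hC : NoRotCol G) {D₀ : A} (hD : D₀ ≠ 0)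
    {ρ : Equiv.Perm V} (hρ : IsRot G ρ)
    (hs : ∀ x, Sq G u D₀ x (ρ x) (ρ (ρ x)) (ρ (ρ (ρ x)))) {x x' : V} (h : NE G ρ x x') :
    Dd u x (ρ x) (ρ x') = 0 := by
  by_contra hD'
  have tw := hu.tw_rot hD hs
  obtain ⟨d1, d2⟩ := hu.dia_NE hρ (tw x) h
  have hsq : Sq G u (Dd u x (ρ x) (ρ x')) x (ρ x) (ρ x') x' := ⟨d1, d2, rfl⟩
  obtain ⟨σ, hσ, hσs, hσx⟩ := hu.exists_rot hG hD' hsq
  have hσ3 : σ (σ (σ x)) = x' := (hu.sq_unique hD' (hσs x) hsq).2.2
  -- transport
  have tr : ∀ (τ : Equiv.Perm V), IsRot G τ → ∀ v v', NE G ρ v v' → ρ v = τ v →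
      (ρ v' = τ v' ∨ ρ v' = τ.symm v') := by
    intro τ hτ v v' hv he
    obtain ⟨e1, e2⟩ := hu.dia_NE hρ (tw v) hv
    by_cases h1 : v = τ v'
    · have h2 : G.Adj v' (ρ v') ∧ G.Adj (ρ v') (τ (τ v')) := by
        refine ⟨hρ.move v', ?_⟩
        rw [← h1, ← he]
        exact hρ.adj _ _ hv.1.symm
      rcases ((hτ.dia v').iff (ρ v')).1 h2 with h3 | h3
      · left; exact h3
      · right; rw [h3, hτ.symm_apply]
    · left
      have h2 : G.Adj (ρ v) (τ v') ∧ G.Adj (τ v') v' := by
        refine ⟨?_, (hτ.move v').symm⟩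
        rw [he]; exact hτ.adj _ _ hv.1
      rcases (e2.iff (τ v')).1 h2 with h3 | h3
      · exact h3.symm
      · exact absurd h3.symm h1
  have J : ∀ v, ρ v = σ v ∨ ρ v = σ.symm v := by
    intro v
    have hc := rot_connected hG hC hρ x v
    induction hc with
    | refl => left; exact hσx.symm
    | @tail p q _ hpq ih =>
      rcases ih with h1 | h1
      · exact tr σ hσ p q hpq h1
      · have := tr σ.symm hσ.symm p q hpq h1
        rw [Equiv.symm_symm] at this
        exact this.symm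
  rcases J (ρ.symm x) with h1 | h1
  · rw [Equiv.apply_symm_apply] at h1
    have h2 : ρ.symm x = x' := by
      have : σ.symm x = ρ.symm x := by rw [Equiv.symm_apply_eq]; exact h1
      rw [← this, hσ.symm_apply, hσ3]
    apply h.2.2
    rw [← h2, Equiv.apply_symm_apply]
  · rw [Equiv.apply_symm_apply] at h1
    have h2 : ρ.symm x = ρ x := by
      rw [← hσx]
      have : σ x = σ (σ.symm (ρ.symm x)) := by rw [← h1]
      rw [this, Equiv.apply_symm_apply]
    exact hρ.ne_symm x h2.symm

/-- All the data attached to a rotation coming from a nonzero `D`. -/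
theorem QI.rot_data (hG : G.Connected) (hC : NoRotCol G) {D₀ : A} (hD : D₀ ≠ 0)
    {ρ : Equiv.Perm V} (hρ : IsRot G ρ)
    (hs : ∀ x, Sq G u D₀ x (ρ x) (ρ (ρ x)) (ρ (ρ (ρ x)))) :
    (∀ x y, hh u x (ρ x) = hh u y (ρ y)) ∧
    (∀ x y, G.Adj x y → hh u (ρ x) (ρ y) = hh u x y) := by
  have tw := hu.tw_rot hD hs
  have h1 : ∀ x y, NE G ρ x y → hh u x (ρ x) = hh u y (ρ y) ∧ hh u (ρ x) (ρ y) = hh u x y := by
    intro x y h
    obtain ⟨d1, d2⟩ := hu.dia_NE hρ (tw x) h
    have h0 := hu.rot_D_zero hG hC hD hρ hs h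
    have s1 := hu.square d1
    have s2 := hu.square' d1
    rw [h0, add_zero] at s1 s2
    exact ⟨sub_eq_zero.1 s1, sub_eq_zero.1 s2⟩
  have h2 : ∀ x y, hh u x (ρ x) = hh u y (ρ y) := by
    intro x y
    have hc := rot_connected hG hC hρ x y
    induction hc with
    | refl => rfl
    | tail _ hpq ih => exact ih.trans (h1 _ _ hpq).1
  refine ⟨h2, ?_⟩
  intro x y hxy
  by_cases e1 : y = ρ x
  · subst e1; exact h2 _ _
  · by_cases e2 : x = ρ y
    · subst e2
      rw [← hu.star_hh, ← hu.star_hh y (ρ y), h2 (ρ y) y]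
    · exact (h1 x y ⟨hxy, e1, e2⟩).2

/-- (2t-1)(g-g*) = 0 -/
theorem QI.rot_half (hG : G.Connected) (hC : NoRotCol G) {D₀ : A} (hD : D₀ ≠ 0)
    {ρ : Equiv.Perm V} (hρ : IsRot G ρ)
    (hs : ∀ x, Sq G u D₀ x (ρ x) (ρ (ρ x)) (ρ (ρ (ρ x)))) (x : V) :
    (tt u x (ρ x) + tt u x (ρ x) - 1) * (hh u x (ρ x) - hh u (ρ x) x) = 0 := by
  obtain ⟨h1, _⟩ := hu.rot_data hG hC hD hρ hs
  have p1 := hu.path' (hρ.move x) (hρ.move (ρ x))
  have m4 := hρ.four x
  have e1 : hh u (ρ x) (ρ (ρ x)) = hh u x (ρ x) := h1 _ _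
  have a1 : G.Adj x (ρ (ρ (ρ x))) := (hρ.dia x).ad
  have a2 : G.Adj (ρ (ρ (ρ x))) (ρ (ρ x)) := (hρ.dia x).dc
  have p2 := hu.path' a1 a2
  have e2 : hh u x (ρ (ρ (ρ x))) = hh u (ρ x) x := by
    have := h1 (ρ (ρ (ρ x))) x
    rw [m4] at this
    rw [← hu.star_hh, this, hu.star_hh]
  have e3 : hh u (ρ (ρ (ρ x))) (ρ (ρ x)) = hh u (ρ x) x := by
    rw [← hu.star_hh, h1 (ρ (ρ x)) x, hu.star_hh]
  rw [e1] at p1
  rw [e2, e3] at p2
  rw [hu.two_tt (hρ.move x)]
  have hn := hu.hh_normal (hρ.move x)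
  set g := hh u x (ρ x)
  set k := hh u (ρ x) x
  have e4 : (g + k - 1) * (g - k) = (g * g - g) - (k * k - k) + (k * g - g * k) := by
    noncomm_ring
  rw [e4, ← hn, sub_self, add_zero]
  have e5 : (g * g - g) + (g * g - g) = (k * k - k) + (k * k - k) := by
    have q1 : g + g - (g * g + g * g) = MM G₁ G₂ u x (ρ (ρ x)) := by rw [p1]; abel
    have q2 : k + k - (k * k + k * k) = MM G₁ G₂ u x (ρ (ρ x)) := by rw [p2]; abel
    have : -(g + g - (g * g + g * g)) = -(k + k - (k * k + k * k)) := by rw [q1, q2]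
    calc (g * g - g) + (g * g - g) = -(g + g - (g * g + g * g)) := by abel
      _ = -(k + k - (k * k + k * k)) := this
      _ = _ := by abel
  rw [freal_two' e5, sub_self]

/-- Every twisted edge belongs to a rotation. -/
theorem QI.tw_exists_rot (hG : G.Connected) (hC : NoRotCol G) (hB : NoK2 G) {a b : V}
    (hab : Tw G u a b) :
    ∃ (D₀ : A) (ρ : Equiv.Perm V), D₀ ≠ 0 ∧ IsRot G ρ ∧
      (∀ x, Sq G u D₀ x (ρ x) (ρ (ρ x)) (ρ (ρ (ρ x)))) ∧ ρ a = b := by
  classical
  by_cases hstar : ∀ x x' y y', G.Adj x x' → hh u x x' = hh u a b → Dia G x x' y' y →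
      Dia G x' y' y x → Dd u x x' y' = 0
  · exfalso
    let P : V → V → Prop := fun x x' => G.Adj x x' ∧ hh u x x' = hh u a b
    have Ptw : ∀ {x x'}, P x x' → Tw G u x x' := by
      rintro x x' ⟨h1, h2⟩
      refine ⟨h1, ?_⟩
      rw [← hu.star_hh x x', h2, hu.star_hh]
      exact hab.2
    have Pout : ∀ {x x' y}, P x x' → G.Adj x y → y ≠ x' → ∃ y', P y y' ∧ G.Adj x' y' ∧ y' ≠ x := by
      intro x x' y hP hy hne
      obtain ⟨y', h1, h2, h3, h4⟩ := hu.tw_dia (Ptw hP) hy hne
      have h0 := hstar x x' y y' hP.1 hP.2 h2.flip h1.rev.flip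
      have s1 := hu.square h2.flip
      rw [h0, add_zero] at s1
      exact ⟨y', ⟨h3.1, by rw [← sub_eq_zero.1 s1]; exact hP.2⟩, h1.dc.symm, h1.bd.symm⟩
    have Pin : ∀ {x x' y}, P x' x → G.Adj x y → y ≠ x' → ∃ y', P y' y ∧ G.Adj x' y' := by
      intro x x' y hP hy hne
      obtain ⟨y', h1, h2, h3, h4⟩ := hu.tw_dia (Ptw hP).symm hy hne
      have h0 := hstar x' x y' y hP.1 hP.2 h1.rev h2
      have s1 := hu.square h1.rev
      rw [h0, add_zero] at s1
      exact ⟨y', ⟨h3.1.symm, by rw [← sub_eq_zero.1 s1]; exact hP.2⟩, h1.dc.symm⟩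
    have Pu : ∀ {x y z}, P x y → P x z → y = z := by
      intro x y z h1 h2
      by_contra hne
      exact hu.tw_ne_hh (Ptw h1) h2.1 hne (h1.2.trans h2.2.symm)
    have Pu' : ∀ {x y z}, P y x → P z x → y = z := by
      intro x y z h1 h2
      by_contra hne
      refine hu.tw_ne_hh (Ptw h1).symm h2.1.symm hne ?_
      rw [← hu.star_hh y x, ← hu.star_hh z x, h1.2, h2.2]
    have Pboth : ∀ {x y z}, P x y → P z x → False := by
      intro x y z h1 h2
      by_cases hyz : z = y
      · subst hyz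
        apply (Ptw h1).2
        rw [h1.2, h2.2]
      · obtain ⟨y', h3, h4, h5⟩ := Pout h1 h2.1.symm hyz
        exact h5 (Pu h3 h2)
    have Pev : ∀ x, (∃ y, P x y) ∨ (∃ y, P y x) := by
      intro x
      have h0 := (SimpleGraph.reachable_iff_reflTransGen a x).1 (hG.preconnected a x)
      induction h0 with
      | refl => exact Or.inl ⟨b, hab.1, rfl⟩
      | @tail p q _ hpq ih =>
        rcases ih with ⟨y, h1⟩ | ⟨y, h1⟩
        · by_cases h2 : q = y
          · subst h2; exact Or.inr ⟨p, h1⟩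
          · obtain ⟨y', h3, _⟩ := Pout h1 hpq h2
            exact Or.inl ⟨y', h3⟩
        · by_cases h2 : q = y
          · subst h2; exact Or.inl ⟨p, h1⟩
          · obtain ⟨y', h3, _⟩ := Pin h1 hpq h2
            exact Or.inr ⟨y', h3⟩
    have Pev' : ∀ x, ∃ y, P x y ∨ P y x := by
      intro x
      rcases Pev x with ⟨y, h⟩ | ⟨y, h⟩
      · exact ⟨y, Or.inl h⟩
      · exact ⟨y, Or.inr h⟩
    choose φ hφ using Pev'
    let c : V → Prop := fun x => ∃ y, P x y
    have φout : ∀ {x y}, P x y → φ x = y := by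
      intro x y h
      rcases hφ x with h1 | h1
      · exact Pu h1 h
      · exact (Pboth h h1).elim
    have φin : ∀ {x y}, P y x → φ x = y := by
      intro x y h
      rcases hφ x with h1 | h1
      · exact (Pboth h1 h).elim
      · exact Pu' h1 h
    refine hB φ c ⟨?_, ?_, ?_, ?_⟩
    · intro x
      rcases hφ x with h1 | h1
      · exact φin h1
      · exact φout h1
    · intro x
      rcases hφ x with h1 | h1
      · exact h1.1
      · exact h1.1.symm
    · intro x y hxy
      by_cases h2 : y = φ x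
      · subst h2
        have : φ (φ x) = x := by
          rcases hφ x with h1 | h1
          · exact φin h1
          · exact φout h1
        rw [this]; exact hxy.symm
      · rcases hφ x with h1 | h1
        · obtain ⟨y', h3, h4, _⟩ := Pout h1 hxy h2
          rw [φout h3]; exact h4
        · obtain ⟨y', h3, h4⟩ := Pin h1 hxy h2
          rw [φin h3]; exact h4
    · intro x y hxy
      constructor
      · intro h1
        by_contra h2
        apply h1
        constructor
        · rintro ⟨z, hz⟩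
          have : y ≠ z := by
            intro h; apply h2; rw [h, φout hz]
          obtain ⟨y', h3, _⟩ := Pout hz hxy this
          exact ⟨y', h3⟩
        · rintro ⟨z, hz⟩
          have : x ≠ z := by
            intro h
            apply h2
            rw [← h] at hz
            exact (φin hz).symm
          obtain ⟨y', h3, _⟩ := Pout hz hxy.symm this
          exact ⟨y', h3⟩
      · rintro rfl h1
        rcases hφ x with h2 | h2
        · obtain ⟨z, hz⟩ := h1.1 ⟨_, h2⟩
          exact Pboth hz h2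
        · obtain ⟨z, hz⟩ := h1.2 ⟨_, h2⟩
          exact Pboth hz h2
  · push Not at hstar
    obtain ⟨x, x', y, y', h1, h2, h3, h4, h5⟩ := hstar
    obtain ⟨ρ, hρ, hs, hx⟩ := hu.exists_rot hG h5 (⟨h3, h4, rfl⟩ : Sq G u (Dd u x x' y') x x' y' y)
    refine ⟨_, ρ, h5, hρ, hs, ?_⟩
    obtain ⟨h6, _⟩ := hu.rot_data hG hC h5 hρ hs
    by_contra hne
    have h7 : hh u a b = hh u a (ρ a) := by
      rw [h6 a x, hx, h2]
    exact hu.tw_ne_hh hab (hρ.move a) (Ne.symm hne) h7

end

end QSym
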