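import Pool.Agent.Lib.MP_a717c1_al.Rot

/-!
# Elimination of rotations, when all `t` are `0`, `1` or `1/2`
-/

set_option linter.unusedSectionVars false
set_option linter.unusedDecidableInType false

namespace QSym

open Finset SimpleGraph

variable {V V₁ V₂ : Type*} [Fintype V] [Fintype V₁] [Fintype V₂]
variable {A : Type*} [Ring A] [StarRing A] [FReal A]
variable {G : SimpleGraph V} {G₁ : SimpleGraph V₁} {G₂ : SimpleGraph V₂}
variable {u : V → V₁ × V₂ → A}

/-- Rotation data with `t = 1/2`. -/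
structure RotD (G : SimpleGraph V) (u : V → V₁ × V₂ → A) where
  ρ : Equiv.Perm V
  g : A
  k : A
  hk : k = star g
  rot : IsRot G ρ
  hg : ∀ x, hh u x (ρ x) = g
  inv : ∀ x y, G.Adj x y → hh u (ρ x) (ρ y) = hh u x y
  sum : g + k = 1
  prod : g * k + g * k = 1
  prod' : k * g + k * g = 1

namespace RotD

theorem hk' (r : RotD G u) : r.g = star r.k := by rw [r.hk, star_star]

theorem hg' (hu : QI G (G₁ □ G₂) u) (r : RotD G u) (x : V) : hh u x (r.ρ.symm x) = r.k := by
  have := r.hg (r.ρ.symm x)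
  rw [Equiv.apply_symm_apply] at this
  rw [r.hk, ← this, hu.star_hh]

/-- the inverse rotation -/
def inv' (hu : QI G (G₁ □ G₂) u) (r : RotD G u) : RotD G u where
  ρ := r.ρ.symm
  g := r.k
  k := r.g
  hk := r.hk'
  rot := r.rot.symm
  hg x := r.hg' hu x
  inv x y h := by
    have h2 : G.Adj (r.ρ.symm x) (r.ρ.symm y) := r.rot.symm.adj _ _ h
    have := r.inv _ _ h2
    rw [Equiv.apply_symm_apply, Equiv.apply_symm_apply] at this
    exact this.symm
  sum := by rw [add_comm]; exact r.sum
  prod := r.prod'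
  prod' := r.prod

theorem tw (hu : QI G (G₁ □ G₂) u) (r : RotD G u) (x : V) (h1 : (1 : A) ≠ 0) :
    Tw G u x (r.ρ x) := by
  refine ⟨r.rot.move x, ?_⟩
  rw [r.hg, ← hu.star_hh, r.hg, ← r.hk]
  intro h
  have e1 := r.sum
  have e2 := r.prod
  rw [← h] at e1 e2
  apply h1
  have e3 : r.g = (r.g + r.g) * r.g := by rw [e1, one_mul]
  rw [add_mul, e2] at e3
  rw [e3] at e1
  have : (1 : A) + 1 = 1 := e1
  simpa using this

theorem comm (hu : QI G (G₁ □ G₂) u) (h1 : (1 : A) ≠ 0) (r r' : RotD G u) (x : V) :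
    r.ρ (r'.ρ x) = r'.ρ (r.ρ x) := by
  by_contra hne
  have e1 : hh u (r.ρ x) (r.ρ (r'.ρ x)) = r'.g := by
    rw [r.inv _ _ (r'.rot.move x), r'.hg]
  have e2 : hh u (r.ρ x) (r'.ρ (r.ρ x)) = r'.g := r'.hg _
  exact hu.tw_ne_hh (r'.tw hu (r.ρ x) h1) (r.rot.adj _ _ (r'.rot.move x)) (Ne.symm hne)
    (e2.trans e1.symm)

theorem gg_comm (hu : QI G (G₁ □ G₂) u) (h1 : (1 : A) ≠ 0) (r r' : RotD G u) [Nonempty V] :
    r.g * r'.g = r'.g * r.g := by
  obtain ⟨x⟩ := ‹Nonempty V›
  have p1 := hu.path' (r.rot.move x) (r'.rot.move (r.ρ x))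
  have p2 := hu.path' (r'.rot.move x) (r.rot.move (r'.ρ x))
  rw [r.hg, r'.hg] at p1 p2
  rw [r.comm hu h1] at p2
  have : r.g * r'.g + r.g * r'.g = r'.g * r.g + r'.g * r.g := by
    rw [add_comm r'.g r.g, p1] at p2
    exact add_left_cancel p2
  exact freal_two' this

theorem R1 (hu : QI G (G₁ □ G₂) u) (r : RotD G u) (x : V) (i : V₂) :
    Rr u x i * r.g = r.g * Rr u (r.ρ x) i := by
  rw [← r.hg x, hu.Rr_mul_hh, hu.hh_mul_Rr]

theorem C1 (hu : QI G (G₁ □ G₂) u) (r : RotD G u) (x : V) (i : V₁) :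
    Cc u x i * r.k = r.k * Cc u (r.ρ x) i := by
  have : r.k = kk u x (r.ρ x) := by
    have h1 := hu.hh_add_kk (r.rot.move x)
    rw [r.hg] at h1
    have h2 := r.sum
    rw [← h1] at h2
    exact add_left_cancel h2
  rw [this, hu.Cc_mul_kk, hu.kk_mul_Cc]

end RotD

/-- composition of a list of rotations -/
def rho : List (RotD G u) → V → V
  | [], x => x
  | r :: L, x => rho L (r.ρ x)

/-- product of the elements `g` -/
def gg : List (RotD G u) → A
  | [] => 1
  | r :: L => r.g * gg L

/-- product of the elements `g*` -/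
def gs : List (RotD G u) → A
  | [] => 1
  | r :: L => r.k * gs L

section lists

variable (hu : QI G (G₁ □ G₂) u)
include hu

theorem rho_comm (h1 : (1 : A) ≠ 0) (r : RotD G u) (L : List (RotD G u)) (x : V) :
    rho L (r.ρ x) = r.ρ (rho L x) := by
  induction L generalizing x with
  | nil => rfl
  | cons r' L ih =>
    simp only [rho]
    rw [← ih, r.comm hu h1]

theorem rho_comm' (h1 : (1 : A) ≠ 0) (L L' : List (RotD G u)) (x : V) :
    rho L (rho L' x) = rho L' (rho L x) := by
  induction L' generalizing x with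
  | nil => rfl
  | cons r' L' ih =>
    simp only [rho]
    rw [ih, rho_comm hu h1]

omit hu in
theorem rho_inj (L : List (RotD G u)) {x y : V} (h : rho L x = rho L y) : x = y := by
  induction L generalizing x y with
  | nil => exact h
  | cons r L ih => exact r.ρ.injective (ih h)

theorem rho_four (h1 : (1 : A) ≠ 0) (L : List (RotD G u)) (x : V) :
    rho L (rho L (rho L (rho L x))) = x := by
  induction L generalizing x with
  | nil => rfl
  | cons r L ih =>
    simp only [rho]
    simp only [rho_comm hu h1]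
    rw [r.rot.four, ih]

omit hu in
theorem rho_adj (L : List (RotD G u)) {x y : V} (h : G.Adj x y) : G.Adj (rho L x) (rho L y) := by
  induction L generalizing x y with
  | nil => exact h
  | cons r L ih => exact ih (r.rot.adj _ _ h)

omit hu in
theorem rho_hh (L : List (RotD G u)) {x y : V} (h : G.Adj x y) :
    hh u (rho L x) (rho L y) = hh u x y := by
  induction L generalizing x y with
  | nil => rfl
  | cons r L ih =>
    simp only [rho]
    rw [ih (r.rot.adj _ _ h), r.inv _ _ h]

theorem gg_comm_g [Nonempty V] (h1 : (1 : A) ≠ 0) (r : RotD G u) (L : List (RotD G u)) :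
    r.g * gg L = gg L * r.g := by
  induction L with
  | nil => simp [gg]
  | cons r' L ih =>
    simp only [gg]
    rw [← mul_assoc, r.gg_comm hu h1, mul_assoc, ih, mul_assoc]

theorem gs_comm_g [Nonempty V] (h1 : (1 : A) ≠ 0) (r : RotD G u) (L : List (RotD G u)) :
    r.g * gs L = gs L * r.g := by
  induction L with
  | nil => simp [gs]
  | cons r' L ih =>
    simp only [gs]
    have : r.g * r'.k = r'.k * r.g := r.gg_comm hu h1 (r'.inv' hu)
    rw [← mul_assoc, this, mul_assoc, ih, mul_assoc]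

theorem gs_comm_k [Nonempty V] (h1 : (1 : A) ≠ 0) (r : RotD G u) (L : List (RotD G u)) :
    r.k * gs L = gs L * r.k := gs_comm_g hu h1 (r.inv' hu) L

theorem gg_comm_k [Nonempty V] (h1 : (1 : A) ≠ 0) (r : RotD G u) (L : List (RotD G u)) :
    r.k * gg L = gg L * r.k := gg_comm_g hu h1 (r.inv' hu) L

theorem star_gg [Nonempty V] (h1 : (1 : A) ≠ 0) (L : List (RotD G u)) : star (gg L) = gs L := by
  induction L with
  | nil => simp [gg, gs]
  | cons r L ih =>
    simp only [gg, gs]
    rw [star_mul, ih, ← r.hk, gs_comm_k hu h1]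

theorem gg_gs [Nonempty V] (h1 : (1 : A) ≠ 0) (L : List (RotD G u)) :
    (2 ^ L.length : ℕ) • (gg L * gs L) = 1 ∧ (2 ^ L.length : ℕ) • (gs L * gg L) = 1 := by
  induction L with
  | nil => simp [gg, gs]
  | cons r L ih =>
    obtain ⟨i1, i2⟩ := ih
    simp only [gg, gs, List.length_cons, pow_succ']
    constructor
    · have : r.g * gg L * (r.k * gs L) = (r.g * r.k) * (gg L * gs L) := by
        rw [mul_assoc, ← mul_assoc (gg L), ← gg_comm_k hu h1 r L]
        simp only [mul_assoc]
      rw [this, mul_smul, ← mul_smul_comm, i1, mul_one, two_nsmul, r.prod]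
    · have : r.k * gs L * (r.g * gg L) = (r.k * r.g) * (gs L * gg L) := by
        rw [mul_assoc, ← mul_assoc (gs L), ← gs_comm_g hu h1 r L]
        simp only [mul_assoc]
      rw [this, mul_smul, ← mul_smul_comm, i2, mul_one, two_nsmul, r.prod']

theorem RotD.g4 (r : RotD G u) : (4 : ℤ) • (r.g * r.g * (r.g * r.g)) = -1 := by
  have h1 : r.k = 1 - r.g := eq_sub_of_add_eq' r.sum
  have h2 := r.prod
  rw [h1] at h2
  -- 2(g - g²) = 1
  have h3 : (2 : ℤ) • (r.g * r.g) = (2 : ℤ) • r.g - 1 := by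
    rw [← h2]
    simp only [two_zsmul]
    noncomm_ring
  calc (4 : ℤ) • (r.g * r.g * (r.g * r.g)) = ((2 : ℤ) • (r.g * r.g)) * ((2 : ℤ) • (r.g * r.g)) := by
        simp only [two_zsmul]; noncomm_ring
    _ = ((2 : ℤ) • r.g - 1) * ((2 : ℤ) • r.g - 1) := by rw [h3]
    _ = (2 : ℤ) • ((2 : ℤ) • (r.g * r.g)) - (4 : ℤ) • r.g + 1 := by noncomm_ring
    _ = (2 : ℤ) • ((2 : ℤ) • r.g - 1) - (4 : ℤ) • r.g + 1 := by rw [h3]
    _ = -1 := by noncomm_ring

theorem gg4 [Nonempty V] (h1 : (1 : A) ≠ 0) (L : List (RotD G u)) :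
    (4 ^ L.length : ℤ) • (gg L * gg L * (gg L * gg L)) = (-1 : ℤ) ^ L.length • (1 : A) := by
  induction L with
  | nil => simp [gg]
  | cons r L ih =>
    simp only [gg, List.length_cons, pow_succ']
    have e : r.g * gg L * (r.g * gg L) * (r.g * gg L * (r.g * gg L)) =
        (r.g * r.g * (r.g * r.g)) * (gg L * gg L * (gg L * gg L)) := by
      have c := gg_comm_g hu h1 r L
      have e1 : r.g * gg L * (r.g * gg L) = (r.g * r.g) * (gg L * gg L) := by
        rw [mul_assoc, ← mul_assoc (gg L), ← c]; simp only [mul_assoc]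
      have e2 : gg L * gg L * (r.g * r.g) = (r.g * r.g) * (gg L * gg L) := by
        calc gg L * gg L * (r.g * r.g) = gg L * (gg L * r.g) * r.g := by noncomm_ring
          _ = gg L * (r.g * gg L) * r.g := by rw [c]
          _ = (gg L * r.g) * (gg L * r.g) := by noncomm_ring
          _ = (r.g * gg L) * (r.g * gg L) := by rw [c]
          _ = _ := e1
      rw [e1, mul_assoc, ← mul_assoc (gg L * gg L), e2]
      simp only [mul_assoc]
    rw [e, mul_smul, ← mul_smul_comm, ih, mul_smul_comm, mul_one, smul_comm, r.g4 hu, mul_smul]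
    simp

theorem rho_R (L : List (RotD G u)) (x : V) (i : V₂) :
    Rr u x i * gg L = gg L * Rr u (rho L x) i := by
  induction L generalizing x with
  | nil => simp [gg, rho]
  | cons r L ih =>
    simp only [gg, rho]
    rw [← mul_assoc, r.R1 hu, mul_assoc, ih, mul_assoc]

theorem rho_C (L : List (RotD G u)) (x : V) (i : V₁) :
    Cc u x i * gs L = gs L * Cc u (rho L x) i := by
  induction L generalizing x with
  | nil => simp [gs, rho]
  | cons r L ih =>
    simp only [gs, rho]
    rw [← mul_assoc, r.C1 hu, mul_assoc, ih, mul_assoc]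

theorem rho_R' [Nonempty V] (h1 : (1 : A) ≠ 0) (L : List (RotD G u)) (x : V) (i : V₂) :
    gs L * Rr u x i = Rr u (rho L x) i * gs L := by
  have := congrArg star (rho_R hu L x i)
  rwa [star_mul, star_mul, star_gg hu h1, hu.star_Rr, hu.star_Rr] at this

theorem rho_C' [Nonempty V] (h1 : (1 : A) ≠ 0) (L : List (RotD G u)) (x : V) (i : V₁) :
    gg L * Cc u x i = Cc u (rho L x) i * gg L := by
  have := congrArg star (rho_C hu L x i)
  rwa [star_mul, star_mul, ← star_gg hu h1, star_star, hu.star_Cc, hu.star_Cc] at this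

/-- the key vanishing -/
theorem vanish [Nonempty V] (h1 : (1 : A) ≠ 0) (L : List (RotD G u)) {a b : V}
    (hR : ∀ i, Rr u b i = Rr u a i) (hC : ∀ i, Cc u b i = Cc u (rho L (rho L a)) i)
    (hne : a ≠ rho L b) (w : V₁ × V₂) : u a w * gs L * u a w = 0 := by
  obtain ⟨s, r⟩ := w
  set n := L.length with hn
  set p := rho L b
  have e0 : u a (s, r) * u p (s, r) = 0 := hu.col_orth hne
  rw [← hu.Cc_mul_Rr a, ← hu.Rr_mul_Cc p] at e0
  -- multiply on the right by g, g², and by 2^n
  have e1 : Rr u p r = (2 ^ n : ℕ) • (gs L * Rr u a r * gg L) := by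
    rw [← hR r, rho_R' hu h1, mul_assoc, ← mul_smul_comm, (gg_gs hu h1 L).2, mul_one]
  have e2 : Cc u p s * gg L = gg L * Cc u (rho L (rho L a)) s := by
    rw [← hC s, rho_C' hu h1]
  have e3 : Cc u (rho L (rho L a)) s * gg L * gg L = gg L * gg L * Cc u a s := by
    rw [← rho_C' hu h1, mul_assoc, ← rho_C' hu h1, ← mul_assoc]
  have e4 : Cc u a s * Rr u a r * (Rr u p r * Cc u p s) * gg L * gg L * gg L =
      (2 ^ n : ℕ) • (Cc u a s * Rr u a r * gs L * Rr u a r * (gg L * gg L * (gg L * gg L)) * Cc u a s) := by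
    calc Cc u a s * Rr u a r * (Rr u p r * Cc u p s) * gg L * gg L * gg L
        = Cc u a s * Rr u a r * Rr u p r * (Cc u p s * gg L) * gg L * gg L := by noncomm_ring
      _ = Cc u a s * Rr u a r * Rr u p r * gg L * (Cc u (rho L (rho L a)) s * gg L * gg L) := by
          rw [e2]; noncomm_ring
      _ = Cc u a s * Rr u a r * ((2 ^ n : ℕ) • (gs L * Rr u a r * gg L)) * gg L *
            (gg L * gg L * Cc u a s) := by rw [e3, e1]
      _ = _ := by
          simp only [mul_smul_comm, smul_mul_assoc]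
          congr 1
          noncomm_ring
  have e5 : Cc u a s * Rr u a r * (Rr u p r * Cc u p s) = 0 := e0
  rw [e5, zero_mul, zero_mul, zero_mul] at e4
  have e6 := freal_nsmul (by positivity) e4.symm
  -- now use the scalar g⁴
  have e7 : (4 ^ n : ℤ) • (Cc u a s * Rr u a r * gs L * Rr u a r *
      (gg L * gg L * (gg L * gg L)) * Cc u a s) =
      (-1 : ℤ) ^ n • (Cc u a s * Rr u a r * gs L * Rr u a r * Cc u a s) := by
    rw [← smul_mul_assoc, ← mul_smul_comm, gg4 hu h1 L]
    simp only [mul_smul_comm, mul_one, smul_mul_assoc]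
    rw [← hn]
  rw [e6, smul_zero] at e7
  have e8 : Cc u a s * Rr u a r * gs L * Rr u a r * Cc u a s = 0 := by
    rcases neg_one_pow_eq_or ℤ n with h2 | h2
    · rw [h2, one_smul] at e7
      exact e7.symm
    · rw [h2, neg_smul, one_smul] at e7
      exact neg_eq_zero.1 e7.symm
  calc u a (s, r) * gs L * u a (s, r)
      = Cc u a s * Rr u a r * gs L * (Rr u a r * Cc u a s) := by
        rw [hu.Cc_mul_Rr, hu.Rr_mul_Cc]
    _ = _ := by rw [← mul_assoc]; exact e8

end lists

end QSym
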