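import Mathlib

/-!
# Selection of slots (Hall's theorem)
-/

namespace QSym

open Finset Function

theorem selection_aux {ι : Type*} [Fintype ι] [DecidableEq ι] (σ : ι × Bool → ι × Bool)
    (hσ : Bijective σ) : ∃ s : ι → Bool, Bijective (fun i => (σ (i, s i)).1) ∧
      Bijective (fun i => (σ (i, !(s i))).1) := by
  let t : ι → Finset ι := fun i => {(σ (i, true)).1, (σ (i, false)).1}
  have hall : ∀ S : Finset ι, S.card ≤ (S.biUnion t).card := by
    intro S
    have h1 : ((S ×ˢ (Finset.univ : Finset Bool)).image σ).card = S.card * 2 := by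
      rw [Finset.card_image_of_injective _ hσ.1, Finset.card_product]
      simp
    have h2 : ((S ×ˢ (Finset.univ : Finset Bool)).image σ) ⊆
        (S.biUnion t) ×ˢ (Finset.univ : Finset Bool) := by
      intro j hj
      rw [Finset.mem_image] at hj
      obtain ⟨⟨i, b⟩, hi, rfl⟩ := hj
      rw [Finset.mem_product] at hi ⊢
      refine ⟨?_, Finset.mem_univ _⟩
      rw [Finset.mem_biUnion]
      refine ⟨i, hi.1, ?_⟩
      cases b <;> simp [t]
    have h3 := Finset.card_le_card h2
    rw [h1, Finset.card_product] at h3
    simp at h3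
    exact h3
  obtain ⟨f, hf, hft⟩ := (Finset.all_card_le_biUnion_card_iff_exists_injective t).1 hall
  let s : ι → Bool := fun i => decide (f i = (σ (i, true)).1)
  have hs : ∀ i, (σ (i, s i)).1 = f i := by
    intro i
    by_cases h : f i = (σ (i, true)).1
    · have : s i = true := by simp [s, h]
      rw [this, h]
    · have h2 : s i = false := by simp [s, h]
      have h3 := hft i
      simp only [t, Finset.mem_insert, Finset.mem_singleton] at h3
      rcases h3 with h3 | h3
      · exact absurd h3 h
      · rw [h2, h3]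
  have e1 : (fun i => (σ (i, s i)).1) = f := funext hs
  have b1 : Bijective (fun i => (σ (i, s i)).1) := by
    rw [e1]; exact Finite.injective_iff_bijective.1 hf
  refine ⟨s, b1, ?_⟩
  apply Finite.surjective_iff_bijective.1
  intro k
  obtain ⟨⟨i, b⟩, hi⟩ := hσ.2 (k, true)
  obtain ⟨⟨i', b'⟩, hi'⟩ := hσ.2 (k, false)
  by_cases h1 : b = !(s i)
  · refine ⟨i, ?_⟩
    simp only
    rw [← h1, hi]
  · by_cases h2 : b' = !(s i')
    · refine ⟨i', ?_⟩
      simp only
      rw [← h2, hi']
    · exfalso
      have h3 : b = s i := by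
        cases b <;> cases h : s i <;> simp_all
      have h4 : b' = s i' := by
        cases b' <;> cases h : s i' <;> simp_all
      have h5 : i = i' := by
        apply b1.1
        simp only
        rw [← h3, ← h4, hi, hi']
      subst h5
      rw [← h4] at h3
      subst h3
      rw [hi] at hi'
      simp at hi'

/-- Every permutation of `ι × Bool` splits into two transversals. -/
theorem selection {ι : Type*} [Fintype ι] [DecidableEq ι] (σ : ι × Bool → ι × Bool)
    (hσ : Bijective σ) : ∃ (s b : ι → Bool) (f f' : ι ≃ ι),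
      (∀ i, σ (i, s i) = (f i, b (f i))) ∧ (∀ i, σ (i, !(s i)) = (f' i, !(b (f' i)))) := by
  obtain ⟨s, h1, h2⟩ := selection_aux σ hσ
  let f := Equiv.ofBijective _ h1
  let f' := Equiv.ofBijective _ h2
  have hf : ∀ i, (σ (i, s i)).1 = f i := fun i => rfl
  have hf' : ∀ i, (σ (i, !(s i))).1 = f' i := fun i => rfl
  refine ⟨s, fun k => (σ (f.symm k, s (f.symm k))).2, f, f', ?_, ?_⟩
  · intro i
    apply Prod.ext
    · rfl
    · simp
  · intro i
    apply Prod.ext
    · rfl
    · simp only
      have hne : σ (i, !(s i)) ≠ σ (f.symm (f' i), s (f.symm (f' i))) := by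
        intro h
        have h3 := hσ.1 h
        have h4 : i = f.symm (f' i) := congrArg Prod.fst h3
        have h5 : (!(s i)) = s (f.symm (f' i)) := congrArg Prod.snd h3
        rw [← h4] at h5
        simp at h5
      have h6 : (σ (i, !(s i))).1 = (σ (f.symm (f' i), s (f.symm (f' i)))).1 := by
        rw [hf, hf', Equiv.apply_symm_apply]
      have h7 : (σ (i, !(s i))).2 ≠ (σ (f.symm (f' i), s (f.symm (f' i)))).2 :=
        fun h => hne (Prod.ext h6 h)
      cases h8 : (σ (i, !(s i))).2 <;> cases h9 : (σ (f.symm (f' i), s (f.symm (f' i)))).2 <;>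
        simp_all

end QSym
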