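import Pool.Agent.Lib.MP_a717c1_al.Slots

/-!
# The permutation of the slots
-/

set_option linter.unusedSectionVars false
set_option linter.unusedDecidableInType false

namespace QSym

open Finset SimpleGraph Relation

section

variable {J : Type*} [Fintype J] [DecidableEq J] {V : J → Type*} [∀ j, Fintype (V j)]
  [∀ j, DecidableEq (V j)]
variable {A : Type*} [Ring A] [StarRing A] [FReal A]
variable {x : ∀ j, SimpleGraph (V j)} {u : (∀ j, V j) → (∀ j, V j) → A}

/-- all directions are decided -/
def Decided (x : ∀ j, SimpleGraph (V j)) (u : (∀ j, V j) → (∀ j, V j) → A) : Prop :=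
  ∀ k z z', (PiBox x).Adj z z' → hh (us x u k) z z' = 0 ∨ hh (us x u k) z z' = 1

variable (hu : QI (PiBox x) (PiBox x) u)
include hu

theorem QI.hh_one_tt (h1 : (1 : A) ≠ 0) (hd : Decided x u) {z z' : ∀ j, V j}
    (hz : (PiBox x).Adj z z') (k : J) :
    hh (us x u k) z z' = 1 ↔ tt (us x u k) z z' = 1 := by
  constructor
  · intro h
    unfold tt
    rw [← (hu.slot k).star_hh z z', h, star_one, one_mul]
  · intro h
    rcases hd k z z' hz with h2 | h2
    · exfalso
      apply h1
      rw [← h]
      unfold tt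
      rw [h2, zero_mul]
    · exact h2

theorem QI.translate (h1 : (1 : A) ≠ 0) (hd : Decided x u) (hZ : (PiBox x).Connected) (j k : J)
    {a b : V j} (hab : (x j).Adj a b) (r r' : ∀ i : {i // i ≠ j}, V i) :
    hh (us x u k) ((slotIso x j).symm (a, r)) ((slotIso x j).symm (b, r)) = 1 ↔
    hh (us x u k) ((slotIso x j).symm (a, r')) ((slotIso x j).symm (b, r')) = 1 := by
  have hc : ((x j) □ (PiBox (fun i : {i // i ≠ j} => x i))).Connected :=
    (slotIso x j).connected_iff.1 hZ
  have hc2 := (connected_boxProd.1 hc).2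
  have adj : ∀ r, (PiBox x).Adj ((slotIso x j).symm (a, r)) ((slotIso x j).symm (b, r)) := by
    intro r
    rw [(slotIso x j).symm.map_adj_iff, boxProd_adj]
    left; exact ⟨hab, rfl⟩
  have h0 := (SimpleGraph.reachable_iff_reflTransGen r r').1 (hc2.preconnected r r')
  induction h0 with
  | refl => exact Iff.rfl
  | @tail p q _ hpq ih =>
    refine Iff.trans ih ?_
    rw [hu.hh_one_tt h1 hd (adj p), hu.hh_one_tt h1 hd (adj q)]
    have hD := dia_iso (slotIso x j) (dia_mixed hab hpq)
    rw [(hu.slot k).tt_square hD]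

/-- each layer of a slot has a constant direction -/
theorem QI.layer_const (h1 : (1 : A) ≠ 0) (hd : Decided x u) (j k : J) (hp : PrimeG (x j))
    (r : ∀ i : {i // i ≠ j}, V i) :
    (∀ a b, (x j).Adj a b →
      hh (us x u k) ((slotIso x j).symm (a, r)) ((slotIso x j).symm (b, r)) = 1) ∨
    (∀ a b, (x j).Adj a b →
      ¬ hh (us x u k) ((slotIso x j).symm (a, r)) ((slotIso x j).symm (b, r)) = 1) := by
  set s : V j → (∀ j, V j) := fun a => (slotIso x j).symm (a, r) with hs
  have adj : ∀ {a b}, (PiBox x).Adj (s a) (s b) ↔ (x j).Adj a b := by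
    intro a b
    rw [hs]
    simp only
    rw [(slotIso x j).symm.map_adj_iff, boxProd_adj]
    simp
  apply hp
  have hsym : ∀ {z z'}, hh (us x u k) z z' = 1 → hh (us x u k) z' z = 1 := by
    intro z z' h
    rw [← (hu.slot k).star_hh z z', h, star_one]
  have hsym0 : ∀ {z z'}, hh (us x u k) z z' = 0 → hh (us x u k) z' z = 0 := by
    intro z z' h
    rw [← (hu.slot k).star_hh z z', h, star_zero]
  have dec0 : ∀ {z z'}, (PiBox x).Adj z z' → ¬ hh (us x u k) z z' = 1 →
      hh (us x u k) z z' = 0 := by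
    intro z z' h2 h3
    rcases hd k z z' h2 with h | h
    · exact h
    · exact absurd h h3
  refine ⟨fun h => hsym h, ?_, ?_⟩
  · intro a b a' hab hE haa hE'
    have h2 : Kk (PiBox x) (us x u k) (s a') (s a) :=
      ⟨adj.2 haa.symm, hsym0 (dec0 (adj.2 haa) hE')⟩
    have h3 : Hh (PiBox x) (us x u k) (s a) (s b) := ⟨adj.2 hab, hE⟩
    obtain ⟨y, h4, h5⟩ := (hu.slot k).HK_swap h1 h2 h3
    -- the vertex `y` lies in the layer
    have c1 : s a' ≠ s b := by
      intro h
      have : a' = b := by
        have := (slotIso x j).symm.injective h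
        exact congrArg Prod.fst this
      subst this
      exact hE' hE
    have c2 : y ≠ s a := by
      rintro rfl
      have := h4.2
      rw [h2.2] at this
      exact h1 this.symm
    have e1 : ∀ a, slotIso x j (s a) = (a, r) := fun a => (slotIso x j).apply_symm_apply _
    have m1 := (slotIso x j).map_adj_iff.2 h4.1
    have m2 := (slotIso x j).map_adj_iff.2 h5.1
    have m3 := (slotIso x j).map_adj_iff.2 h2.1
    have m4 := (slotIso x j).map_adj_iff.2 h3.1
    have := box_opp m3 m4 m2 m1 (fun h => c1 ((slotIso x j).injective h))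
      (fun h => c2 ((slotIso x j).injective h).symm)
    rw [e1, e1, e1] at this
    have hy : (slotIso x j y).2 = r := this.1 rfl
    have hy2 : y = s (slotIso x j y).1 := by
      rw [hs]
      simp only
      rw [← hy]
      exact ((slotIso x j).symm_apply_apply y).symm
    refine ⟨(slotIso x j y).1, ?_, ?_, ?_, ?_⟩
    · rw [← adj, ← hy2]; exact h4.1
    · change hh (us x u k) (s a') (s (slotIso x j y).1) = 1
      rw [← hy2]; exact h4.2
    · rw [← adj, ← hy2]; exact h5.1.symm
    · change ¬ hh (us x u k) (s b) (s (slotIso x j y).1) = 1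
      rw [← hy2]
      intro h6
      have := hsym0 h5.2
      rw [h6] at this
      exact h1 this
  · intro a b h2 h3
    have h4 : ReflTransGen (Hh (PiBox x) (us x u k)) (s a) (s b) :=
      rtg_lift s (fun h => ⟨adj.2 h.1, h.2⟩) h2
    have h5 : ReflTransGen (Kk (PiBox x) (us x u k)) (s a) (s b) :=
      rtg_lift s (fun h => ⟨adj.2 h.1, dec0 (adj.2 h.1) h.2⟩) h3
    have h6 := (hu.slot k).eq_of_u_eq h1 ((hu.slot k).Rr_eq_of_Hh h4)
      ((hu.slot k).Cc_eq_of_Kk h5)
    have h7 := (slotIso x j).symm.injective h6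
    exact congrArg Prod.fst h7

/-- the slots are permuted -/
theorem QI.exists_sigma (h1 : (1 : A) ≠ 0) (hd : Decided x u) (hZ : (PiBox x).Connected)
    (hp : ∀ j, PrimeG (x j)) (hn : ∀ j, Nontrivial (V j)) :
    ∃ σ : J → J, ∀ (j : J) (z z' : ∀ j, V j), (x j).Adj (z j) (z' j) →
      (∀ i, i ≠ j → z i = z' i) → ∀ k, hh (us x u k) z z' = 1 ↔ k = σ j := by
  have key : ∀ j : J, ∃ k₀ : J, ∀ (z z' : ∀ j, V j), (x j).Adj (z j) (z' j) →
      (∀ i, i ≠ j → z i = z' i) → ∀ k, hh (us x u k) z z' = 1 ↔ k = k₀ := by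
    intro j
    obtain ⟨z₀⟩ := hZ.nonempty
    -- an edge in `x j`
    have hc : ((x j) □ (PiBox (fun i : {i // i ≠ j} => x i))).Connected :=
      (slotIso x j).connected_iff.1 hZ
    have hc1 := (connected_boxProd.1 hc).1
    obtain ⟨a, b, hab⟩ : ∃ a b, (x j).Adj a b := by
      obtain ⟨p, q, hpq⟩ := hn j
      by_contra hcon
      push Not at hcon
      apply hpq
      have h0 := (SimpleGraph.reachable_iff_reflTransGen p q).1 (hc1.preconnected p q)
      rcases ReflTransGen.cases_head h0 with h | ⟨c, h, _⟩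
      · exact h
      · exact absurd h (hcon _ _)
    set r := (slotIso x j z₀).2
    have adj0 : (PiBox x).Adj ((slotIso x j).symm (a, r)) ((slotIso x j).symm (b, r)) := by
      rw [(slotIso x j).symm.map_adj_iff, boxProd_adj]
      left; exact ⟨hab, rfl⟩
    obtain ⟨k₀, hk₀⟩ := hu.exists_dir h1 adj0 (fun k => hd k _ _ adj0)
    refine ⟨k₀, ?_⟩
    intro z z' hz1 hz2 k
    have e1 : z = (slotIso x j).symm (z j, (slotIso x j z).2) :=
      ((slotIso x j).symm_apply_apply z).symm
    have e2 : z' = (slotIso x j).symm (z' j, (slotIso x j z).2) := by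
      have : (slotIso x j z).2 = (slotIso x j z').2 := by
        funext i
        exact hz2 i.1 i.2
      rw [this]
      exact ((slotIso x j).symm_apply_apply z').symm
    rw [e1, e2, hu.translate h1 hd hZ j k hz1 _ r, ← hk₀]
    rcases hu.layer_const h1 hd j k (hp j) r with h | h
    · simp only [h _ _ hz1, h _ _ hab]
    · simp only [h _ _ hz1, h _ _ hab]
  choose σ hσ using key
  exact ⟨σ, hσ⟩

end

end QSym
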