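import Pool.Agent.Lib.MP_a717c1_al.Sigma

/-!
# Coordinates of the image depend on one coordinate of the source
-/

set_option linter.unusedSectionVars false
set_option linter.unusedDecidableInType false

namespace QSym

open Finset SimpleGraph Relation

section

variable {J : Type*} [Fintype J] [DecidableEq J] {V : J → Type*} [∀ j, Fintype (V j)]
  [∀ j, DecidableEq (V j)]
variable {x : ∀ j, SimpleGraph (V j)}

theorem pi_walk (hc : ∀ j, (x j).Connected) {β : Type*} (F : (∀ j, V j) → β) (T : Finset J) :
    (∀ j ∈ T, ∀ z z' : ∀ j, V j, (x j).Adj (z j) (z' j) → (∀ i, i ≠ j → z i = z' i) →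
      F z = F z') → ∀ z z' : ∀ j, V j, (∀ j, j ∉ T → z j = z' j) → F z = F z' := by
  induction T using Finset.induction_on with
  | empty =>
    intro _ z z' h
    have : z = z' := funext fun j => h j (by simp)
    rw [this]
  | insert j T _ ih =>
    intro hF z z' h
    have e1 : ∀ c, ReflTransGen (x j).Adj (z j) c → F z = F (Function.update z j c) := by
      intro c hcc
      induction hcc with
      | refl => rw [Function.update_eq_self]
      | @tail p q _ hpq ih2 =>
        rw [ih2]
        apply hF j (Finset.mem_insert_self _ _)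
        · simpa using hpq
        · intro i hi
          rw [Function.update_of_ne hi, Function.update_of_ne hi]
    rw [e1 (z' j) ((SimpleGraph.reachable_iff_reflTransGen _ _).1 ((hc j).preconnected _ _))]
    apply ih (fun i hi => hF i (Finset.mem_insert_of_mem hi))
    intro i hi
    by_cases h2 : i = j
    · subst h2; simp
    · rw [Function.update_of_ne h2]
      exact h i (by simp [h2, hi])

variable {A : Type*} [Ring A] [StarRing A] [FReal A]
variable {u : (∀ j, V j) → (∀ j, V j) → A}
variable (hu : QI (PiBox x) (PiBox x) u)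

/-- the defining property of the map `σ` of slots -/
def IsSig (x : ∀ j, SimpleGraph (V j)) (u : (∀ j, V j) → (∀ j, V j) → A) (σ : J → J) : Prop :=
  ∀ (j : J) (z z' : ∀ j, V j), (x j).Adj (z j) (z' j) →
      (∀ i, i ≠ j → z i = z' i) → ∀ k, hh (us x u k) z z' = 1 ↔ k = σ j

include hu

/-- (F1) -/
theorem QI.Ck_dep (hd : Decided x u) (hc : ∀ j, (x j).Connected) {σ : J → J}
    (hσ : IsSig x u σ) {k : J} {z z' : ∀ j, V j} (h : ∀ j, σ j = k → z j = z' j) (b : V k) :
    Ck u k z b = Ck u k z' b := by
  refine pi_walk hc (fun z => Ck u k z b) (Finset.univ.filter (fun j => σ j ≠ k)) ?_ z z' ?_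
  · intro j hj y y' h1 h2
    have hj2 : σ j ≠ k := by simpa using hj
    have hadj : (PiBox x).Adj y y' := ⟨j, h1, h2⟩
    apply hu.Ck_eq_of_zero hadj
    rcases hd k y y' hadj with h3 | h3
    · exact h3
    · exact absurd ((hσ j y y' h1 h2 k).1 h3).symm hj2
  · intro j hj
    apply h
    by_contra h3
    exact hj (by simpa using h3)

theorem QI.sigma_surj (h1 : (1 : A) ≠ 0) (hd : Decided x u) (hc : ∀ j, (x j).Connected)
    (hn : ∀ j, Nontrivial (V j)) {σ : J → J} (hσ : IsSig x u σ) : Function.Surjective σ := by
  intro k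
  by_contra hk
  push Not at hk
  have hV : Nonempty (∀ j, V j) := ⟨fun j => (hc j).nonempty.some⟩
  obtain ⟨z₀⟩ := hV
  have hcst : ∀ z b, Ck u k z b = Ck u k z₀ b := fun z b =>
    hu.Ck_dep hd hc hσ (fun j hj => absurd hj (hk j)) b
  have one : ∀ b, Ck u k z₀ b = 1 := by
    intro b
    have e1 := hu.col (Function.update z₀ k b)
    have e2 : ∑ z, u z (Function.update z₀ k b) * Ck u k z₀ b = 1 := by
      rw [← e1]
      refine Finset.sum_congr rfl fun z _ => ?_
      rw [← hcst z b, hu.u_mul_Ck]
      simp
    rwa [← Finset.sum_mul, e1, one_mul] at e2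
  obtain ⟨b, b', hb⟩ := hn k
  apply h1
  calc (1 : A) = Ck u k z₀ b * Ck u k z₀ b' := by rw [one, one, mul_one]
    _ = 0 := hu.Ck_orth _ _ hb

/-- (F2) -/
theorem QI.Ck_QI (hd : Decided x u) (hc : ∀ j, (x j).Connected) {σ : J → J}
    (hσ : IsSig x u σ) (hb : Function.Bijective σ) (j : J) (z z' : ∀ j, V j) {b b' : V (σ j)}
    (h : Ck u (σ j) z b * Ck u (σ j) z' b' ≠ 0) :
    (z j = z' j ↔ b = b') ∧ ((x j).Adj (z j) (z' j) ↔ (x (σ j)).Adj b b') := by
  -- replace `z'` by a vertex differing from `z` at `j` only
  set y := Function.update z j (z' j) with hy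
  have hyj : y j = z' j := by simp [hy]
  have hyi : ∀ i, i ≠ j → z i = y i := fun i hi => by rw [hy, Function.update_of_ne hi]
  have e1 : Ck u (σ j) z' b' = Ck u (σ j) y b' := by
    apply hu.Ck_dep hd hc hσ
    intro i hi
    rw [hb.1 hi, hyj]
  rw [e1] at h
  obtain ⟨w, w', hw, hw', hne⟩ : ∃ w w', w (σ j) = b ∧ w' (σ j) = b' ∧ u z w * u y w' ≠ 0 := by
    by_contra hcon
    push Not at hcon
    apply h
    unfold Ck
    rw [Finset.sum_mul_sum]
    refine Finset.sum_eq_zero fun w _ => Finset.sum_eq_zero fun w' _ => ?_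
    by_cases h2 : w (σ j) = b <;> by_cases h3 : w' (σ j) = b'
    · rw [if_pos h2, if_pos h3]; exact hcon w w' h2 h3
    · rw [if_neg h3, mul_zero]
    · rw [if_neg h2, zero_mul]
    · rw [if_neg h2, zero_mul]
  have hoff : ∀ k, k ≠ σ j → w k = w' k := by
    intro k hk
    by_contra h2
    apply hu.Ck_ne hne k
    have : Ck u k z (w k) = Ck u k y (w k) := by
      apply hu.Ck_dep hd hc hσ
      intro i hi
      apply hyi
      rintro rfl
      exact hk hi.symm
    rw [this]
    exact hu.Ck_orth _ _ h2
  constructor
  · rw [← hyj, ← hw, ← hw']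
    constructor
    · intro h2
      have : z = y := by
        funext i
        by_cases h3 : i = j
        · subst h3; exact h2
        · exact hyi i h3
      rw [(hu.eq_of_ne hne).1 this]
    · intro h2
      have : w = w' := by
        funext i
        by_cases h3 : i = σ j
        · subst h3; exact h2
        · exact hoff i h3
      rw [(hu.eq_of_ne hne).2 this]
  · rw [← hyj, ← hw, ← hw']
    have a1 : (PiBox x).Adj z y ↔ (x j).Adj (z j) (y j) := by
      constructor
      · rintro ⟨i, h2, h3⟩
        by_cases h4 : i = j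
        · subst h4; exact h2
        · exact absurd (hyi i h4) h2.ne
      · intro h2; exact ⟨j, h2, hyi⟩
    have a2 : (PiBox x).Adj w w' ↔ (x (σ j)).Adj (w (σ j)) (w' (σ j)) := by
      constructor
      · rintro ⟨i, h2, h3⟩
        by_cases h4 : i = σ j
        · subst h4; exact h2
        · exact absurd (hoff i h4) h2.ne
      · intro h2; exact ⟨σ j, h2, hoff⟩
    rw [← a1, ← a2]
    exact hu.adj _ _ _ _ hne

/-- coordinates of the image of a single vertex commute -/
theorem QI.Ck_comm (z : ∀ j, V j) (k k' : J) (b : V k) (b' : V k') :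
    Ck u k z b * Ck u k' z b' = Ck u k' z b' * Ck u k z b := by
  have e1 : Ck u k z b * Ck u k' z b' =
      ∑ w, if w k = b then (if w k' = b' then u z w else 0) else 0 := by
    conv_lhs => rw [Ck]
    rw [Finset.sum_mul]
    refine Finset.sum_congr rfl fun w _ => ?_
    split_ifs with h1 h2
    · rw [hu.u_mul_Ck, if_pos h2]
    · rw [hu.u_mul_Ck, if_neg h2]
    · rw [zero_mul]
  have e2 : Ck u k' z b' * Ck u k z b =
      ∑ w, if w k = b then (if w k' = b' then u z w else 0) else 0 := by
    conv_lhs => rw [Ck]
    rw [Finset.sum_mul]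
    refine Finset.sum_congr rfl fun w _ => ?_
    split_ifs with h1 h2 h2
    · rw [hu.u_mul_Ck, if_pos h2]
    · rw [hu.u_mul_Ck, if_neg h2]
    · rw [zero_mul]
    · rw [zero_mul]
  rw [e1, e2]

/-- an element commuting with all coordinates of the image of `z` commutes with `u z w` -/
theorem QI.comm_of_Ck {y : A} (z w : ∀ j, V j)
    (h : ∀ k b, y * Ck u k z b = Ck u k z b * y) : y * u z w = u z w * y := by
  have key : ∀ T : Finset J, y * (∑ w', if (∀ k ∈ T, w' k = w k) then u z w' else 0) =
      (∑ w', if (∀ k ∈ T, w' k = w k) then u z w' else 0) * y := by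
    intro T
    induction T using Finset.induction_on with
    | empty => simp [hu.row]
    | insert k T _ ih =>
      have e : (∑ w', if (∀ k' ∈ insert k T, w' k' = w k') then u z w' else 0) =
          (∑ w', if (∀ k ∈ T, w' k = w k) then u z w' else 0) * Ck u k z (w k) := by
        rw [Finset.sum_mul]
        refine Finset.sum_congr rfl fun w' _ => ?_
        by_cases h1 : ∀ k ∈ T, w' k = w k
        · rw [if_pos h1, hu.u_mul_Ck]
          by_cases h2 : w' k = w k
          · rw [if_pos h2, if_pos]
            intro k' hk'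
            rcases Finset.mem_insert.1 hk' with rfl | hk'
            · exact h2
            · exact h1 k' hk'
          · rw [if_neg h2, if_neg]
            intro h3
            exact h2 (h3 k (Finset.mem_insert_self _ _))
        · rw [if_neg h1, zero_mul, if_neg]
          intro h3
          exact h1 (fun k' hk' => h3 k' (Finset.mem_insert_of_mem hk'))
      rw [e, ← mul_assoc, ih, mul_assoc, h, ← mul_assoc]
  have e : (∑ w', if (∀ k ∈ (Finset.univ : Finset J), w' k = w k) then u z w' else 0) = u z w := by
    rw [Finset.sum_eq_single w]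
    · simp
    · intro w' _ hw'
      rw [if_neg]
      intro h1
      exact hw' (funext fun k => h1 k (Finset.mem_univ _))
    · simp
  have := key Finset.univ
  rwa [e] at this

end

end QSym
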