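import Pool.Agent.Lib.MP_a717c1_al.Prime
import Pool.Agent.Lib.MP_a717c1_al.Corner

/-!
# Slots of a product of primes
-/

set_option linter.unusedSectionVars false
set_option linter.unusedDecidableInType false

namespace QSym

open Finset SimpleGraph Relation

/-- relabelling the target -/
theorem QI.target {V W W' : Type*} [Fintype V] [Fintype W] [Fintype W'] {A : Type*} [Ring A]
    [StarRing A] {G : SimpleGraph V} {H : SimpleGraph W} {H' : SimpleGraph W'} {u : V → W → A}
    (hu : QI G H u) (e : H ≃g H') : QI G H' (fun z w => u z (e.symm w)) where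
  star_eq z w := hu.star_eq _ _
  mul_self z w := hu.mul_self _ _
  row z := by
    rw [← hu.row z]
    exact Fintype.sum_equiv e.symm.toEquiv _ _ (fun _ => rfl)
  col w := hu.col _
  adj z z' w w' h := by
    rw [hu.adj _ _ _ _ h, e.symm.map_adj_iff]

/-- relabelling the source -/
theorem QI.source {V V' W : Type*} [Fintype V] [Fintype V'] [Fintype W] {A : Type*} [Ring A]
    [StarRing A] {G : SimpleGraph V} {G' : SimpleGraph V'} {H : SimpleGraph W} {u : V → W → A}
    (hu : QI G H u) (e : G ≃g G') : QI G' H (fun z w => u (e.symm z) w) where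
  star_eq z w := hu.star_eq _ _
  mul_self z w := hu.mul_self _ _
  row z := hu.row _
  col w := by
    rw [← hu.col w]
    exact Fintype.sum_equiv e.symm.toEquiv _ _ (fun _ => rfl)
  adj z z' w w' h := by
    rw [← hu.adj _ _ _ _ h, e.symm.map_adj_iff]

theorem dia_mixed {V₁ V₂ : Type*} {G₁ : SimpleGraph V₁} {G₂ : SimpleGraph V₂} {a b : V₁}
    {r s : V₂} (h1 : G₁.Adj a b) (h2 : G₂.Adj r s) :
    Dia (G₁ □ G₂) (a, r) (b, r) (b, s) (a, s) := by
  refine ⟨?_, ?_, ?_⟩
  · intro h; exact h1.ne (congrArg Prod.fst h)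
  · intro h; exact h1.ne (congrArg Prod.fst h).symm
  · rintro ⟨m1, m2⟩
    simp only [boxProd_adj, Prod.mk.injEq]
    constructor
    · rintro ⟨h3 | h3, h4 | h4⟩
      · exact absurd (h3.2.trans h4.2) h2.ne
      · left; exact ⟨h4.2, h3.2.symm⟩
      · right; exact ⟨h3.2.symm, h4.2⟩
      · exact absurd (h3.2.trans h4.2) h1.ne
    · rintro (⟨rfl, rfl⟩ | ⟨rfl, rfl⟩)
      · exact ⟨Or.inl ⟨h1, rfl⟩, Or.inr ⟨h2, rfl⟩⟩
      · exact ⟨Or.inr ⟨h2, rfl⟩, Or.inl ⟨h1, rfl⟩⟩

theorem dia_iso {V W : Type*} {G : SimpleGraph V} {H : SimpleGraph W} (e : G ≃g H) {a b c d : W}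
    (h : Dia H a b c d) : Dia G (e.symm a) (e.symm b) (e.symm c) (e.symm d) := by
  refine ⟨fun h1 => h.ac (e.symm.injective h1), fun h1 => h.bd (e.symm.injective h1), ?_⟩
  intro m
  have h2 := h.iff (e m)
  have e1 : ∀ w, G.Adj (e.symm w) m ↔ H.Adj w (e m) := by
    intro w
    rw [← e.map_adj_iff, e.apply_symm_apply]
  have e2 : ∀ w, G.Adj m (e.symm w) ↔ H.Adj (e m) w := by
    intro w
    rw [← e.map_adj_iff, e.apply_symm_apply]
  have e3 : ∀ w, m = e.symm w ↔ e m = w := by
    intro w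
    constructor
    · rintro rfl; exact e.apply_symm_apply w
    · rintro rfl; exact (e.symm_apply_apply m).symm
  rw [e1, e2, e3, e3]
  exact h2

section

variable {J : Type*} [Fintype J] [DecidableEq J] {V : J → Type*} [∀ j, Fintype (V j)]
  [∀ j, DecidableEq (V j)]
variable {S : Type*} [Fintype S] {G : SimpleGraph S}
variable {A : Type*} [Ring A] [StarRing A] [FReal A]
variable {x : ∀ j, SimpleGraph (V j)} {u : S → (∀ j, V j) → A}

/-- the map with values in `slot k` times the rest -/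
def us (x : ∀ j, SimpleGraph (V j)) (u : S → (∀ j, V j) → A) (k : J) :
    S → V k × (∀ j : {j // j ≠ k}, V j) → A :=
  fun z w => u z ((slotIso x k).symm w)

/-- the `k`-th coordinate of the image -/
def Ck (u : S → (∀ j, V j) → A) (k : J) (z : S) (b : V k) : A :=
  ∑ w, if w k = b then u z w else 0

theorem QI.slot (hu : QI G (PiBox x) u) (k : J) :
    QI G ((x k) □ (PiBox (fun j : {j // j ≠ k} => x j))) (us x u k) :=
  hu.target (slotIso x k)

theorem us_apply (k : J) (z : S) (w : ∀ j, V j) : us x u k z (slotIso x k w) = u z w := by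
  unfold us
  rw [(slotIso x k).symm_apply_apply]

theorem Cc_us (k : J) (z : S) (b : V k) : Cc (us x u k) z b = Ck u k z b := by
  unfold Cc Ck
  have : ∑ w : ∀ j, V j, (if w k = b then u z w else 0) =
      ∑ y : V k × (∀ j : {j // j ≠ k}, V j), if y.1 = b then us x u k z y else 0 := by
    refine Fintype.sum_equiv (slotIso x k).toEquiv _ _ (fun w => ?_)
    have : us x u k z ((slotIso x k).toEquiv w) = u z w := us_apply k z w
    rw [this]
    rfl
  rw [this, Fintype.sum_prod_type]
  rw [Finset.sum_eq_single b]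
  · simp
  · intro a _ ha
    simp [ha]
  · simp

variable (hu : QI G (PiBox x) u)
include hu

theorem QI.u_mul_Ck (z : S) (w : ∀ j, V j) (k : J) (b : V k) :
    u z w * Ck u k z b = if w k = b then u z w else 0 := by
  have h := (hu.slot k).sw.u_mul_Rr z b ((slotIso x k w).2, (slotIso x k w).1)
  rw [Rr_sw, Cc_us] at h
  have h2 : QSym.sw (us x u k) z ((slotIso x k w).2, (slotIso x k w).1) = u z w := us_apply k z w
  rw [h2] at h
  exact h

theorem QI.Ck_mul_u (z : S) (w : ∀ j, V j) (k : J) (b : V k) :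
    Ck u k z b * u z w = if w k = b then u z w else 0 := by
  have h := (hu.slot k).sw.Rr_mul_u z b ((slotIso x k w).2, (slotIso x k w).1)
  rw [Rr_sw, Cc_us] at h
  have h2 : QSym.sw (us x u k) z ((slotIso x k w).2, (slotIso x k w).1) = u z w := us_apply k z w
  rw [h2] at h
  exact h

theorem QI.Ck_orth (z : S) (k : J) {b b' : V k} (h : b ≠ b') : Ck u k z b * Ck u k z b' = 0 := by
  rw [← Cc_us (x := x), ← Cc_us (x := x)]
  exact (hu.slot k).sw.Rr_orth z h

/-- if `h_k = 0` then the `k`-th coordinate of the image is preserved -/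
theorem QI.Ck_eq_of_zero {z z' : S} (hz : G.Adj z z') {k : J} (h : hh (us x u k) z z' = 0)
    (b : V k) : Ck u k z b = Ck u k z' b := by
  have := (hu.slot k).Cc_eq_of_Kk (ReflTransGen.single ⟨hz, h⟩) b
  rwa [Cc_us, Cc_us] at this

theorem QI.Ck_mul_zero_of_one {z z' : S} (hz : G.Adj z z') {k : J}
    (h : hh (us x u k) z z' = 1) (b : V k) : Ck u k z b * Ck u k z' b = 0 := by
  have h1 := (hu.slot k).hh_add_kk hz
  rw [h] at h1
  have h2 : kk (us x u k) z z' = 0 := by
    have : (1 : A) + kk (us x u k) z z' = 1 + 0 := by rw [h1, add_zero]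
    exact add_left_cancel this
  have h3 := (hu.slot k).Cc_mul_kk z z' b
  rw [h2, mul_zero, Cc_us, Cc_us] at h3
  exact h3.symm

/-- the `k`-th coordinates of two images -/
theorem QI.Ck_ne {z z' : S} {w w' : ∀ j, V j} (h : u z w * u z' w' ≠ 0) (k : J) :
    Ck u k z (w k) * Ck u k z' (w' k) ≠ 0 := by
  intro h1
  apply h
  have e1 : u z w = u z w * Ck u k z (w k) := by rw [hu.u_mul_Ck]; simp
  have e2 : u z' w' = Ck u k z' (w' k) * u z' w' := by rw [hu.Ck_mul_u]; simp
  rw [e1, e2, mul_assoc, ← mul_assoc (Ck u k z (w k)), h1, zero_mul, mul_zero]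

theorem QI.hh_one_iff {z z' : S} (hz : G.Adj z z') {k : J}
    (hd : hh (us x u k) z z' = 0 ∨ hh (us x u k) z z' = 1)
    {w w' : ∀ j, V j} (h : u z w * u z' w' ≠ 0) :
    hh (us x u k) z z' = 1 ↔ w k ≠ w' k := by
  have h1 := hu.Ck_ne h k
  constructor
  · intro h2 h3
    apply h1
    rw [← h3]
    exact hu.Ck_mul_zero_of_one hz h2 _
  · intro h2
    rcases hd with h3 | h3
    · exfalso
      apply h1
      rw [← hu.Ck_eq_of_zero hz h3]
      exact hu.Ck_orth z k h2
    · exact h3

/-- every edge has a well-defined direction -/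
theorem QI.exists_dir (h1 : (1 : A) ≠ 0) {z z' : S} (hz : G.Adj z z')
    (hd : ∀ k, hh (us x u k) z z' = 0 ∨ hh (us x u k) z z' = 1) :
    ∃ k, ∀ k', hh (us x u k') z z' = 1 ↔ k' = k := by
  obtain ⟨w, w', h⟩ : ∃ w w', u z w * u z' w' ≠ 0 := by
    by_contra hcon
    push Not at hcon
    apply h1
    calc (1 : A) = (∑ w, u z w) * (∑ w', u z' w') := by rw [hu.row, hu.row, mul_one]
      _ = 0 := by
        rw [Finset.sum_mul_sum]
        exact Finset.sum_eq_zero fun w _ => Finset.sum_eq_zero fun w' _ => hcon w w'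
  obtain ⟨k, h2, h3⟩ := (hu.adj _ _ _ _ h).1 hz
  refine ⟨k, fun k' => ?_⟩
  rw [hu.hh_one_iff hz (hd k') h]
  constructor
  · intro h4
    by_contra h5
    exact h4 (h3 k' h5)
  · rintro rfl
    exact h2.ne

end

end QSym
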