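import Pool.Agent.Lib.MP_a717c1_al.Sigma2
import Pool.Agent.Lib.MP_a717c1_al.Select

/-!
# Squares of products of primes
-/

set_option linter.unusedSectionVars false
set_option linter.unusedDecidableInType false

namespace QSym

open Finset SimpleGraph Relation

/-- every quantum automorphism over `A` has commuting entries -/
def Rig {V : Type*} [Fintype V] (G : SimpleGraph V) (A : Type*) [Ring A] [StarRing A] : Prop :=
  ∀ u : V → V → A, QI G G u → ∀ i j k l, u i j * u k l = u k l * u i j

/-- column sums of a square matrix of projections -/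
theorem col_of_row {X : Type*} [Fintype X] {A : Type*} [Ring A] [StarRing A] [FReal A]
    (W : X → X → A) (hs : ∀ p q, star (W p q) = W p q) (hi : ∀ p q, W p q * W p q = W p q)
    (hr : ∀ p, ∑ q, W p q = 1) (ho : ∀ p p' q, p ≠ p' → W p q * W p' q = 0) (q : X) :
    ∑ p, W p q = 1 := by
  classical
  have e0 : ∀ q, (∑ p, W p q) * (∑ p, W p q) = ∑ p, W p q := by
    intro q
    rw [Finset.sum_mul_sum]
    refine Finset.sum_congr rfl fun p _ => ?_
    rw [Finset.sum_eq_single p]
    · exact hi p q
    · intro p' _ hp'; exact ho p p' q hp'.symm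
    · simp
  have e1 : ∀ q, star (1 - ∑ p, W p q) * (1 - ∑ p, W p q) = 1 - ∑ p, W p q := by
    intro q
    have : star (1 - ∑ p, W p q) = 1 - ∑ p, W p q := by
      rw [star_sub, star_one, star_sum]
      simp only [hs]
    rw [this]
    have e2 : (1 - ∑ p, W p q) * (1 - ∑ p, W p q) = 1 - ∑ p, W p q - ∑ p, W p q +
        (∑ p, W p q) * (∑ p, W p q) := by noncomm_ring
    rw [e2, e0]; abel
  have e3 : ∑ q, star (1 - ∑ p, W p q) * (1 - ∑ p, W p q) = 0 := by
    simp only [e1]
    rw [Finset.sum_sub_distrib, Finset.sum_comm]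
    simp only [hr]
    exact sub_self _
  have := freal_finset _ _ e3 q (Finset.mem_univ _)
  exact (sub_eq_zero.1 this).symm

section

variable {ι : Type*} [Fintype ι] [DecidableEq ι] {V : ι → Type*} [∀ i, Fintype (V i)]
  [∀ i, DecidableEq (V i)]
variable {A : Type*} [Ring A] [StarRing A] [FReal A]
variable {x : ∀ i, SimpleGraph (V i)}
variable {u : (∀ j : ι × Bool, V j.1) → (∀ j : ι × Bool, V j.1) → A}

/-- the diagonal embedding -/
def dup (p : ∀ i, V i) : ∀ j : ι × Bool, V j.1 := fun j => p j.1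

/-- the magic unitary on `PiBox x` -/
def Wm (u : (∀ j : ι × Bool, V j.1) → (∀ j : ι × Bool, V j.1) → A) (b : ι → Bool)
    (p q : ∀ i, V i) : A :=
  ∑ w, if (∀ k, w (k, b k) = q k) then u (dup p) w else 0

variable (hu : QI (PiBox (fun j : ι × Bool => x j.1)) (PiBox (fun j : ι × Bool => x j.1)) u)
include hu

theorem QI.Wm_mul_u (b : ι → Bool) (p q : ∀ i, V i) (w : ∀ j : ι × Bool, V j.1) :
    Wm u b p q * u (dup p) w = if (∀ k, w (k, b k) = q k) then u (dup p) w else 0 := by
  unfold Wm
  rw [Finset.sum_mul, Finset.sum_eq_single w]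
  · split_ifs
    · exact hu.mul_self _ _
    · exact zero_mul _
  · intro w' _ hw'
    split_ifs
    · exact hu.row_orth hw'
    · exact zero_mul _
  · simp

theorem QI.Wm_Ck (b : ι → Bool) (p q : ∀ i, V i) (k : ι) :
    Wm u b p q = Wm u b p q * Ck u (k, b k) (dup p) (q k) := by
  conv_rhs => rw [Wm]
  rw [Finset.sum_mul]
  unfold Wm
  refine Finset.sum_congr rfl fun w _ => ?_
  split_ifs with h
  · rw [hu.u_mul_Ck, if_pos (h k)]
  · rw [zero_mul]

theorem QI.Ck_Wm (b : ι → Bool) (p q : ∀ i, V i) (k : ι) :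
    Wm u b p q = Ck u (k, b k) (dup p) (q k) * Wm u b p q := by
  conv_rhs => rw [Wm]
  rw [Finset.mul_sum]
  unfold Wm
  refine Finset.sum_congr rfl fun w _ => ?_
  split_ifs with h
  · rw [hu.Ck_mul_u, if_pos (h k)]
  · rw [mul_zero]

theorem QI.Ck_QI' (hd : Decided (fun j : ι × Bool => x j.1) u) (hc : ∀ i, (x i).Connected)
    {σ : ι × Bool → ι × Bool} (hσ : IsSig (fun j : ι × Bool => x j.1) u σ)
    (hb : Function.Bijective σ) (j k : ι × Bool) (hjk : σ j = k)
    (z z' : ∀ j : ι × Bool, V j.1) {b b' : V k.1}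
    (h : Ck u k z b * Ck u k z' b' ≠ 0) :
    (z j = z' j ↔ b = b') ∧ ((x j.1).Adj (z j) (z' j) ↔ (x k.1).Adj b b') := by
  subst hjk
  exact hu.Ck_QI (J := ι × Bool) hd (fun j => hc j.1) hσ hb j z z' h

variable (hd : Decided (fun j : ι × Bool => x j.1) u) (hc : ∀ i, (x i).Connected)
    {σ : ι × Bool → ι × Bool} (hσ : IsSig (fun j : ι × Bool => x j.1) u σ)
    (hb : Function.Bijective σ) {s b : ι → Bool} {f : ι ≃ ι}
    (hf : ∀ i, σ (i, s i) = (f i, b (f i)))
include hd hc hσ hb hf

theorem QI.Wm_adj (p p' q q' : ∀ i, V i) (h : Wm u b p q * Wm u b p' q' ≠ 0) :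
    (p = p' ↔ q = q') ∧ ((PiBox x).Adj p p' ↔ (PiBox x).Adj q q') := by
  have key : ∀ i, (p i = p' i ↔ q (f i) = q' (f i)) ∧
      ((x i).Adj (p i) (p' i) ↔ (x (f i)).Adj (q (f i)) (q' (f i))) := by
    intro i
    have h1 : Ck u (f i, b (f i)) (dup p) (q (f i)) * Ck u (f i, b (f i)) (dup p') (q' (f i)) ≠ 0 := by
      intro h2
      apply h
      rw [hu.Wm_Ck b p q (f i), hu.Ck_Wm b p' q' (f i), mul_assoc, ← mul_assoc (Ck _ _ _ _), h2,
        zero_mul, mul_zero]
    exact hu.Ck_QI' hd hc hσ hb (i, s i) (f i, b (f i)) (hf i) (dup p) (dup p') h1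
  constructor
  · constructor
    · rintro rfl
      funext k
      have := (key (f.symm k)).1.1 rfl
      rwa [Equiv.apply_symm_apply] at this
    · rintro rfl
      funext i
      exact (key i).1.2 rfl
  · constructor
    · rintro ⟨i, h1, h2⟩
      refine ⟨f i, (key i).2.1 h1, ?_⟩
      intro k hk
      have := (key (f.symm k)).1.1 (h2 _ (by
        intro h3
        apply hk
        rw [← h3, Equiv.apply_symm_apply]))
      rwa [Equiv.apply_symm_apply] at this
    · rintro ⟨k, h1, h2⟩
      refine ⟨f.symm k, ?_, ?_⟩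
      · rw [(key (f.symm k)).2, Equiv.apply_symm_apply]
        exact h1
      · intro i hi
        apply (key i).1.2
        apply h2
        intro h3
        apply hi
        rw [← h3, Equiv.symm_apply_apply]

theorem QI.Wm_QI : QI (PiBox x) (PiBox x) (Wm u b) := by
  have hs : ∀ p q, star (Wm u b p q) = Wm u b p q := by
    intro p q
    unfold Wm
    rw [star_sum]
    refine Finset.sum_congr rfl fun w _ => ?_
    split_ifs
    · exact hu.star_eq _ _
    · exact star_zero _
  have hi : ∀ p q, Wm u b p q * Wm u b p q = Wm u b p q := by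
    intro p q
    conv_lhs => rw [Wm]
    rw [← Wm]
    conv_lhs => enter [2]; rw [Wm]
    rw [Finset.mul_sum]
    conv_rhs => rw [Wm]
    refine Finset.sum_congr rfl fun w _ => ?_
    split_ifs with h
    · rw [hu.Wm_mul_u, if_pos h]
    · rw [mul_zero]
  have hr : ∀ p, ∑ q, Wm u b p q = 1 := by
    intro p
    unfold Wm
    rw [Finset.sum_comm, ← hu.row (dup p)]
    refine Finset.sum_congr rfl fun w _ => ?_
    rw [Finset.sum_eq_single (fun k => w (k, b k))]
    · simp
    · intro q _ hq
      rw [if_neg]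
      intro h
      exact hq (funext fun k => (h k).symm)
    · simp
  have hadj := hu.Wm_adj hd hc hσ hb hf
  have ho : ∀ p p' q, p ≠ p' → Wm u b p q * Wm u b p' q = 0 := by
    intro p p' q hp
    by_contra hne
    exact hp ((hadj p p' q q hne).1.2 rfl)
  exact ⟨hs, hi, hr, col_of_row _ hs hi hr ho, fun p p' q q' h => (hadj p p' q q' h).2⟩

/-- the selected coordinates commute -/
theorem QI.Ck_commute (hR : Rig (PiBox x) A) (i : ι) (z z' : ∀ j : ι × Bool, V j.1)
    (c c' : V (f i)) :
    Ck u (f i, b (f i)) z c * Ck u (f i, b (f i)) z' c' =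
      Ck u (f i, b (f i)) z' c' * Ck u (f i, b (f i)) z c := by
  have hW := hR _ (hu.Wm_QI hd hc hσ hb hf)
  have e : ∀ (z : ∀ j : ι × Bool, V j.1) (c : V (f i)), Ck u (f i, b (f i)) z c =
      ∑ q : ∀ i, V i, if q (f i) = c then Wm u b (fun i' => z (i', s i')) q else 0 := by
    intro z c
    have e1 : Ck u (f i, b (f i)) z c =
        Ck u (f i, b (f i)) (dup (fun i' => z (i', s i'))) c := by
      refine hu.Ck_dep (J := ι × Bool) (k := (f i, b (f i))) hd (fun j => hc j.1) hσ ?_ c
      intro j hj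
      rw [← hf i] at hj
      have := hb.1 hj
      subst this
      rfl
    rw [e1]
    unfold Ck Wm
    have e2 : ∀ q : ∀ i, V i, (if q (f i) = c then
        (∑ w : ∀ j : ι × Bool, V j.1, if (∀ k, w (k, b k) = q k) then
          u (dup (fun i' => z (i', s i'))) w else 0) else 0) =
        ∑ w : ∀ j : ι × Bool, V j.1, if q (f i) = c then (if (∀ k, w (k, b k) = q k) then
          u (dup (fun i' => z (i', s i'))) w else 0) else 0 := by
      intro q
      split_ifs
      · rfl
      · simp
    simp only [e2]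
    rw [Finset.sum_comm]
    refine Finset.sum_congr rfl fun w _ => ?_
    rw [Finset.sum_eq_single (fun k => w (k, b k))]
    · simp
    · intro q _ hq
      split_ifs with h1 h2
      · exfalso
        exact hq (funext fun k => (h2 k).symm)
      · rfl
      · rfl
    · simp
  rw [e, e, Finset.sum_mul_sum, Finset.sum_mul_sum, Finset.sum_comm]
  refine Finset.sum_congr rfl fun q _ => Finset.sum_congr rfl fun q' _ => ?_
  split_ifs
  · exact hW _ _ _ _
  · simp
  · simp
  · simp

end

end QSym
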