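import Pool.Agent.Lib.MP_a717c1_al.Diag

/-!
# Twisted edges, cubes
-/

set_option linter.unusedSectionVars false
set_option linter.unusedDecidableInType false

namespace QSym

open Finset SimpleGraph

variable {V V₁ V₂ : Type*} [Fintype V] [Fintype V₁] [Fintype V₂]
variable {A : Type*} [Ring A] [StarRing A] [FReal A]
variable {G : SimpleGraph V} {G₁ : SimpleGraph V₁} {G₂ : SimpleGraph V₂}
variable {u : V → V₁ × V₂ → A}

section central

variable (hu : QI G (G₁ □ G₂) u)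
include hu

theorem QI.tt_square' {a b c d : V} (h : Dia G a b c d) : tt u b c = tt u a d := by
  have h1 := hu.tt_square h.rev
  rw [hu.tt_symm h.bc, h1, hu.tt_symm h.ad]

theorem QI.tt_eq_of_hh {a b c : V} (h : hh u a b = hh u a c) : tt u a b = tt u a c := by
  unfold tt
  rw [← hu.star_hh a b, ← hu.star_hh a c, h]

theorem QI.tt_step {a b a' : V} (hab : G.Adj a b) (haa : G.Adj a a') :
    ∃ b', G.Adj a' b' ∧ tt u a' b' = tt u a b := by
  classical
  by_cases hb : a' = b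
  · subst hb
    exact ⟨a, hab.symm, hu.tt_symm hab.symm⟩
  · by_cases hM : MM G₁ G₂ u a' b = 0
    · have h1 := hu.hh_eq_of_MM haa.symm hab hM
      refine ⟨a, haa.symm, ?_⟩
      rw [hu.tt_symm haa.symm]
      exact (hu.tt_eq_of_hh h1).symm
    · obtain ⟨h1, h2⟩ := hu.cn_of_MM hM
      obtain ⟨b', hd⟩ := dia_of_cn hb h1 haa.symm hab
      exact ⟨b', hd.ad, (hu.tt_square' hd).symm⟩

theorem QI.tt_everywhere (hG : G.Connected) {a b : V} (hab : G.Adj a b) (z : V) :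
    ∃ z', G.Adj z z' ∧ tt u z z' = tt u a b := by
  have h := (SimpleGraph.reachable_iff_reflTransGen a z).1 (hG.preconnected a z)
  induction h with
  | refl => exact ⟨b, hab, rfl⟩
  | tail _ hbc ih =>
    obtain ⟨z', h1, h2⟩ := ih
    obtain ⟨b', h3, h4⟩ := hu.tt_step h1 hbc
    exact ⟨b', h3, h4.trans h2⟩

theorem QI.tt_central (hG : G.Connected) {a b : V} (hab : G.Adj a b) (z : V) (w : V₁ × V₂) :
    tt u a b * u z w = u z w * tt u a b := by
  obtain ⟨z', h1, h2⟩ := hu.tt_everywhere hG hab z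
  rw [← h2]
  exact hu.tt_u_comm h1 w

end central

/-- `a b` is a twisted edge: `h` is not self-adjoint. -/
def Tw (G : SimpleGraph V) (u : V → V₁ × V₂ → A) (a b : V) : Prop :=
  G.Adj a b ∧ hh u a b ≠ hh u b a

theorem Tw.symm {a b : V} (h : Tw G u a b) : Tw G u b a := ⟨h.1.symm, h.2.symm⟩

section tw

variable (hu : QI G (G₁ □ G₂) u)
include hu

theorem QI.tw_iff {a b : V} (hab : G.Adj a b) : Tw G u a b ↔ tt u a b * tt u a b ≠ tt u a b := by
  constructor
  · rintro ⟨_, h⟩ h2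
    exact h (hu.hh_symm_of_idem hab h2)
  · intro h
    exact ⟨hab, fun h2 => h (hu.idem_of_hh_symm hab h2).2⟩

theorem QI.tw_ne_hh {a b c : V} (h : Tw G u a b) (hac : G.Adj a c) (hbc : b ≠ c) :
    hh u a b ≠ hh u a c := by
  intro he
  exact (hu.tw_iff h.1).1 h (hu.tt_idem h.1 hac hbc he)

theorem QI.tw_dia {a b a' : V} (h : Tw G u a b) (ha : G.Adj a a') (hab : a' ≠ b) :
    ∃ b', Dia G a' a b b' ∧ Dia G a a' b' b ∧ Tw G u a' b' ∧ ¬ G.Adj a' b := by
  classical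
  have hM : MM G₁ G₂ u a' b ≠ 0 := by
    intro hM
    exact hu.tw_ne_hh h ha hab.symm (hu.hh_eq_of_MM ha.symm h.1 hM)
  obtain ⟨h1, h2⟩ := hu.cn_of_MM hM
  obtain ⟨b', hd⟩ := dia_of_cn hab h1 ha.symm h.1
  have hM2 : MM G₁ G₂ u a b' ≠ 0 := by
    intro hM2
    exact hu.tw_ne_hh h.symm hd.dc.symm hd.bd
      (hu.hh_eq_of_MM h.1 hd.dc.symm hM2).symm
  obtain ⟨h3, h4⟩ := hu.cn_of_MM hM2
  obtain ⟨x, hx⟩ := dia_of_cn hd.bd h3 ha hd.ad
  have hxb : x = b := by
    rcases (hx.iff b).1 ⟨h.1, hd.dc.symm⟩ with h5 | h5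
    · exact absurd h5.symm hab
    · exact h5.symm
  subst hxb
  refine ⟨b', hd, hx, ?_, h2⟩
  rw [hu.tw_iff hd.ad, ← hu.tt_square' hd, ← hu.tw_iff h.1]
  exact h

end tw

section product

open Classical in
/-- Kronecker delta -/
noncomputable def dl {X : Type*} (x y : X) : ℕ := if x = y then 1 else 0

theorem dl_self {X : Type*} (x : X) : dl x x = 1 := by simp [dl]
theorem dl_ne {X : Type*} {x y : X} (h : x ≠ y) : dl x y = 0 := by simp [dl, h]

theorem sum_dl_left {X : Type*} [Fintype X] (x : X) (f : X → ℕ) : ∑ m, dl x m * f m = f x := by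
  classical
  rw [Finset.sum_eq_single x]
  · rw [dl_self, one_mul]
  · intro y _ hy
    rw [dl_ne hy.symm, zero_mul]
  · simp

theorem sum_dl_right {X : Type*} [Fintype X] (y : X) (f : X → ℕ) : ∑ m, f m * dl m y = f y := by
  classical
  rw [Finset.sum_eq_single y]
  · rw [dl_self, mul_one]
  · intro x _ hx
    rw [dl_ne hx, mul_zero]
  · simp

theorem ad_prod (x y : V₁ × V₂) : ad (G₁ □ G₂) x y =
    ad G₁ x.1 y.1 * dl x.2 y.2 + dl x.1 y.1 * ad G₂ x.2 y.2 := by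
  classical
  unfold ad dl
  rw [boxProd_adj]
  by_cases h1 : x.1 = y.1 <;> by_cases h2 : x.2 = y.2
  · simp [h1, h2]
  · simp [h1, h2]
  · simp [h1, h2]
  · simp [h1, h2]

theorem cn_prod (x y : V₁ × V₂) : cn (G₁ □ G₂) x y =
    cn G₁ x.1 y.1 * dl x.2 y.2 + 2 * (ad G₁ x.1 y.1 * ad G₂ x.2 y.2)
      + dl x.1 y.1 * cn G₂ x.2 y.2 := by
  unfold cn
  simp only [ad_prod, Fintype.sum_prod_type]
  have e : ∀ (m₁ : V₁) (m₂ : V₂),
      (ad G₁ x.1 m₁ * dl x.2 m₂ + dl x.1 m₁ * ad G₂ x.2 m₂) *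
        (ad G₁ m₁ y.1 * dl m₂ y.2 + dl m₁ y.1 * ad G₂ m₂ y.2) =
      (ad G₁ x.1 m₁ * ad G₁ m₁ y.1) * (dl x.2 m₂ * dl m₂ y.2)
      + (ad G₁ x.1 m₁ * dl m₁ y.1) * (dl x.2 m₂ * ad G₂ m₂ y.2)
      + (dl x.1 m₁ * ad G₁ m₁ y.1) * (ad G₂ x.2 m₂ * dl m₂ y.2)
      + (dl x.1 m₁ * dl m₁ y.1) * (ad G₂ x.2 m₂ * ad G₂ m₂ y.2) := by
    intro m₁ m₂; ring
  simp only [e, Finset.sum_add_distrib, ← Finset.mul_sum, ← Finset.sum_mul, sum_dl_left,
    sum_dl_right]
  ring

/-- number of 3-walks, computed from the other end -/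
theorem w3_prod (x y : V₁ × V₂) (h1 : x.1 ≠ y.1) (h2 : x.2 ≠ y.2) : w3 (G₁ □ G₂) x y =
    3 * (cn G₁ x.1 y.1 * ad G₂ x.2 y.2) + 3 * (ad G₁ x.1 y.1 * cn G₂ x.2 y.2) := by
  unfold w3
  simp only [ad_prod, cn_prod, Fintype.sum_prod_type]
  have e : ∀ (m₁ : V₁) (m₂ : V₂),
      (ad G₁ x.1 m₁ * dl x.2 m₂ + dl x.1 m₁ * ad G₂ x.2 m₂) *
        (cn G₁ m₁ y.1 * dl m₂ y.2 + 2 * (ad G₁ m₁ y.1 * ad G₂ m₂ y.2) +
          dl m₁ y.1 * cn G₂ m₂ y.2) =
      (ad G₁ x.1 m₁ * cn G₁ m₁ y.1) * (dl x.2 m₂ * dl m₂ y.2)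
      + 2 * ((ad G₁ x.1 m₁ * ad G₁ m₁ y.1) * (dl x.2 m₂ * ad G₂ m₂ y.2))
      + (ad G₁ x.1 m₁ * dl m₁ y.1) * (dl x.2 m₂ * cn G₂ m₂ y.2)
      + (dl x.1 m₁ * cn G₁ m₁ y.1) * (ad G₂ x.2 m₂ * dl m₂ y.2)
      + 2 * ((dl x.1 m₁ * ad G₁ m₁ y.1) * (ad G₂ x.2 m₂ * ad G₂ m₂ y.2))
      + (dl x.1 m₁ * dl m₁ y.1) * (ad G₂ x.2 m₂ * cn G₂ m₂ y.2) := by
    intro m₁ m₂; ring
  simp only [e, Finset.sum_add_distrib, ← Finset.mul_sum, ← Finset.sum_mul, sum_dl_left,
    sum_dl_right, dl_ne h1, dl_ne h2]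
  unfold cn
  ring

end product

section cube

/-- indicator that `y` is a bad partner for `x` -/
noncomputable def bd (G : SimpleGraph V) (x y : V) : ℕ :=
  open Classical in
  if x ≠ y ∧ ¬ (cn G x y = 2 ∧ ¬ G.Adj x y) then 1 else 0

theorem compat_bd {W : Type*} [Fintype W] {H : SimpleGraph W} {v : V → W → A} (hv : QI G H v) :
    Compat v (bd G) (bd H) := by
  classical
  intro z z' w w' h
  unfold bd
  have h1 := hv.eq_of_ne h
  have h2 := hv.adj _ _ _ _ h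
  have h3 := compat_cn hv _ _ _ _ h
  simp only [ne_eq, h1, h2, h3]

theorem bd_eq_zero {x y : V} : bd G x y = 0 ↔ (x ≠ y → cn G x y = 2 ∧ ¬ G.Adj x y) := by
  classical
  unfold bd
  by_cases h : x ≠ y ∧ ¬ (cn G x y = 2 ∧ ¬ G.Adj x y)
  · rw [if_pos h]
    constructor
    · intro h1; omega
    · intro h1; exact absurd (h1 h.1) h.2
  · rw [if_neg h]
    constructor
    · intro _ h1
      by_contra h2
      exact h ⟨h1, h2⟩
    · intro _; rfl

theorem ad_symm (x y : V) : ad G x y = ad G y x := by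
  classical
  unfold ad
  by_cases h : G.Adj x y
  · rw [if_pos h, if_pos h.symm]
  · rw [if_neg h, if_neg (fun h' => h h'.symm)]

theorem cn_symm (x y : V) : cn G x y = cn G y x := by
  unfold cn
  refine Finset.sum_congr rfl fun m _ => ?_
  rw [ad_symm x m, ad_symm m y, mul_comm]

theorem ad_of_adj {x y : V} (h : G.Adj x y) : ad G x y = 1 := by simp [ad, h]
theorem ad_of_not_adj {x y : V} (h : ¬ G.Adj x y) : ad G x y = 0 := by simp [ad, h]

theorem w3_symm (x y : V) : w3 G x y = w3 G y x := by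
  unfold w3 cn
  simp only [Finset.mul_sum]
  rw [Finset.sum_comm]
  refine Finset.sum_congr rfl fun m _ => Finset.sum_congr rfl fun m' _ => ?_
  rw [ad_symm x m', ad_symm m' m, ad_symm m y]
  ring

variable (hu : QI G (G₁ □ G₂) u)
include hu

theorem QI.tw_bd_target {a m : V} (h : Tw G u a m) {w x : V₁ × V₂} (hne : u a w * u m x ≠ 0)
    {w' : V₁ × V₂} (hw : (G₁ □ G₂).Adj w w') (hx : w' ≠ x) :
    cn (G₁ □ G₂) w' x = 2 ∧ ¬ (G₁ □ G₂).Adj w' x := by
  classical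
  have hc := Compat.comp hu (compat_ad hu) (compat_bd hu) _ _ _ _ hne
  have h0 : ∑ a', ad G a a' * bd G a' m = 0 := by
    refine Finset.sum_eq_zero fun a' _ => ?_
    by_cases h1 : G.Adj a a'
    · have : bd G a' m = 0 := by
        rw [bd_eq_zero]
        intro h2
        obtain ⟨b', h3, _, _, h4⟩ := hu.tw_dia h h1 h2
        exact ⟨cn_of_dia h3, h4⟩
      rw [this, mul_zero]
    · rw [ad_of_not_adj h1, zero_mul]
  change ∑ a', ad G a a' * bd G a' m = ∑ m, ad (G₁ □ G₂) w m * bd (G₁ □ G₂) m x at hc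
  rw [h0] at hc
  have h1 := (Finset.sum_eq_zero_iff.1 hc.symm) w' (Finset.mem_univ _)
  rw [ad_of_adj hw, one_mul, bd_eq_zero] at h1
  exact h1 hx

theorem QI.w3_eq_six {a b c d : V} (hd : Dia G a b c d) (hab : Tw G u a b) (had : Tw G u a d)
    (hM : MM G₁ G₂ u a c ≠ 0) {a' : V} (ha : G.Adj a a') (h1 : a' ≠ b) (h2 : a' ≠ d) :
    w3 G a' c = 6 := by
  classical
  obtain ⟨w, y, hwy, hne⟩ := hu.of_MM_ne hM
  -- a companion `w'`
  obtain ⟨w', hw'⟩ : ∃ w', u a w * u a' w' * u c y ≠ 0 := by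
    by_contra hcon
    push Not at hcon
    apply hne
    rw [← hu.sum_mid a a' c w y]
    exact Finset.sum_eq_zero fun x _ => hcon x
  have n1 : u a w * u a' w' ≠ 0 := fun h => hw' (by rw [h, zero_mul])
  have n2 : u a' w' * u c y ≠ 0 := fun h => hw' (by rw [mul_assoc, h, mul_zero])
  have a1 : (G₁ □ G₂).Adj w w' := (hu.adj _ _ _ _ n1).1 ha
  have na : ¬ G.Adj a' c := by
    intro h3
    rcases (hd.iff a').1 ⟨ha, h3⟩ with h4 | h4
    · exact h1 h4
    · exact h2 h4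
  have a2 : ¬ (G₁ □ G₂).Adj w' y := fun h3 => na ((hu.adj _ _ _ _ n2).2 h3)
  rw [compat_w3 hu _ _ _ _ n2]
  -- for every middle vertex `x` of the mixed square
  have mid : ∀ x, (G₁ □ G₂).Adj w x → (G₁ □ G₂).Adj x y →
      cn (G₁ □ G₂) w' x = 2 ∧ ¬ (G₁ □ G₂).Adj w' x := by
    intro x hx1 hx2
    have hxw : w' ≠ x := by rintro rfl; exact a2 hx2
    have hs : u a w * u b x * u c y + u a w * u d x * u c y = u a w * u c y := by
      rw [← hu.sum_mid' a c w x y, ← Finset.sum_pair (f := fun m => u a w * u m x * u c y) hd.bd]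
      apply Finset.sum_subset (Finset.subset_univ _)
      intro m _ hm
      apply hu.triple_zero
      simp only [Finset.mem_insert, Finset.mem_singleton, ← hd.iff m] at hm
      by_cases h3 : G.Adj a m
      · right
        exact hu.zero_of_not_adj (fun h4 => hm ⟨h3, h4⟩) hx2
      · left
        exact hu.zero_of_not_adj h3 hx1
    by_cases h3 : u a w * u b x = 0
    · have h4 : u a w * u d x ≠ 0 := by
        intro h4
        apply hne
        rw [← hs, h3, h4, zero_mul, add_zero]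
      exact hu.tw_bd_target had h4 a1 hxw
    · exact hu.tw_bd_target hab h3 a1 hxw
  have x1a : (G₁ □ G₂).Adj w (y.1, w.2) := by rw [boxProd_adj]; left; exact ⟨hwy.1, rfl⟩
  have x1b : (G₁ □ G₂).Adj (y.1, w.2) y := by rw [boxProd_adj]; right; exact ⟨hwy.2, rfl⟩
  have x2a : (G₁ □ G₂).Adj w (w.1, y.2) := by rw [boxProd_adj]; right; exact ⟨hwy.2, rfl⟩
  have x2b : (G₁ □ G₂).Adj (w.1, y.2) y := by rw [boxProd_adj]; left; exact ⟨hwy.1, rfl⟩
  rw [boxProd_adj] at a1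
  rcases a1 with ⟨a1, a1'⟩ | ⟨a1, a1'⟩
  · obtain ⟨c1, c2⟩ := mid _ x1a x1b
    have hne1 : w'.1 ≠ y.1 := by
      intro h
      apply a2
      have : w' = (y.1, w.2) := Prod.ext h a1'.symm
      rw [this]; exact x1b
    have hne2 : w'.2 ≠ y.2 := by rw [← a1']; exact hwy.2.ne
    have hnadj : ¬ G₁.Adj w'.1 y.1 := by
      intro h
      apply c2
      rw [boxProd_adj]; left; exact ⟨h, a1'.symm⟩
    rw [w3_prod w' y hne1 hne2, ad_of_not_adj hnadj, ← a1', ad_of_adj hwy.2]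
    rw [cn_prod] at c1
    simp only [← a1', dl_self, dl_ne hne1, ad_of_not_adj hnadj] at c1
    omega
  · obtain ⟨c1, c2⟩ := mid _ x2a x2b
    have hne2 : w'.2 ≠ y.2 := by
      intro h
      apply a2
      have : w' = (w.1, y.2) := Prod.ext a1'.symm h
      rw [this]; exact x2b
    have hne1 : w'.1 ≠ y.1 := by rw [← a1']; exact hwy.1.ne
    have hnadj : ¬ G₂.Adj w'.2 y.2 := by
      intro h
      apply c2
      rw [boxProd_adj]; right; exact ⟨h, a1'.symm⟩
    rw [w3_prod w' y hne1 hne2, ad_of_not_adj hnadj, ← a1', ad_of_adj hwy.1]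
    rw [cn_prod] at c1
    simp only [← a1', dl_self, dl_ne hne2, ad_of_not_adj hnadj] at c1
    omega

theorem QI.tw_of_Dd {a b c d : V} (h : Dia G a b c d) (hD : Dd u a b c ≠ 0) :
    Tw G u a b ∧ Tw G u b c ∧ Tw G u d c ∧ Tw G u a d := by
  have key : ∀ {p q r s : V}, G.Adj p q → G.Adj r s → tt u p q = tt u r s →
      hh u p q - hh u r s = Dd u a b c + Dd u a b c → Tw G u p q ∧ Tw G u r s := by
    intro p q r s h1 h2 h3 h4
    have h5 : Tw G u p q ↔ Tw G u r s := by rw [hu.tw_iff h1, hu.tw_iff h2, h3]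
    have h6 : Tw G u p q := by
      by_contra h7
      have h8 : ¬ Tw G u r s := fun h => h7 (h5.2 h)
      have h9 : hh u p q = hh u q p := by
        by_contra h; exact h7 ⟨h1, h⟩
      have h10 : hh u r s = hh u s r := by
        by_contra h; exact h8 ⟨h2, h⟩
      have h11 := (hu.idem_of_hh_symm h1 h9).1
      have h12 := (hu.idem_of_hh_symm h2 h10).1
      rw [← h11, ← h12, h3, sub_self] at h4
      exact hD (freal_two h4.symm)
    exact ⟨h6, h5.1 h6⟩
  obtain ⟨h1, h2⟩ := key h.ab h.dc (hu.tt_square h) (hu.square h)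
  obtain ⟨h3, h4⟩ := key h.bc h.ad (hu.tt_square' h) (hu.square' h)
  exact ⟨h1, h3, h2, h4⟩

theorem QI.MM_of_Dd {a b c d : V} (h : Dia G a b c d) (hD : Dd u a b c ≠ 0) :
    MM G₁ G₂ u a c ≠ 0 := by
  intro hM
  obtain ⟨h1, h2, h3, h4⟩ := hu.tw_of_Dd h hD
  have := hu.hh_eq_of_MM h.ab h.bc hM
  exact hu.tw_ne_hh h2 h.ab.symm h.ac.symm this

/-- The cube over a square with `D ≠ 0`. -/
theorem QI.cube {a b c d : V} (h : Dia G a b c d) (h' : Dia G b c d a) (hD : Dd u a b c ≠ 0)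
    {a' : V} (ha : G.Adj a a') (hab : a' ≠ b) (had : a' ≠ d) :
    ∃ b' c' d', Dia G a' b' c' d' ∧ Dia G b' c' d' a' ∧ G.Adj b b' ∧ G.Adj c c' ∧ G.Adj d d' ∧
      Dd u a' b' c' = Dd u a b c := by
  classical
  obtain ⟨tab, tbc, tdc, tad⟩ := hu.tw_of_Dd h hD
  have hM := hu.MM_of_Dd h hD
  have hw3 := hu.w3_eq_six h tab tad hM ha hab had
  have nac : ¬ G.Adj a' c := by
    intro h3
    rcases (h.iff a').1 ⟨ha, h3⟩ with h4 | h4
    · exact hab h4
    · exact had h4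
  obtain ⟨b', db1, db2, tb, nab⟩ := hu.tw_dia tab ha hab
  obtain ⟨d', dd1, dd2, td, nad⟩ := hu.tw_dia tad ha had
  have bb : G.Adj b b' := db1.dc.symm
  have dd : G.Adj d d' := dd1.dc.symm
  have ab' : G.Adj a' b' := db1.ad
  have ad' : G.Adj a' d' := dd1.ad
  have b'c : b' ≠ c := by rintro rfl; exact nac ab'
  have d'c : d' ≠ c := by rintro rfl; exact nac ad'
  have b'a : b' ≠ a := db1.bd.symm
  have d'a : d' ≠ a := dd1.bd.symm
  have b'd' : b' ≠ d' := by
    rintro rfl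
    rcases (h'.iff b').1 ⟨bb, dd.symm⟩ with h4 | h4
    · exact b'c h4
    · exact b'a h4
  obtain ⟨c1, dc1, dc2, tc1, nc1⟩ := hu.tw_dia tbc bb b'c
  obtain ⟨c2, de1, de2, tc2, nc2⟩ := hu.tw_dia tdc dd d'c
  have cc1 : G.Adj c c1 := dc1.dc.symm
  have cc2 : G.Adj c c2 := de1.dc.symm
  have b'c1 : G.Adj b' c1 := dc1.ad
  have d'c2 : G.Adj d' c2 := de1.ad
  have c1a' : c1 ≠ a' := by rintro rfl; exact nac cc1.symm
  have c2a' : c2 ≠ a' := by rintro rfl; exact nac cc2.symm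
  have c1b : c1 ≠ b := dc2.ac.symm
  have c2d : c2 ≠ d := de2.ac.symm
  have c1d : c1 ≠ d := by
    rintro rfl
    rcases (h'.iff b').1 ⟨bb, b'c1⟩ with h4 | h4
    · exact b'c h4
    · exact b'a h4
  have c2b : c2 ≠ b := by
    rintro rfl
    rcases (h'.iff d').1 ⟨d'c2.symm, dd.symm⟩ with h4 | h4
    · exact d'c h4
    · exact d'a h4
  -- c1 = c2
  obtain ⟨x1, e1, e2, e3, e4⟩ := hu.tw_dia tb.symm b'c1 c1a'
  obtain ⟨x2, f1, f2, f3, f4⟩ := hu.tw_dia td.symm d'c2 c2a'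
  have hcc : c1 = c2 := by
    by_contra hcc
    have : 8 ≤ w3 G c a' := by
      unfold w3
      have hsub : ({b, d, c1, c2} : Finset V) ⊆ Finset.univ := Finset.subset_univ _
      refine le_trans ?_ (Finset.sum_le_sum_of_subset hsub)
      rw [Finset.sum_insert, Finset.sum_insert, Finset.sum_insert, Finset.sum_singleton]
      · rw [ad_of_adj h.bc.symm, ad_of_adj h.dc.symm, ad_of_adj cc1, ad_of_adj cc2,
          cn_symm b a', cn_symm d a', cn_of_dia db1, cn_of_dia dd1, cn_of_dia e1, cn_of_dia f1]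
        norm_num
      · simpa using hcc
      · simp only [Finset.mem_insert, Finset.mem_singleton, not_or]
        exact ⟨c1d.symm, c2d.symm⟩
      · simp only [Finset.mem_insert, Finset.mem_singleton, not_or]
        exact ⟨h.bd, c1b.symm, c2b.symm⟩
    rw [w3_symm, hw3] at this
    omega
  subst hcc
  have F1 : Dia G a' b' c1 d' := by
    have hx : x1 = d' := by
      rcases (e1.iff d').1 ⟨d'c2.symm, ad'.symm⟩ with h4 | h4
      · exact absurd h4.symm b'd'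
      · exact h4.symm
    subst hx
    exact e1.rev
  have F2 : Dia G b' c1 d' a' := by
    obtain ⟨x, g1, g2, g3, g4⟩ := hu.tw_dia tb ad' b'd'.symm
    have hx : x = c1 := by
      rcases (g1.iff c1).1 ⟨d'c2, b'c1.symm⟩ with h4 | h4
      · exact absurd h4 c1a'
      · exact h4.symm
    subst hx
    exact g1.rev.flip
  refine ⟨b', c1, d', F1, F2, bb, cc1, dd, ?_⟩
  -- the identity
  have s1 := hu.square h
  have s2 := hu.square' h
  have s3 := hu.square F1
  have s4 := hu.square' F1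
  have g1 := hu.square db2.flip
  have g2 := hu.square' db2.flip
  have k1 := hu.square dd2.flip
  have k2 := hu.square' dd2.flip
  have l1 := hu.square dc2.flip
  have l2 := hu.square' dc2.flip
  have m1 := hu.square de2.flip
  have m2 := hu.square' de2.flip
  set D := Dd u a b c
  set D' := Dd u a' b' c1
  have e5 : (D + D) - (D' + D') = (hh u b b' - hh u a a') - (hh u c c1 - hh u d d') := by
    rw [← s1, ← s3, g2, m2, ← g1, ← m1]; abel
  have e6 : (D + D) - (D' + D') = (hh u c c1 - hh u b b') - (hh u d d' - hh u a a') := by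
    rw [← s2, ← s4, l2, k2, ← l1, ← k1]; abel
  have e7 : ((D + D) - (D' + D')) + ((D + D) - (D' + D')) = 0 := by
    nth_rw 1 [e5]
    rw [e6]; abel
  have e8 := sub_eq_zero.1 (freal_two e7)
  exact (freal_two' e8).symm

end cube

end QSym
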